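import Pool.Agent.Helper99.SI.Defs2

set_option autoImplicit false

/-!
# Project SI: operators (definitions)
-/

namespace Pool.Agent.Helper99.SI

/-- The Hilbert space of square summable functions on a type. -/
abbrev L2 (ι : Type) : Type := lp (fun _ : ι => ℂ) 2

/-- Standard basis vectors. -/
noncomputable def eb {ι : Type} [DecidableEq ι] (i : ι) : L2 ι := lp.single 2 i (1 : ℂ)

/-- T has the matrix with columns a i. -/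
def IsOp {ι ι' : Type} (T : L2 ι →L[ℂ] L2 ι') (a : ι → (ι' →₀ ℂ)) : Prop :=
  ∀ (z : L2 ι) (k : ι'), T z k = ∑ᶠ i : ι, a i k * z i

/-- Squared norm of a finitely supported function. -/
noncomputable def nsq {ι : Type} (p : ι →₀ ℂ) : ℝ := p.sum fun _ c => ‖c‖ ^ 2

section

variable {n : ℕ} {L : Type} [Ring L] [Algebra ℂ L] [StarRing L]

/-- Columns of the operators K_κ(t) on the words of length at least M4. -/
noncomputable def Sys.kcol (D : Sys n L) (r M4 : ℕ) (t : ℝ) (κ : W n) :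
    Idx n r → (Idx n r →₀ ℂ)
  | Sum.inl (Sum.inl ν) => if M4 ≤ ν.length then
      (D.cf (star (D.b.ev (t : ℂ) (D.w κ)) * D.w ν)).mapDomain fun μ => Sum.inl (Sum.inl μ)
      else 0
  | Sum.inl (Sum.inr ν) => if M4 ≤ ν.length then
      ((D.cf (star (D.b.ev (t : ℂ) (D.w κ)) * D.w ν)).mapRange star (star_zero ℂ)).mapDomain
        fun μ => Sum.inl (Sum.inr μ)
      else 0
  | Sum.inr _ => 0

/-- The Gram operator. -/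
noncomputable def Gop {n r : ℕ} (n1 : ℕ) (K : W n → ℝ → (L2 (Idx n r) →L[ℂ] L2 (Idx n r)))
    (u : ℝ) : L2 (Idx n r) →L[ℂ] L2 (Idx n r) :=
  1 + ∑ j ∈ Finset.Ico 1 n1, ∑ κ : Fin j → Fin n,
    ((u : ℂ) ^ (-2 * (j : ℤ))) •
      ((ContinuousLinearMap.adjoint (K (List.ofFn κ) (u ^ n1))) ∘L (K (List.ofFn κ) (u ^ n1)))

/-- Level conditions for M4 (and the growth exponent n1). -/
structure Lev4 (D : Sys n L) (n1 M4 : ℕ) : Prop where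
  n1pos : 1 ≤ n1
  deg : ∀ μ : W n, n1 ≤ μ.length → ∀ i < (1 : ℤ), D.b.p i (D.w μ) = 0
  le : n1 ≤ M4
  l1 : ∀ ν κ : W n, M4 ≤ ν.length → κ.length ≤ n1 → ∀ j : ℤ,
    star (D.b.p j (D.w κ)) * D.w ν ∈ D.S
  l2 : ∀ ν κ : W n, M4 ≤ ν.length → κ.length ≤ n1 → ∀ i j : ℤ,
    D.b.p i (D.w κ) * star (D.b.p j (D.w κ)) * D.w ν ∈ D.S

/-- The norm N_u(p) = sum over j < n1 of u^(-2j) sum over |κ| = j of ||bt(x_κ)^* p||^2. -/
noncomputable def Sys.Nu (D : Sys n L) (n1 : ℕ) (u : ℝ) (p : W n →₀ ℂ) : ℝ :=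
  ∑ j ∈ Finset.range n1, ∑ κ : Fin j → Fin n,
    u ^ (-2 * (j : ℤ)) * nsq (D.cf (star (D.b.ev ((u ^ n1 : ℝ) : ℂ) (D.w (List.ofFn κ))) * D.emb p))

/-- A_t p. -/
noncomputable def Sys.At (D : Sys n L) (t : ℝ) (p : W n →₀ ℂ) : W n →₀ ℂ :=
  D.cf (∑ i, star (D.b.ev (t : ℂ) (D.x i)) * D.emb p * D.x i)

/-- C^flat on coordinate functions. -/
noncomputable def MData.Cf (m : MData n L) (t : ℝ) (z : Idx n m.r → ℂ) : Idx n m.r → ℂ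
  | Sum.inl (Sum.inl ν) => star (z (Sum.inl (Sum.inr ν))) +
      ∑ a, star (z (Sum.inr a)) * m.Cc t (Sum.inr a) (Sum.inl (Sum.inl ν))
  | Sum.inl (Sum.inr ν) => star (z (Sum.inl (Sum.inl ν))) +
      ∑ a, star (z (Sum.inr a)) * m.Cc t (Sum.inr a) (Sum.inl (Sum.inr ν))
  | Sum.inr b => ∑ a, star (z (Sum.inr a)) * m.Cc t (Sum.inr a) (Sum.inr b)

/-- The package of operators. -/
structure OpPack (D : Sys n L) (m : MData n L) (J0 : Finset (Idx n m.r)) where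
  /-- exponent, t = u ^ n1 -/
  n1 : ℕ
  /-- the finite index set of the Schur complement -/
  J : Finset (Idx n m.r)
  /-- Phi^flat_t -/
  Ph : ℝ → (L2 (Idx n m.r) →L[ℂ] L2 (Idx n m.r))
  /-- the Gram operator -/
  G : ℝ → (L2 (Idx n m.r) →L[ℂ] L2 (Idx n m.r))
  /-- the conjugate linear involution -/
  Cop : ℝ → L2 (Idx n m.r) → L2 (Idx n m.r)
  hn1 : 1 ≤ n1
  J0J : J0 ⊆ J
  JM2 : ∀ i : Idx n m.r, ilen i < m.M2 → i ∈ J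
  Jsym : ∀ ν : W n, (Sum.inl (Sum.inl ν) : Idx n m.r) ∈ J ↔ (Sum.inl (Sum.inr ν) : Idx n m.r) ∈ J
  Phc : ContinuousOn Ph (Set.Ioi 0)
  Phs : ∀ t : ℝ, 0 < t → IsOp (Ph t) (m.Fc t)
  Gc : ContinuousOn G (Set.Ioi 0)
  Gsa : ∀ u : ℝ, 0 < u → ∀ y z, inner ℂ (G u y) z = inner ℂ y (G u z)
  Gge : ∀ u : ℝ, 0 < u → ∀ z, ‖z‖ ^ 2 ≤ (inner ℂ z (G u z)).re
  Gsh : ∀ u : ℝ, 0 < u → ∀ i : Idx n m.r, ilen i < m.M2 → G u (eb i) = eb i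
  coer : ∀ u : ℝ, 0 < u → u ≤ 1 → ∀ s : ℝ, 0 ≤ s → s ≤ 1 → ∀ z : L2 (Idx n m.r),
    (∀ i ∈ J, z i = 0) →
    (1 - s * u) * ‖z‖ ^ 2 ≤ (inner ℂ z (G u (z - (s : ℂ) • Ph (u ^ n1) z))).re
  off : ∃ C : ℝ, ∀ u : ℝ, 1 / 2 ≤ u → u ≤ 1 → ∀ s : ℝ, 0 ≤ s → s ≤ 1 →
    ∀ y z : L2 (Idx n m.r), (∀ i ∈ J, y i = 0) → (∀ i ∉ J, z i = 0) →
    ‖inner ℂ y (G u (z - (s : ℂ) • Ph (u ^ n1) z))‖ ≤ C * (1 - u) * ‖y‖ * ‖z‖
  Cs : ∀ t : ℝ, 0 < t → ∀ z i, Cop t z i = m.Cf t (fun k => z k) i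
  CC : ∀ t : ℝ, 0 < t → ∀ z, Cop t (Cop t z) = z
  CPh : ∀ t : ℝ, 0 < t → ∀ z, Cop t (Ph t z) = Ph t (Cop t z)
  CG : ∀ t u : ℝ, 0 < t → 0 < u → ∀ z, Cop t (G u z) = G u (Cop t z)

end

end Pool.Agent.Helper99.SI
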