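import Pool.Agent.Helper99.SI.Defs

set_option autoImplicit false

/-!
# Project SI: the model (interface)
-/

namespace Pool.Agent.Helper99.SI

/-- Index set of the model: two copies of the words and finitely many further indices. -/
abbrev Idx (n r : ℕ) : Type := (W n ⊕ W n) ⊕ Fin r

/-- Length of an index. -/
def ilen {n r : ℕ} : Idx n r → ℕ
  | Sum.inl (Sum.inl ν) => ν.length
  | Sum.inl (Sum.inr ν) => ν.length
  | Sum.inr _ => 0

/-- The data of a model. -/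
structure MData (n : ℕ) (L : Type) where
  /-- words of length less than M are dummies -/
  M : ℕ
  /-- long words have length at least M2 -/
  M2 : ℕ
  /-- number of further basis vectors -/
  r : ℕ
  /-- the exponents of t -/
  Z : Finset ℤ
  /-- coefficients of the further basis vectors -/
  bb : ℤ → Fin r → L
  /-- columns of the coefficient matrices of Phi^flat -/
  F : ℤ → Idx n r → (Idx n r →₀ ℂ)
  /-- columns of the coefficient matrices of C^flat on the further basis vectors -/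
  Cm : ℤ → Fin r → (Idx n r →₀ ℂ)

section

variable {n : ℕ} {L : Type} [Ring L] [Algebra ℂ L] [StarRing L]

namespace MData

variable (m : MData n L)

/-- The images of the basis vectors in L at the parameter t. -/
noncomputable def piT (D : Sys n L) (t : ℝ) : Idx n m.r → L
  | Sum.inl (Sum.inl ν) => if m.M ≤ ν.length then D.b.ev (t : ℂ) (D.w ν) else 0
  | Sum.inl (Sum.inr ν) => if m.M ≤ ν.length then star (D.w ν) else 0
  | Sum.inr a => ∑ j ∈ m.Z, (t : ℂ) ^ j • m.bb j a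

/-- The linear map to L. -/
noncomputable def piV (D : Sys n L) (t : ℝ) : (Idx n m.r →₀ ℂ) →ₗ[ℂ] L :=
  Finsupp.linearCombination ℂ (m.piT D t)

omit [Ring L] [Algebra ℂ L] [StarRing L] in
/-- The columns of Phi^flat at t. -/
noncomputable def Fc (m : MData n L) (t : ℝ) (i : Idx n m.r) : Idx n m.r →₀ ℂ :=
  ∑ j ∈ m.Z, (t : ℂ) ^ j • m.F j i

/-- Phi^flat at t on finitely supported vectors. -/
noncomputable def Fl (m : MData n L) (t : ℝ) : (Idx n m.r →₀ ℂ) →ₗ[ℂ] (Idx n m.r →₀ ℂ) :=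
  Finsupp.linearCombination ℂ (m.Fc t)

/-- The columns of C^flat at t. -/
noncomputable def Cc (m : MData n L) (t : ℝ) : Idx n m.r → (Idx n m.r →₀ ℂ)
  | Sum.inl (Sum.inl ν) => Finsupp.single (Sum.inl (Sum.inr ν)) 1
  | Sum.inl (Sum.inr ν) => Finsupp.single (Sum.inl (Sum.inl ν)) 1
  | Sum.inr a => ∑ j ∈ m.Z, (t : ℂ) ^ j • m.Cm j a

/-- C^flat at t, conjugate linear. -/
noncomputable def Cl (m : MData n L) (t : ℝ) (z : Idx n m.r →₀ ℂ) : Idx n m.r →₀ ℂ :=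
  z.sum fun i c => star c • m.Cc t i

/-- z is a kernel vector of 1 - s Phi^flat_t (coordinates; the sums are finite for a model). -/
def IsKer (m : MData n L) (s t : ℝ) (z : Idx n m.r → ℂ) : Prop :=
  ∀ i, z i = s * ∑ᶠ i' : Idx n m.r, m.Fc t i' i * z i'

end MData

/-- Column of A_t on a long word, coefficient of t^j. -/
noncomputable def Sys.acol (D : Sys n L) (j : ℤ) (ν : W n) : W n →₀ ℂ :=
  D.cf (∑ i, star (D.b.p j (D.x i)) * D.w ν * D.x i)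

/-- m is a model for the system D and the finite set X0. -/
structure IsModel (D : Sys n L) (X0 : Set L) (m : MData n L) : Prop where
  M1 : 1 ≤ m.M
  MM : m.M ≤ m.M2
  pos : ∀ μ : W n, m.M ≤ μ.length → ∀ i < (1 : ℤ), D.b.p i (D.w μ) = 0
  lev : ∀ ν : W n, m.M2 ≤ ν.length → ∀ (j : ℤ) (i : Fin n), star (D.b.p j (D.x i)) * D.w ν ∈ D.Sge m.M
  zx : ∀ j ∉ m.Z, ∀ i, D.b.p j (D.x i) = 0
  fpi : ∀ t : ℝ, 0 < t → ∀ z, m.piV D t (m.Fl t z) = D.Phi t (m.piV D t z)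
  long1 : ∀ j ∈ m.Z, ∀ ν : W n, m.M2 ≤ ν.length →
    m.F j (Sum.inl (Sum.inl ν)) = (D.acol j ν).mapDomain fun μ => Sum.inl (Sum.inl μ)
  long2 : ∀ j ∈ m.Z, ∀ ν : W n, m.M2 ≤ ν.length →
    m.F j (Sum.inl (Sum.inr ν)) =
      ((D.acol j ν).mapRange star (star_zero ℂ)).mapDomain fun μ => Sum.inl (Sum.inr μ)
  dum1 : ∀ j, ∀ ν : W n, ν.length < m.M →
    m.F j (Sum.inl (Sum.inl ν)) = 0 ∧ m.F j (Sum.inl (Sum.inr ν)) = 0
  dum2 : ∀ j, ∀ ν : W n, ν.length < m.M → ∀ i,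
    m.F j i (Sum.inl (Sum.inl ν)) = 0 ∧ m.F j i (Sum.inl (Sum.inr ν)) = 0
  band : ∃ c : ℕ, ∀ j i i', m.F j i i' ≠ 0 → ilen i' ≤ ilen i + c ∧ ilen i ≤ ilen i' + c
  nil : ∀ t : ℝ, 0 < t → ∀ z, m.piV D t z = 0 → ∃ k : ℕ, (m.Fl t ^ k) z = 0
  cok : ∀ t : ℝ, 0 < t → ∀ y : L, ∃ (k : ℕ) (z : Idx n m.r →₀ ℂ),
    (D.Phi t ^ k) y = m.piV D t z
  lift : ∀ y ∈ X0, ∃ k : ℤ → (Idx n m.r →₀ ℂ),
    (∀ j i, k j i ≠ 0 → ilen i < m.M2) ∧
    ∀ t : ℝ, 0 < t → m.piV D t (∑ j ∈ m.Z, (t : ℂ) ^ j • k j) = y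
  Csupp : ∀ j a i, m.Cm j a i ≠ 0 → ilen i < m.M2
  Cinv : ∀ t : ℝ, 0 < t → ∀ z, m.Cl t (m.Cl t z) = z
  Ccomm : ∀ t : ℝ, 0 < t → ∀ z, m.Cl t (m.Fl t z) = m.Fl t (m.Cl t z)
  Cpi : ∀ t : ℝ, 0 < t → ∀ z, m.piV D t (m.Cl t z) = D.b.ev (t : ℂ) (star (m.piV D t z))

end

end Pool.Agent.Helper99.SI
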