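import Pool.Agent.Helper99.SI.Main

set_option autoImplicit false

/-!
# Project SI: base change to the complex numbers

An isomorphism of rings with involution L_k(E) ≃ L_k(G) which maps k onto k gives a star
isomorphism over the complex numbers for every embedding of k with its involution.
-/

namespace Pool.Agent.Helper99.SI

open Pool.Agent.Helper92 Pool.Agent.Helper92.LV

universe u v

section

variable {k : Type u} [Field k] {V E : Type} [Fintype V] [Fintype E] [DecidableEq V]
  [DecidableEq E]

/-- Two ring homomorphisms from L_k(G) agree if they agree on k and on the generators. -/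
lemma lpa_hom_ext (G : LV.Graph V E) {R : Type v} [Ring R] (f g : LPA k G →+* R)
    (h1 : ∀ c : k, f (algebraMap k (LPA k G) c) = g (algebraMap k (LPA k G) c))
    (h2 : ∀ y : Gen V E, f (gen k G y) = g (gen k G y)) : f = g := by
  refine RingHom.ext fun y => ?_
  have hmem : y ∈ Algebra.adjoin k (Set.range (canon k G).v ∪ Set.range (canon k G).e ∪
      Set.range (canon k G).g) := by
    rw [show Algebra.adjoin k (Set.range (canon k G).v ∪ Set.range (canon k G).e ∪
      Set.range (canon k G).g) = ⊤ from canon_gens k G]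
    trivial
  induction hmem using Algebra.adjoin_induction with
  | mem x hx =>
    rcases hx with (⟨a, rfl⟩ | ⟨a, rfl⟩) | ⟨a, rfl⟩
    · exact h2 (Gen.v a)
    · exact h2 (Gen.e a)
    · exact h2 (Gen.g a)
  | algebraMap c => exact h1 c
  | add x y _ _ hx hy => rw [map_add, map_add, hx, hy]
  | mul x y _ _ hx hy => rw [map_mul, map_mul, hx, hy]

/-- A family over C regarded as a family over k. -/
noncomputable def famk (ι : k →+* ℂ) (G : LV.Graph V E) :
    letI : Algebra k (LPA ℂ G) := ((algebraMap ℂ (LPA ℂ G)).comp ι).toAlgebra'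
      (fun c x => Algebra.commutes (R := ℂ) (ι c) x)
    Fam k G (LPA ℂ G) :=
  letI : Algebra k (LPA ℂ G) := ((algebraMap ℂ (LPA ℂ G)).comp ι).toAlgebra'
      (fun c x => Algebra.commutes (R := ℂ) (ι c) x)
  { v := (canon ℂ G).v
    e := (canon ℂ G).e
    g := (canon ℂ G).g
    vv := (canon ℂ G).vv
    se := (canon ℂ G).se
    er := (canon ℂ G).er
    rg := (canon ℂ G).rg
    gs := (canon ℂ G).gs
    ck1 := (canon ℂ G).ck1
    ck2 := (canon ℂ G).ck2
    one := (canon ℂ G).one }

/-- Base change L_k(G) → L_C(G). -/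
noncomputable def bc (ι : k →+* ℂ) (G : LV.Graph V E) : LPA k G →+* LPA ℂ G :=
  letI : Algebra k (LPA ℂ G) := ((algebraMap ℂ (LPA ℂ G)).comp ι).toAlgebra'
      (fun c x => Algebra.commutes (R := ℂ) (ι c) x)
  (ofFam k G (famk ι G)).toRingHom

lemma bc_alg (ι : k →+* ℂ) (G : LV.Graph V E) (c : k) :
    bc ι G (algebraMap k (LPA k G) c) = algebraMap ℂ (LPA ℂ G) (ι c) := by
  letI : Algebra k (LPA ℂ G) := ((algebraMap ℂ (LPA ℂ G)).comp ι).toAlgebra'
      (fun c x => Algebra.commutes (R := ℂ) (ι c) x)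
  exact (ofFam k G (famk ι G)).commutes c

lemma bc_gen (ι : k →+* ℂ) (G : LV.Graph V E) (y : Gen V E) :
    bc ι G (gen k G y) = gen ℂ G y := by
  letI : Algebra k (LPA ℂ G) := ((algebraMap ℂ (LPA ℂ G)).comp ι).toAlgebra'
      (fun c x => Algebra.commutes (R := ℂ) (ι c) x)
  have h := ofFam_gen k G (famk ι G) y
  refine h.trans ?_
  cases y <;> rfl

lemma star_alg {k : Type u} [Field k] [StarRing k] (G : LV.Graph V E) (c : k) :
    star (algebraMap k (LPA k G) c) = algebraMap k (LPA k G) (star c) := by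
  rw [Algebra.algebraMap_eq_smul_one, Algebra.algebraMap_eq_smul_one, star_smul, star_one]

/-- the star of a generator is a generator -/
def sgen : Gen V E → Gen V E
  | Gen.v a => Gen.v a
  | Gen.e x => Gen.g x
  | Gen.g x => Gen.e x

lemma star_gen' {k : Type u} [Field k] [StarRing k] (G : LV.Graph V E) (y : Gen V E) :
    star (gen k G y) = gen k G (sgen y) := by
  rw [star_gen]; cases y <;> rfl

/-- star preserving on generators and scalars implies star preserving -/
lemma star_ext {k : Type u} [Field k] [StarRing k] (G : LV.Graph V E) {R : Type v} [Ring R]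
    [StarRing R] (f : LPA k G →+* R)
    (h1 : ∀ c : k, f (algebraMap k (LPA k G) (star c)) = star (f (algebraMap k (LPA k G) c)))
    (h2 : ∀ y : Gen V E, f (gen k G (sgen y)) = star (f (gen k G y))) (y : LPA k G) :
    f (star y) = star (f y) := by
  have hmem : y ∈ Algebra.adjoin k (Set.range (canon k G).v ∪ Set.range (canon k G).e ∪
      Set.range (canon k G).g) := by
    rw [show Algebra.adjoin k (Set.range (canon k G).v ∪ Set.range (canon k G).e ∪
      Set.range (canon k G).g) = ⊤ from canon_gens k G]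
    trivial
  induction hmem using Algebra.adjoin_induction with
  | mem x hx =>
    rcases hx with (⟨a, rfl⟩ | ⟨a, rfl⟩) | ⟨a, rfl⟩
    · change f (star (gen k G (Gen.v a))) = star (f (gen k G (Gen.v a)))
      rw [star_gen', h2]
    · change f (star (gen k G (Gen.e a))) = star (f (gen k G (Gen.e a)))
      rw [star_gen', h2]
    · change f (star (gen k G (Gen.g a))) = star (f (gen k G (Gen.g a)))
      rw [star_gen', h2]
  | algebraMap c => rw [star_alg, h1]
  | add x y _ _ hx hy => rw [star_add, map_add, map_add, star_add, hx, hy]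
  | mul x y _ _ hx hy => rw [star_mul, map_mul, map_mul, star_mul, hx, hy]

lemma bc_star {k : Type u} [Field k] [StarRing k] (ι : k →+* ℂ)
    (hι : ∀ a, ι (star a) = star (ι a)) (G : LV.Graph V E) (y : LPA k G) :
    bc ι G (star y) = star (bc ι G y) := by
  refine star_ext G (bc ι G) (fun c => ?_) (fun y => ?_) y
  · rw [bc_alg, bc_alg, hι, star_alg]
  · rw [bc_gen, bc_gen, star_gen']

end

section

variable {k : Type u} [Field k] {V E V' E' : Type} [Fintype V] [Fintype E] [DecidableEq V]
  [DecidableEq E] [Fintype V'] [Fintype E'] [DecidableEq V'] [DecidableEq E']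
  {G : LV.Graph V E} {G' : LV.Graph V' E'}

/-- The image family under a ring homomorphism from L_k(G) to a complex algebra. -/
noncomputable def imFam {L : Type v} [Ring L] [Algebra ℂ L] (h : LPA k G →+* L) :
    Fam ℂ G L where
  v a := h ((canon k G).v a)
  e x := h ((canon k G).e x)
  g x := h ((canon k G).g x)
  vv a b := by
    rw [← map_mul, (canon k G).vv]
    split_ifs <;> simp
  se x := by rw [← map_mul, (canon k G).se]
  er x := by rw [← map_mul, (canon k G).er]
  rg x := by rw [← map_mul, (canon k G).rg]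
  gs x := by rw [← map_mul, (canon k G).gs]
  ck1 x y := by
    rw [← map_mul, (canon k G).ck1]
    split_ifs <;> simp
  ck2 a ha := by
    rw [(canon k G).ck2 a ha, map_sum]
    exact Finset.sum_congr rfl fun x _ => map_mul _ _ _
  one := by rw [← map_sum, (canon k G).one, map_one]

lemma imFam_gen {L : Type v} [Ring L] [Algebra ℂ L] (h : LPA k G →+* L) (y : Gen V E) :
    ofFam ℂ G (imFam h) (gen ℂ G y) = h (gen k G y) := by
  rw [ofFam_gen]
  cases y <;> rfl

/-- The complexification of a semilinear ring homomorphism. -/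
noncomputable def cx (ι : k →+* ℂ) (φ : LPA k G →+* LPA k G') : LPA ℂ G →ₐ[ℂ] LPA ℂ G' :=
  ofFam ℂ G (imFam ((bc ι G').comp φ))

lemma cx_gen (ι : k →+* ℂ) (φ : LPA k G →+* LPA k G') (y : Gen V E) :
    cx ι φ (gen ℂ G y) = bc ι G' (φ (gen k G y)) := imFam_gen _ y

lemma cx_bc (ι ι' : k →+* ℂ) (φ : LPA k G →+* LPA k G')
    (h : ∀ c : k, bc ι' G' (φ (algebraMap k (LPA k G) c)) = algebraMap ℂ (LPA ℂ G') (ι c))
    (y : LPA k G) : cx ι' φ (bc ι G y) = bc ι' G' (φ y) := by
  have := lpa_hom_ext (k := k) G (((cx ι' φ).toRingHom).comp (bc ι G)) ((bc ι' G').comp φ)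
    (fun c => by
      change cx ι' φ (bc ι G _) = bc ι' G' (φ _)
      rw [bc_alg, AlgHom.commutes, h])
    (fun y => by
      change cx ι' φ (bc ι G _) = bc ι' G' (φ _)
      rw [bc_gen, cx_gen])
  exact congrArg (fun f : LPA k G →+* LPA ℂ G' => f y) this

lemma cx_star {k : Type u} [Field k] [StarRing k] {G : LV.Graph V E} {G' : LV.Graph V' E'}
    (ι : k →+* ℂ) (hι : ∀ a, ι (star a) = star (ι a)) (φ : LPA k G →+* LPA k G')
    (hφ : ∀ y, φ (star y) = star (φ y)) (y : LPA ℂ G) : cx ι φ (star y) = star (cx ι φ y) := by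
  refine star_ext G (cx ι φ).toRingHom (fun c => ?_) (fun y => ?_) y
  · change cx ι φ _ = star (cx ι φ _)
    rw [AlgHom.commutes, AlgHom.commutes, star_alg]
  · change cx ι φ _ = star (cx ι φ _)
    rw [cx_gen, cx_gen, ← star_gen', hφ, bc_star ι hι]

/-- BASE CHANGE.  A star ring isomorphism which maps the scalars by an automorphism α of k gives a
complex star isomorphism. -/
theorem base_change {k : Type u} [Field k] [StarRing k] {G : LV.Graph V E}
    {G' : LV.Graph V' E'} (ι : k →+* ℂ) (hι : ∀ a, ι (star a) = star (ι a)) (α : k ≃+* k)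
    (φ : LPA k G ≃+* LPA k G') (hφ : ∀ y, φ (star y) = star (φ y))
    (hα : ∀ c : k, φ (algebraMap k (LPA k G) c) = algebraMap k (LPA k G') (α c))
    (hαs : ∀ c : k, α (star c) = star (α c)) :
    ∃ Φ : LPA ℂ G ≃ₐ[ℂ] LPA ℂ G', ∀ y, Φ (star y) = star (Φ y) := by
  -- ι on the side of G, ι ∘ α⁻¹ on the side of G'
  set ι' : k →+* ℂ := ι.comp α.symm.toRingHom with hι'
  have hα' : ∀ c : k, α.symm (star c) = star (α.symm c) := fun c => by
    rw [RingEquiv.symm_apply_eq, hαs, RingEquiv.apply_symm_apply]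
  have hιs : ∀ a, ι' (star a) = star (ι' a) := fun a => by
    change ι (α.symm (star a)) = star (ι (α.symm a))
    rw [hα', hι]
  have hψ : ∀ y, φ.symm (star y) = star (φ.symm y) := fun y => by
    rw [RingEquiv.symm_apply_eq, hφ, RingEquiv.apply_symm_apply]
  have h1 : ∀ c : k, bc ι' G' ((φ : LPA k G →+* LPA k G') (algebraMap k (LPA k G) c)) =
      algebraMap ℂ (LPA ℂ G') (ι c) := fun c => by
    change bc ι' G' (φ _) = _
    rw [hα, bc_alg]
    change algebraMap ℂ _ (ι (α.symm (α c))) = _
    rw [RingEquiv.symm_apply_apply]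
  have h2 : ∀ c : k, bc ι G ((φ.symm : LPA k G' →+* LPA k G) (algebraMap k (LPA k G') c)) =
      algebraMap ℂ (LPA ℂ G) (ι' c) := fun c => by
    change bc ι G (φ.symm _) = _
    have : φ.symm (algebraMap k (LPA k G') c) = algebraMap k (LPA k G) (α.symm c) := by
      rw [RingEquiv.symm_apply_eq, hα, RingEquiv.apply_symm_apply]
    rw [this, bc_alg]
    rfl
  have hinv1 : ∀ y, cx ι (φ.symm : LPA k G' →+* LPA k G)
      (cx ι' (φ : LPA k G →+* LPA k G') y) = y := by
    have := lpa_hom_ext (k := ℂ) G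
      (((cx ι (φ.symm : LPA k G' →+* LPA k G)).toRingHom).comp
        (cx ι' (φ : LPA k G →+* LPA k G')).toRingHom) (RingHom.id _)
      (fun c => by
        change cx ι (φ.symm : LPA k G' →+* LPA k G) (cx ι' (φ : LPA k G →+* LPA k G') _) = _
        rw [AlgHom.commutes, AlgHom.commutes]
        rfl)
      (fun y => by
        change cx ι (φ.symm : LPA k G' →+* LPA k G) (cx ι' (φ : LPA k G →+* LPA k G') _) = _
        rw [cx_gen, cx_bc ι' ι _ h2]
        change bc ι G (φ.symm (φ _)) = _
        rw [RingEquiv.symm_apply_apply, bc_gen]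
        rfl)
    intro y
    exact congrArg (fun f : LPA ℂ G →+* LPA ℂ G => f y) this
  have hinv2 : ∀ y, cx ι' (φ : LPA k G →+* LPA k G')
      (cx ι (φ.symm : LPA k G' →+* LPA k G) y) = y := by
    have := lpa_hom_ext (k := ℂ) G'
      (((cx ι' (φ : LPA k G →+* LPA k G')).toRingHom).comp
        (cx ι (φ.symm : LPA k G' →+* LPA k G)).toRingHom) (RingHom.id _)
      (fun c => by
        change cx ι' (φ : LPA k G →+* LPA k G') (cx ι (φ.symm : LPA k G' →+* LPA k G) _) = _
        rw [AlgHom.commutes, AlgHom.commutes]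
        rfl)
      (fun y => by
        change cx ι' (φ : LPA k G →+* LPA k G') (cx ι (φ.symm : LPA k G' →+* LPA k G) _) = _
        rw [cx_gen, cx_bc ι ι' _ h1]
        change bc ι' G' (φ (φ.symm _)) = _
        rw [RingEquiv.apply_symm_apply, bc_gen]
        rfl)
    intro y
    exact congrArg (fun f : LPA ℂ G' →+* LPA ℂ G' => f y) this
  refine ⟨AlgEquiv.ofAlgHom (cx ι' (φ : LPA k G →+* LPA k G'))
    (cx ι (φ.symm : LPA k G' →+* LPA k G)) (AlgHom.ext hinv2) (AlgHom.ext hinv1), fun y => ?_⟩
  exact cx_star ι' hιs (φ : LPA k G →+* LPA k G') hφ y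

end

end Pool.Agent.Helper99.SI
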