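import Mathlib
import Pool.Agent.Helper92.LV.Main

set_option autoImplicit false

/-!
# The involution of a Leavitt path algebra

For a field k with an involution (complex conjugation for k = C), the Leavitt path algebra
L_k(G) is a star algebra over k: vertices are selfadjoint and the adjoint of an edge is its ghost
edge.
-/

namespace Pool.Agent.Helper99.SI

open Pool.Agent.Helper92 Pool.Agent.Helper92.LV MulOpposite

universe u v

/-- The opposite ring of R, with scalars acting through the involution of k. -/
def Tw (_k : Type u) (R : Type v) : Type v := Rᵐᵒᵖ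

instance (k : Type u) (R : Type v) [Ring R] : Ring (Tw k R) := inferInstanceAs (Ring Rᵐᵒᵖ)

noncomputable instance (k : Type u) (R : Type v) [Field k] [StarRing k] [Ring R] [Algebra k R] :
    Algebra k (Tw k R) :=
  RingHom.toAlgebra' ((algebraMap k Rᵐᵒᵖ).comp (starRingEnd k))
    (fun c x => Algebra.commutes (A := Rᵐᵒᵖ) (star c) x)

/-- The identity map to the twisted opposite ring. -/
def tw (k : Type u) {R : Type v} (x : R) : Tw k R := op x

/-- The identity map from the twisted opposite ring. -/
def untw {k : Type u} {R : Type v} (x : Tw k R) : R := unop (show Rᵐᵒᵖ from x)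

lemma tw_mul {k : Type u} {R : Type v} [Ring R] (x y : R) : tw k x * tw k y = tw k (y * x) := rfl

lemma tw_zero {k : Type u} {R : Type v} [Ring R] : tw k (0 : R) = 0 := rfl

lemma tw_one {k : Type u} {R : Type v} [Ring R] : tw k (1 : R) = 1 := rfl

lemma tw_sum {k : Type u} {R : Type v} [Ring R] {ι : Type*} (s : Finset ι) (f : ι → R) :
    tw k (∑ i ∈ s, f i) = ∑ i ∈ s, tw k (f i) :=
  map_sum (MulOpposite.opAddEquiv (α := R)) f s

section

variable (k : Type u) [Field k] [StarRing k] {V E : Type} [Fintype V] [Fintype E] [DecidableEq V]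
  [DecidableEq E] (G : LV.Graph V E)

lemma tw_smul {R : Type v} [Ring R] [Algebra k R] (c : k) (x : R) :
    c • tw k x = tw k (star c • x) := by
  rw [Algebra.smul_def]
  change (algebraMap k Rᵐᵒᵖ (star c)) * op x = op (star c • x)
  rw [MulOpposite.algebraMap_apply, ← op_mul, Algebra.smul_def, Algebra.commutes]

/-- The family of adjoints in the twisted opposite ring. -/
noncomputable def twFam : Fam k G (Tw k (LPA k G)) where
  v a := tw k (gen k G (Gen.v a))
  e x := tw k (gen k G (Gen.g x))
  g x := tw k (gen k G (Gen.e x))
  vv a b := by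
    rw [tw_mul, show gen k G (Gen.v b) * gen k G (Gen.v a) =
      if b = a then gen k G (Gen.v b) else 0 from (canon k G).vv b a]
    by_cases h : a = b
    · subst h; rw [if_pos rfl, if_pos rfl]
    · rw [if_neg h, if_neg (Ne.symm h), tw_zero]
  se x := by rw [tw_mul]; exact congrArg (tw k) ((canon k G).gs x)
  er x := by rw [tw_mul]; exact congrArg (tw k) ((canon k G).rg x)
  rg x := by rw [tw_mul]; exact congrArg (tw k) ((canon k G).er x)
  gs x := by rw [tw_mul]; exact congrArg (tw k) ((canon k G).se x)
  ck1 x y := by
    rw [tw_mul, show gen k G (Gen.g y) * gen k G (Gen.e x) =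
      if y = x then gen k G (Gen.v (G.r y)) else 0 from (canon k G).ck1 y x]
    by_cases h : x = y
    · subst h; rw [if_pos rfl, if_pos rfl]
    · rw [if_neg h, if_neg (Ne.symm h), tw_zero]
  ck2 a h := by
    rw [show gen k G (Gen.v a) = ∑ x with G.s x = a, gen k G (Gen.e x) * gen k G (Gen.g x) from
      (canon k G).ck2 a h, tw_sum]
    rfl
  one := by
    rw [← tw_sum, show ∑ a, gen k G (Gen.v a) = 1 from (canon k G).one, tw_one]

/-- The involution of L_k(G) as a function. -/
noncomputable def lstar (y : LPA k G) : LPA k G := untw (ofFam k G (twFam k G) y)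

lemma lstar_add (x y : LPA k G) : lstar k G (x + y) = lstar k G x + lstar k G y := by
  rw [lstar, map_add]; rfl

lemma lstar_mul (x y : LPA k G) : lstar k G (x * y) = lstar k G y * lstar k G x := by
  rw [lstar, map_mul]; rfl

lemma lstar_smul (c : k) (x : LPA k G) : lstar k G (c • x) = star c • lstar k G x := by
  rw [lstar, map_smul]
  exact congrArg untw (tw_smul k c (lstar k G x))

lemma lstar_gen (y : Gen V E) : lstar k G (gen k G y) = match y with
    | Gen.v a => gen k G (Gen.v a)
    | Gen.e x => gen k G (Gen.g x)
    | Gen.g x => gen k G (Gen.e x) := by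
  rw [lstar, ofFam_gen]
  cases y <;> rfl

lemma lstar_lstar (y : LPA k G) : lstar k G (lstar k G y) = y := by
  have h0 : lstar k G 0 = 0 := by
    have := lstar_add k G 0 0
    rw [add_zero] at this
    exact left_eq_add.mp this
  have hmem : y ∈ Algebra.adjoin k (Set.range (canon k G).v ∪ Set.range (canon k G).e ∪
      Set.range (canon k G).g) := by
    rw [show Algebra.adjoin k (Set.range (canon k G).v ∪ Set.range (canon k G).e ∪
      Set.range (canon k G).g) = ⊤ from canon_gens k G]
    trivial
  have h1 : lstar k G 1 = 1 := by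
    rw [lstar, map_one]
    rfl
  induction hmem using Algebra.adjoin_induction with
  | mem x hx =>
    rcases hx with (⟨a, rfl⟩ | ⟨a, rfl⟩) | ⟨a, rfl⟩
    · change lstar k G (lstar k G (gen k G (Gen.v a))) = gen k G (Gen.v a)
      rw [lstar_gen]; exact lstar_gen k G _
    · change lstar k G (lstar k G (gen k G (Gen.e a))) = gen k G (Gen.e a)
      rw [lstar_gen]; exact lstar_gen k G _
    · change lstar k G (lstar k G (gen k G (Gen.g a))) = gen k G (Gen.g a)
      rw [lstar_gen]; exact lstar_gen k G _
  | algebraMap c =>
    rw [Algebra.algebraMap_eq_smul_one, lstar_smul, lstar_smul, h1, h1, star_star]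
  | add x y _ _ hx hy => rw [lstar_add, lstar_add, hx, hy]
  | mul x y _ _ hx hy => rw [lstar_mul, lstar_mul, hx, hy]

/-- L_k(G) is a star ring. -/
noncomputable instance instStarLPA : StarRing (LPA k G) where
  star := lstar k G
  star_involutive := lstar_lstar k G
  star_mul := lstar_mul k G
  star_add := lstar_add k G

instance instStarModLPA : StarModule k (LPA k G) where
  star_smul c y := lstar_smul k G c y

lemma star_gen (y : Gen V E) : star (gen k G y) = match y with
    | Gen.v a => gen k G (Gen.v a)
    | Gen.e x => gen k G (Gen.g x)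
    | Gen.g x => gen k G (Gen.e x) := lstar_gen k G y

end

end Pool.Agent.Helper99.SI
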