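import Pool.Agent.Helper99.SI.StF
import Pool.Agent.Helper99.SI.Star

set_option autoImplicit false

/-!
# Project SI: two families (definitions for the top part)
-/

namespace Pool.Agent.Helper99.SI

open Pool.Agent.Helper92 Pool.Agent.Helper92.LV

/-- The rose with n petals. -/
def rose (n : ℕ) : LV.Graph Unit (Fin n) where
  s _ := ()
  r _ := ()

/-- The adjacency matrix of a graph (real entries). -/
noncomputable def adjm {V E : Type} [Fintype E] [DecidableEq V] (G : LV.Graph V E) :
    Matrix V V ℝ :=
  fun a b => ((Finset.univ.filter fun e : E => G.s e = a ∧ G.r e = b).card : ℝ)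

/-- A complex star algebra with a Cuntz family and a G-family, both with gauge gradings, both
generating and independent. -/
structure Two (n : ℕ) {V E : Type} [Fintype V] [Fintype E] [DecidableEq V] [DecidableEq E]
    (G : LV.Graph V E) (L : Type) [Ring L] [Algebra ℂ L] [StarRing L] where
  /-- the Cuntz family as a family of the rose -/
  fE : Fam ℂ (rose n) L
  Eg : ∀ i, fE.g i = star (fE.e i)
  Egen : fE.Gens
  Eind : fE.Indep
  /-- its gauge grading -/
  g : ZGr L
  ge : ∀ i, g.p 1 (fE.e i) = fE.e i
  /-- the G-family -/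
  f : Fam ℂ G L
  fg : ∀ x, f.g x = star (f.e x)
  fv : ∀ a, star (f.v a) = f.v a
  fgen : f.Gens
  find : f.Indep
  /-- its gauge grading -/
  b : ZGr L
  bv : ∀ a, b.p 0 (f.v a) = f.v a
  be : ∀ x, b.p 1 (f.e x) = f.e x

section

variable {n : ℕ} {V E : Type} [Fintype V] [Fintype E] [DecidableEq V] [DecidableEq E]
    {G : LV.Graph V E} {L : Type} [Ring L] [Algebra ℂ L] [StarRing L]

/-- PhiG(y) = sum of f_e^* y f_e. -/
noncomputable def Two.PhiG (T : Two n G L) : L →ₗ[ℂ] L :=
  ∑ x, (LinearMap.mulLeft ℂ (star (T.f.e x))) ∘ₗ (LinearMap.mulRight ℂ (T.f.e x))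

end

end Pool.Agent.Helper99.SI
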