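import Pool.Agent.Helper99.SI.Defs5

set_option autoImplicit false

/-!
# Project SI: the top part (statements with complete proofs)

x_i = T.fE.e i, words wd T.fE.e μ, S = their span; G-family T.f, paths T.f.pe p (Pa G).
-/

namespace Pool.Agent.Helper99.SI

open Pool.Agent.Helper92 Pool.Agent.Helper92.LV

/-- T1. The Cuntz family.  PROOF. T.fE.one: v () = 1.  ck1, ck2 (n ≥ 1) with Eg.  Egen: L is generated by 1, x_i, star x_i; the span of wd α * star (wd β) is closed under products (star x_i x_j = δ; or left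
multiplication by x_i and star x_i) and contains 1, x_i, star x_i.  O: pe of a path of the rose with reversed list l is wd (l.reverse).  Level: y = wd α * star (wd β), l = |β|. -/
def StT1 : Prop :=
  ∀ (n : ℕ) (V E : Type) [Fintype V] [Fintype E] [DecidableEq V] [DecidableEq E]
    (G : LV.Graph V E) (L : Type) [Ring L] [Algebra ℂ L] [StarRing L] [StarModule ℂ L]
    (T : Two n G L), 1 ≤ n →
    T.fE.v () = 1 ∧ (∀ i j, star (T.fE.e i) * T.fE.e j = if i = j then 1 else 0) ∧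
    (∑ i, T.fE.e i * star (T.fE.e i) = 1) ∧
    (∀ y : L, y ∈ Submodule.span ℂ
      (Set.range fun q : W n × W n => wd T.fE.e q.1 * star (wd T.fE.e q.2))) ∧
    T.fE.O = Submodule.span ℂ (Set.range (wd T.fE.e)) ∧
    (∀ y : L, ∃ l : ℕ, ∀ κ : W n, l ≤ κ.length →
      y * wd T.fE.e κ ∈ Submodule.span ℂ (Set.range (wd T.fE.e))) ∧
    (∀ k : ℕ, ∑ κ : Fin k → Fin n, wd T.fE.e (List.ofFn κ) * star (wd T.fE.e (List.ofFn κ)) = 1)

/-- T2. Bounds.  PROOF. Theorem LV.bounded of helper92 (M4.lean; see its use in Main.lean: exists_div gives δ, hδ, hW) for pairs of generating independent families: (a) fE, f; (b) f, fE; (c) fE and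
fE.map (ev z), where ev z (T.b) is an algebra automorphism of L for z ≠ 0 (StA0), so the mapped family is generating and independent (map_gens, map_indep).  The rose with n ≥ 2 petals is strongly connected
and TwoOut. -/
def StT2 : Prop :=
  ∀ (n : ℕ) (V E : Type) [Fintype V] [Fintype E] [DecidableEq V] [DecidableEq E]
    (G : LV.Graph V E) (L : Type) [Ring L] [Algebra ℂ L] [StarRing L] [StarModule ℂ L]
    (T : Two n G L), 2 ≤ n → G.StronglyConnected → G.TwoOut →
    (∃ m : ℕ, ∀ s ∈ T.f.O, ∀ κ : W n, m ≤ κ.length →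
      s * wd T.fE.e κ ∈ Submodule.span ℂ (Set.range (wd T.fE.e))) ∧
    (∃ m : ℕ, ∀ (μ : W n) (p : Pa G), m ≤ p.len → wd T.fE.e μ * T.f.pe p ∈ T.f.O) ∧
    (∀ z : ℂ, z ≠ 0 → ∃ m : ℕ, ∀ μ κ : W n, m ≤ κ.length →
      T.b.ev z (wd T.fE.e μ) * wd T.fE.e κ ∈ Submodule.span ℂ (Set.range (wd T.fE.e)))

/-- T3. The uniform bound UL.  PROOF. ℂ \ {0} is uncountable and the union over m of {z : the bound (c) of T2 holds with m}; so for some m0 this set is infinite.  For words μ, κ with |κ| ≥ m0: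
∑_j z^j p_j(wd μ) * wd κ ∈ S for infinitely many z; modulo S this is a Laurent polynomial with coefficients in L/S vanishing at infinitely many points, so all coefficients p_j(wd μ) * wd κ are in S. -/
def StT3 : Prop :=
  ∀ (n : ℕ) (V E : Type) [Fintype V] [Fintype E] [DecidableEq V] [DecidableEq E]
    (G : LV.Graph V E) (L : Type) [Ring L] [Algebra ℂ L] [StarRing L] [StarModule ℂ L]
    (T : Two n G L), 2 ≤ n → G.StronglyConnected → G.TwoOut →
    ∃ m0 : ℕ, ∀ (μ κ : W n) (j : ℤ), m0 ≤ κ.length →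
      T.b.p j (wd T.fE.e μ) * wd T.fE.e κ ∈ Submodule.span ℂ (Set.range (wd T.fE.e))

/-- T4. Paths of G.  PROOF. Induction on k from ck2 (every vertex emits an edge), ck1: sums over the finite set of paths of length k: ∑_p pe p * star (pe p) = 1.  pe p has b-degree p.len (bv, be, StA0), star (pe p) has
degree - p.len.  So elements of T.f.O have only degrees ≥ 0. -/
def StT4 : Prop :=
  ∀ (n : ℕ) (V E : Type) [Fintype V] [Fintype E] [DecidableEq V] [DecidableEq E]
    (G : LV.Graph V E) (L : Type) [Ring L] [Algebra ℂ L] [StarRing L] [StarModule ℂ L]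
    (T : Two n G L), (∀ a : V, ∃ x : E, G.s x = a) →
    (∀ k : ℕ, ∃ Q : Finset (Pa G), (∀ p ∈ Q, p.len = k) ∧ ∑ p ∈ Q, T.f.pe p * star (T.f.pe p) = 1) ∧
    (∀ (p : Pa G) (j : ℤ), T.b.p j (T.f.pe p) = if j = p.len then T.f.pe p else 0) ∧
    (∀ s ∈ T.f.O, ∀ j < (0 : ℤ), T.b.p j s = 0)

/-- T5. G1.  PROOF. Let m be as in T2(b).  (LB) for every word μ: wd μ = ∑_{p ∈ Q_m} (wd μ * pe p) * star (pe p) with wd μ * pe p ∈ T.f.O, so the components of degree < -m vanish; the same for all s ∈ S.  Given j let J ≥ 0, J ≥ j + m, and k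
such that star (pe p) * wd μ ∈ S for all p ∈ Q_J and |μ| ≥ k (level of the finitely many star (pe p), T1).  Then wd μ = ∑_{p ∈ Q_J} pe p * (star (pe p) * wd μ) has only components of degree ≥ J - m ≥ j. -/
def StT5 : Prop :=
  ∀ (n : ℕ) (V E : Type) [Fintype V] [Fintype E] [DecidableEq V] [DecidableEq E]
    (G : LV.Graph V E) (L : Type) [Ring L] [Algebra ℂ L] [StarRing L] [StarModule ℂ L]
    (T : Two n G L), 2 ≤ n → G.StronglyConnected → G.TwoOut →
    ∀ j : ℤ, ∃ k : ℕ, ∀ μ : W n, k ≤ μ.length → ∀ i < j, T.b.p i (wd T.fE.e μ) = 0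

/-- T6. G2.  PROOF. Let m0 be as in T3.  (1) For s ∈ S and all i, b.p i s = ∑_{|κ|=m0} (b.p i s * wd κ) * star (wd κ), b.p i s * wd κ ∈ S, so b.p i s has gauge components only in degrees ≥ -m0.  (2) Given j let J ≥ 0, J ≥ j + m0.  For |κ| = J
and a = star (wd κ): a * b.p i (wd μ) = ∑_l b.p l a * b.p i (wd μ) = ∑_l b.p (i + l) (b.p l a * wd μ), and b.p l a * wd μ ∈ S for |μ| ≥ k (levels of the finitely many b.p l a); by (1) it has gauge degrees ≥ -m0.
b.p i (wd μ) = ∑_{|κ|=J} wd κ * (star (wd κ) * b.p i (wd μ)) has gauge degrees ≥ J - m0 ≥ j.  (Gauge degrees of words: T.ge, T.g.st, T.g.mul.) -/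
def StT6 : Prop :=
  ∀ (n : ℕ) (V E : Type) [Fintype V] [Fintype E] [DecidableEq V] [DecidableEq E]
    (G : LV.Graph V E) (L : Type) [Ring L] [Algebra ℂ L] [StarRing L] [StarModule ℂ L]
    (T : Two n G L), 2 ≤ n → G.StronglyConnected → G.TwoOut →
    ∀ j : ℤ, ∃ k : ℕ, ∀ μ : W n, k ≤ μ.length → ∀ i l : ℤ, l < j →
      T.g.p l (T.b.p i (wd T.fE.e μ)) = 0

/-- T7. The system.  PROOF. Collect T1, T3, T5, T6. -/
def StT7 : Prop :=
  ∀ (n : ℕ) (V E : Type) [Fintype V] [Fintype E] [DecidableEq V] [DecidableEq E]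
    (G : LV.Graph V E) (L : Type) [Ring L] [Algebra ℂ L] [StarRing L] [StarModule ℂ L]
    (T : Two n G L), 2 ≤ n → G.StronglyConnected → G.TwoOut →
    ∃ D : Sys n L, D.x = T.fE.e ∧ D.g = T.g ∧ D.b = T.b

/-- T8. The gauge grading of a Leavitt path algebra.  PROOF. The family v a ↦ C(v a), e ↦ C(e) T, g ↦ C(g) T^(-1) in the Laurent polynomials over L = LPA ℂ G (a ℂ-algebra) gives by ofFam an algebra homomorphism
κ : L → L[T,T⁻¹]; p j y = coefficient j of κ y.  fin: clear.  sum: evaluation at T = 1 composed with κ is the identity (generators).  pp: coassociativity, check that y ↦ p i (p j y) = δ_ij p j y on monomials in the generators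
(each monomial is homogeneous: κ y = C y T^d), these span L.  mul, one: on monomials.  st: the star of a homogeneous monomial of degree d is homogeneous of degree -d.  (It may be easier to define everything from the statement:
L is spanned by homogeneous elements y, κ y = C y T^d.) -/
def StT8 : Prop :=
  ∀ (V E : Type) [Fintype V] [Fintype E] [DecidableEq V] [DecidableEq E] (G : LV.Graph V E),
    ∃ B : ZGr (LPA ℂ G), (∀ a, B.p 0 (gen ℂ G (Gen.v a)) = gen ℂ G (Gen.v a)) ∧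
      (∀ x, B.p 1 (gen ℂ G (Gen.e x)) = gen ℂ G (Gen.e x))

/-- T9. Two families from a star isomorphism.  PROOF. L = LPA ℂ (rose n), fE = canon, g from T8 for the rose, f = (canon G).map φ.symm, b.p j = φ.symm ∘ p_j ∘ φ with p_j from T8 for G (φ commutes with star, so b.st holds).  canon_gens,
canon_indep (every vertex emits an edge), map_gens, map_indep.  Nontrivial: independence of the (nonempty) family of paths. -/
def StT9 : Prop :=
  ∀ (n : ℕ) (V E : Type) [Fintype V] [Fintype E] [DecidableEq V] [DecidableEq E]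
    (G : LV.Graph V E), 1 ≤ n → (∀ a : V, ∃ x : E, G.s x = a) →
    ∀ φ : LPA ℂ (rose n) ≃ₐ[ℂ] LPA ℂ G, (∀ y, φ (star y) = star (φ y)) →
    Nontrivial (LPA ℂ (rose n)) ∧ Nonempty (Two n G (LPA ℂ (rose n)))

/-- E0. Bijectivity.  PROOF. X = range P ⊕ ker P, both stable under Φ.  On range P the map y ↦ y - r Φ (y - P y) is the identity; on ker P it is 1 - r Φ.  x ∈ ker P, Φ^(k+j) x = Φ^k x, j ≥ 1.  Injective: x = r Φ x gives x = r^k Φ^k x,
w = Φ^k x = r^j Φ^j w = r^j w, so w = 0, x = 0.  Surjective: w = Φ^k x, w = Φ^j w; x' = ∑_{i<k} r^i Φ^i x + r^k (1 - r^j)⁻¹ ∑_{i<j} r^i Φ^i w solves x' - r Φ x' = x. -/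
def StE0 : Prop :=
  ∀ (X : Type) [AddCommGroup X] [Module ℂ X] (Φ P : X →ₗ[ℂ] X) (r : ℝ), 0 ≤ r → r < 1 →
    (∀ x, P (P x) = P x) → (∀ x, P (Φ x) = Φ (P x)) →
    (∀ x, P x = 0 → ∃ k j : ℕ, 1 ≤ j ∧ (Φ ^ (k + j)) x = (Φ ^ k) x) →
    Function.Bijective (fun x : X => x - (r : ℂ) • Φ (x - P x))

/-- E1. The edge t = 1.  PROOF. Φ = D.Phi 1 (y ↦ ∑ star x_i y x_i).  On monomials w α * star (w β) (A8, A1): Φ^k is, for k ≥ |β| and |α| > |β|, a word of length |α| - |β| or 0, and Φ rotates words; similarly for |α| < |β| (ghost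
words); for |α| = |β| ≤ k it is δ_{αβ} n^(k-|α|) • 1.  Define τ y = n^(-k) (coefficient at [] of cf (Φ^k (g.p 0 y))) for k large (eventually constant: Φ^k(g.p 0 y) = c_k • 1 and c_(k+1) = n c_k), linear; τ(w α star (w α)) = n^(-|α|).
τ (Φ y) = n τ y, τ 1 = 1, τ(word) = 0.  P y = τ y • 1 commutes with Φ (Φ 1 = n • 1).  If τ y = 0: Φ^k y is for k large a combination of words and ghost words of positive length (degree 0 part: n^k τ y • 1 = 0), which are
permuted by Φ with periods dividing their lengths: Φ^(k+j) y = Φ^k y for j = product of the occurring lengths.  E0 with r = s: y - s Φ(y - τ y 1) = y - s Φ y + s n τ y • 1. -/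
def StE1 : Prop :=
  ∀ (n : ℕ) (L : Type) [Ring L] [Algebra ℂ L] [StarRing L] [StarModule ℂ L] [Nontrivial L]
    (D : Sys n L), EEdge D

/-- E2. The projection of the G-family.  PROOF. Φ = T.PhiG.  Monomials pe p * star (pe q) (with the same range) span L (fgen).  With f_a = v a: Φ (v a) = ∑_{s(x)=a} v (r x) = ∑_b A a b v b (ck1).  For k ≥ q.len: Φ^k (pe p * star (pe q)) =
∑_{|κ|=k} star (pe κ) pe p star (pe q) pe κ: only κ = q κ' contribute, so it is Φ^(k - |q|)(star (pe q) * pe p); for p.len = q.len it is δ_{pq} Φ^(k-|q|) (v (range)) ∈ Q0 = span of the v a; for p.len > q.len star (pe q) * pe p is a path c or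
0, and Φ c = c' f if c = f c' is closed (rotation), 0 if c is not closed; dually for p.len < q.len.  The v a are linearly independent (find: trivial paths).  For y let y0 = b.p 0 y; for k large Φ^k y0 = ∑ c_a v a; put p y = c ᵥ* (A⁻¹)^k
(independent of k: Φ acts on coordinate rows by c ↦ c ᵥ* A).  Linear; p (v a) = e_a; p (Φ y) = p y ᵥ* A (Φ preserves degrees); p (b.p j y) = 0 for j ≠ 0.  If p y = 0: Φ^k y0 = 0 for large k, and the other components are eventually combinations of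
closed paths and ghosts of closed paths of positive length, permuted by Φ. -/
def StE2 : Prop :=
  ∀ (n : ℕ) (V E : Type) [Fintype V] [Fintype E] [DecidableEq V] [DecidableEq E]
    (G : LV.Graph V E) (L : Type) [Ring L] [Algebra ℂ L] [StarRing L] [StarModule ℂ L]
    (T : Two n G L), (∀ a : V, ∃ x : E, G.s x = a) → (adjm G).det ≠ 0 →
    ∃ p : L →ₗ[ℂ] (V → ℂ), (∀ a, p (T.f.v a) = Pi.single a 1) ∧
      (∀ (j : ℤ) (y : L), j ≠ 0 → p (T.b.p j y) = 0) ∧
      (∀ (y : L) (b : V), p (T.PhiG y) b = ∑ a, p y a * (adjm G a b : ℂ)) ∧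
      (∀ a, T.PhiG (T.f.v a) = ∑ b, (adjm G a b : ℂ) • T.f.v b) ∧
      (∀ y : L, p y = 0 → ∃ k j : ℕ, 1 ≤ j ∧ (T.PhiG ^ (k + j)) y = (T.PhiG ^ k) y)

/-- E3. The bimodule of differentials.  PROOF. In L ⊗ L (TensorProduct ℂ L L) write u ↦ a u b for the outer bimodule structure, ξE = 1⊗1 - ∑ x_i ⊗ star x_i, ξG = 1⊗1 - ∑ f ⊗ star f (f = T.f.e x).  (1) δ y = 1⊗y - y⊗1 lies in L ξG L = {∑ a_i ξG b_i}:
the set of such y is a subalgebra (δ(yz) = δ(y) z + y δ(z)) containing v a: ξG v - v ξG = δ v (as v f, f^* v are f, f^* or 0); f: ξG f = 1⊗f - f⊗r(f), r(f) = v(range), so δ f = ξG f - f ξG + f ξG r(f); f^*: δ f^* = ξG f^* - f^* ξG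
- r(f) ξG f^* (r(f) ξG f^* = r(f)⊗f^* - ∑ r(f) f'⊗f'^* f^* and f^* ξG = f^*⊗1 - r(f)⊗f^*, please recheck signs; one only needs membership: f^*⊗1 = f^* ξG + r(f)⊗f^* and r(f)⊗f^* = ... ).  Equivalently use ck relations: f^*⊗1 - 1⊗f^* ∈ L ξG L follows
from f^* δ(f) f^* and δ(r(f)): δ(f^* f f^*) = δ(f^*) f f^* + f^* δ(f) f^* + f^* f δ(f^*).  Then ξE = 1⊗1 - ∑ x_i⊗x_i^* = - ∑ x_i δ(x_i^*) (as ∑ x_i x_i^* = 1), so ξE = ∑ a_i ξG b_i; in the same way ξG = ∑ a'_i ξE b'_i.  (2) The map p⊗q ↦ p ξG q is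
injective on L⊗L: if u = ∑ p⊗q and ∑ p ξG q = 0 then u = ∑_f u(f⊗f^*) := ∑ p f⊗f^* q; apply the b-degree of the left factor: u_(d) = ∑_f u_(d-1)(f⊗f^*), u has finitely many left degrees, the lowest one vanishes; so u = 0.  Same for
ξE with the gauge degree.  (3) ξE = ∑_i a_i ξG b_i = ∑_{ij} a_i a'_j ξE b'_j b_i, so by (2) ∑_{ij} a_i a'_j ⊗ b'_j b_i = 1⊗1; symmetric: ∑ a'_j a_i ⊗ b_i b'_j = 1⊗1.  (4) For fixed y and g = b.ev t (an algebra automorphism, t ≠ 0) let
Θ : L⊗L → L, p⊗q ↦ q y g(p).  Θ(∑ a_i a'_j ⊗ b'_j b_i) = ∑ b'_j (b_i y g(a_i)) g(a'_j) = h'(h y), so h' h = 1, and h h' = 1.  Θ(ξE) = y - ∑ x_i^* y g(x_i) = y - Phi_t y.  Θ(∑ a_i ξG b_i) = ∑ b_i y g(a_i) - ∑_i ∑_f f^* b_i y g(a_i) g(f) =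
h y - ∑_f f^* (h y) g(f), and g(f) = t f. -/
def StE3 : Prop :=
  ∀ (n : ℕ) (V E : Type) [Fintype V] [Fintype E] [DecidableEq V] [DecidableEq E]
    (G : LV.Graph V E) (L : Type) [Ring L] [Algebra ℂ L] [StarRing L] [StarModule ℂ L]
    (T : Two n G L), 1 ≤ n → (∀ a : V, ∃ x : E, G.s x = a) →
    ∃ (m m' : ℕ) (a b : Fin m → L) (a' b' : Fin m' → L), ∀ (t : ℂ) (y : L), t ≠ 0 →
      (∑ i, b' i * (∑ l, b l * y * T.b.ev t (a l)) * T.b.ev t (a' i) = y) ∧
      (∑ i, b i * (∑ l, b' l * y * T.b.ev t (a' l)) * T.b.ev t (a i) = y) ∧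
      y - ∑ i, star (T.fE.e i) * y * T.b.ev t (T.fE.e i) =
        (∑ l, b l * y * T.b.ev t (a l)) - t • T.PhiG (∑ l, b l * y * T.b.ev t (a l))

/-- E4. The edge s = 1.  PROOF. h_t y = ∑ b_l y ev t (a_l) (E3), P y = ∑_a p(y)_a v a (E2), Φ = T.PhiG: P P = P, P Φ = Φ P (E2).  v = T.f.v, lam t a y = t ∑_c p(h_t y)_c A c a.  Then y - Phi_t y + ∑ lam t a y • v a = (h y - t Φ(h y)) + t Φ(P (h y)) =
F(h y), F(y') = y' - t Φ(y' - P y'), bijective by E0, h_t bijective by E3.  If F(h y) = v b then h y = v b (F(v b) = v b), so lam t a y = t A b a.  Continuity: ev t (a_l) = ∑_j t^j (a_l)_(j).  Support: for |ν| ≥ l all components of w ν have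
b-degree ≥ d (G1), d larger than minus all degrees of the b_l and a_l: h_t(ev t (w ν)) has only degrees > 0, p vanishes on it (p y = p (b.p 0 y)); for star (w ν) only degrees < 0. -/
def StE4 : Prop :=
  ∀ (n : ℕ) (V E : Type) [Fintype V] [Fintype E] [DecidableEq V] [DecidableEq E]
    (G : LV.Graph V E) (L : Type) [Ring L] [Algebra ℂ L] [StarRing L] [StarModule ℂ L]
    [Nontrivial L] (T : Two n G L) (D : Sys n L) (X0 : Set L), 1 ≤ n →
    (∀ a : V, ∃ x : E, G.s x = a) → (adjm G).det ≠ 0 → D.x = T.fE.e → D.b = T.b →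
    (∀ a, T.f.v a ∈ X0) → GEdge D X0 (adjm G)

end Pool.Agent.Helper99.SI
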