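import Pool.Agent.Helper80.SI.NearAll
import Pool.Agent.Helper99.SI.Defs5
import Pool.Agent.Helper99.SI.StT
import Pool.Agent.Helper91.SI.M_S8
import Pool.Agent.Helper6.SI.M_S1
import Pool.Agent.Helper72.SI.M_S2
import Pool.Agent.Helper16.SI.M_S3
import Pool.Agent.Helper78.SI.M_S5
import Pool.Agent.Helper60.SI.M_S6
import Pool.Agent.Helper82.SI.M_F0
import Pool.Agent.Helper79.SI.M_F2
import Pool.Agent.Helper91.SI.M_F4
import Pool.Agent.Helper60.SI.M_F6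
import Pool.Agent.Helper4.SI.M_A0
import Pool.Agent.Helper98.SI.M_A1
import Pool.Agent.Helper48.SI.M_S4
import Pool.Agent.Helper42.SI.M_S7
import Pool.Agent.Helper82.SI.M_F1
import Pool.Agent.Helper90.SI.M_F5
import Pool.Agent.Helper48.SI.M_F7
import Pool.Agent.Helper93.SI.M_F8
import Pool.Agent.Helper80.SI.M_F9
import Pool.Agent.Helper39.SI.M_A2
import Pool.Agent.Helper2.SI.M_A3
import Pool.Agent.Helper2.SI.M_A4
import Pool.Agent.Helper76.SI.M_A7
import Pool.Agent.Helper29.SI.M_D1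
import Pool.Agent.Helper82.SI.M_D2
import Pool.Agent.Helper41.SI.M_D3
import Pool.Agent.Helper82.SI.M_D4
import Pool.Agent.Helper80.SI.M_A6
import Pool.Agent.Helper60.SI.M_D5
import Pool.Agent.Helper3.SI.M_D6
import Pool.Agent.Helper6.SI.M_D7
import Pool.Agent.Helper12.SI.M_D8
import Pool.Agent.Helper74.SI.M_D9
import Pool.Agent.Helper64.SI.M_D10
import Pool.Agent.Helper74.SI.M_D11
import Pool.Agent.Helper69.SI.M_B2
import Pool.Agent.Helper69.SI.M_B3
import Pool.Agent.Helper79.SI.M_B1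
import Pool.Agent.Helper4.SI.M_B4
import Pool.Agent.Helper42.SI.M_B5
import Pool.Agent.Helper84.SI.M_B6
import Pool.Agent.Helper90.SI.M_B7
import Pool.Agent.Helper92.SI.M_K1
import Pool.Agent.Helper82.SI.M_K2
import Pool.Agent.Helper82.SI.M_K3
import Pool.Agent.Helper80.SI.M_K5
import Pool.Agent.Helper90.SI.M_A5
import Pool.Agent.Helper79.SI.M_K4
import Pool.Agent.Helper72.SI.M_K6
import Pool.Agent.Helper13.SI.M_K7
import Pool.Agent.Helper89.SI.M_K15
import Pool.Agent.Helper16.SI.M_M0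
import Pool.Agent.Helper69.SI.M_M1
import Pool.Agent.Helper69.SI.M_M3
import Pool.Agent.Helper60.SI.M_M4
import Pool.Agent.Helper4.SI.M_K8
import Pool.Agent.Helper57.SI.M_K9
import Pool.Agent.Helper41.SI.M_K10
import Pool.Agent.Helper84.SI.M_K11
import Pool.Agent.Helper27.SI.M_K12
import Pool.Agent.Helper90.SI.M_K13
import Pool.Agent.Helper16.SI.M_K14
import Pool.Agent.Helper27.SI.M_K16
import Pool.Agent.Helper41.SI.M_A8
import Pool.Agent.Helper47.SI.M_M2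
import Pool.Agent.Helper42.SI.M_M5
import Pool.Agent.Helper41.SI.M_M6
import Pool.Agent.Helper40.SI.M_M7
import Pool.Agent.Helper2.SI.M_M9
import Pool.Agent.Helper28.SI.M_M10
import Pool.Agent.Helper6.SI.M_M11
import Pool.Agent.Helper92.SI.M_M8
import Pool.Agent.Helper2.SI.M_M12
import Pool.Agent.Helper84.SI.M_M13
import Pool.Agent.Helper76.SI.M_M14
import Pool.Agent.Helper80.SI.M_T1
import Pool.Agent.Helper40.SI.M_T2
import Pool.Agent.Helper72.SI.M_T3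
import Pool.Agent.Helper84.SI.M_T4
import Pool.Agent.Helper60.SI.M_T5
import Pool.Agent.Helper18.SI.M_T6
import Pool.Agent.Helper79.SI.M_T7
import Pool.Agent.Helper85.SI.M_T8
import Pool.Agent.Helper48.SI.M_T9
import Pool.Agent.Helper69.SI.M_E0
import Pool.Agent.Helper69.SI.M_E1
import Pool.Agent.Helper51.SI.M_E2
import Pool.Agent.Helper24.SI.M_E3
import Pool.Agent.Helper42.SI.M_E4

set_option autoImplicit false

/-!
# Project SI: assembly of the modules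
-/

namespace Pool.Agent.Helper99.SI

open Pool.Agent

/-- All modules: the sign theorem, operator packages, small t, the corner, the model, the system,
the two families, and the two edges. -/
theorem chain  : StF9 ∧ StD11 ∧ StB7 ∧ Helper80.SI.StNEAR ∧ StM14 ∧ StT7 ∧
    StT9 ∧ StE1 ∧ StE4 := by
  have s8 : StS8 := Helper91.SI.hS8
  have s1 : StS1 := Helper6.SI.hS1
  have s2 : StS2 := Helper72.SI.hS2
  have s3 : StS3 := Helper16.SI.hS3
  have s5 : StS5 := Helper78.SI.hS5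
  have s6 : StS6 := Helper60.SI.hS6
  have f0 : StF0 := Helper82.SI.hF0
  have f2 : StF2 := Helper79.SI.hF2
  have f4 : StF4 := Helper91.SI.hF4 s1 s2 s3 s5 s6 f0 f2
  have f6 : StF6 := Helper60.SI.hF6
  have a0 : StA0 := Helper4.SI.hA0
  have a1 : StA1 := Helper98.SI.hA1
  have s4 : StS4 := Helper48.SI.hS4 s1
  have s7 : StS7 := Helper42.SI.hS7
  have f1 : StF1 := Helper82.SI.hF1
  have f5 : StF5 := Helper90.SI.hF5 s1 s2 s4 s7 f0 f1
  have f7 : StF7 := Helper48.SI.hF7 a0 a1 f5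
  have f8 : StF8 := Helper93.SI.hF8 a0 f5
  have f9 : StF9 := Helper80.SI.hF9 s8 f4 f6 f7 f8
  have a2 : StA2 := Helper39.SI.hA2
  have a3 : StA3 := Helper2.SI.hA3 a1 a2
  have a4 : StA4 := Helper2.SI.hA4 a1 a3
  have a7 : StA7 := Helper76.SI.hA7 a0 a1
  have d1 : StD1 := Helper29.SI.hD1
  have d2 : StD2 := Helper82.SI.hD2 a1 a3 a4
  have d3 : StD3 := Helper41.SI.hD3 a1 a3 d1 d2
  have d4 : StD4 := Helper82.SI.hD4 a0 a1 a3 d1 d2
  have a6 : StA6 := Helper80.SI.hA6 a1 a2 a3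
  have d5 : StD5 := Helper60.SI.hD5 a0 a1 a3 a6
  have d6 : StD6 := Helper3.SI.hD6 a0 a1 a3 d5
  have d7 : StD7 := Helper6.SI.hD7 a0 a1 a3 d6
  have d8 : StD8 := Helper12.SI.hD8 a0 a1 a3
  have d9 : StD9 := Helper74.SI.hD9
  have d10 : StD10 := Helper64.SI.hD10
  have d11 : StD11 := Helper74.SI.hD11 a4 a7 d3 d4 d7 d8 d9 d10
  have b2 : StB2 := Helper69.SI.hB2 a0 a1
  have b3 : StB3 := Helper69.SI.hB3 a0 a7 b2
  have b1 : StB1 := Helper79.SI.hB1 a1 a3 a4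
  have b4 : StB4 := Helper4.SI.hB4 a0 a1 a7 b3
  have b5 : StB5 := Helper42.SI.hB5 a7 b1 b3 b4
  have b6 : StB6 := Helper84.SI.hB6 a2 a3 a7
  have b7 : StB7 := Helper90.SI.hB7 a0 a7 b3 b5 b6
  have k1 : StK1 := Helper92.SI.hK1 a1 a3
  have k2 : StK2 := Helper82.SI.hK2 k1
  have k3 : StK3 := Helper82.SI.hK3 a1 a2 k2
  have k5 : StK5 := Helper80.SI.hK5 a4 a6
  have a5 : StA5 := Helper90.SI.hA5 a1 a2 a3
  have k4 : StK4 := Helper79.SI.hK4
  have k6 : StK6 := Helper72.SI.hK6 a0 a3 a5 k4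
  have k7 : StK7 := Helper13.SI.hK7 a0 k2 k5 k6
  have k15 : StK15 := Helper89.SI.hK15 k2
  have m0 : StM0 := Helper16.SI.hM0 a0
  have m1 : StM1 := Helper69.SI.hM1
  have m3 : StM3 := Helper69.SI.hM3 a0 a1 a3 a4 a5 m0 m1
  have m4 : StM4 := Helper60.SI.hM4 m0 m3
  have k8 : StK8 := Helper4.SI.hK8 a0 a3 m4
  have k9 : StK9 := Helper57.SI.hK9 a0 a1 a4 k2 k4 k5 k8
  have k10 : StK10 := Helper41.SI.hK10 a0 a1 a3 a5
  have k11 : StK11 := Helper84.SI.hK11
  have k12 : StK12 := Helper27.SI.hK12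
  have k13 : StK13 := Helper90.SI.hK13 a0 a2 a3 a5 k2 k3 k10 k11 k12
  have k14 : StK14 := Helper16.SI.hK14 a0 a1 k2 k3 k7
  have k16 : StK16 := Helper27.SI.hK16 a0 k2 k9 k13 k14 k15
  have a8 : StA8 := Helper41.SI.hA8 a0 a1
  have m2 : StM2 := Helper47.SI.hM2
  have m5 : StM5 := Helper42.SI.hM5 a0 a3 m0 m1
  have m6 : StM6 := Helper41.SI.hM6 m2 m3 m5
  have m7 : StM7 := Helper40.SI.hM7 a0 m0
  have m9 : StM9 := Helper2.SI.hM9 a3 a5 m0 m7
  have m10 : StM10 := Helper28.SI.hM10 a3 a4 a5 m0 m7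
  have m11 : StM11 := Helper6.SI.hM11 m0 m7
  have m8 : StM8 := Helper92.SI.hM8 a0 a1 a3 a4 m0 m1 m7
  have m12 : StM12 := Helper2.SI.hM12 m0 m7 m8 m11
  have m13 : StM13 := Helper84.SI.hM13 m0 m7 m11
  have m14 : StM14 := Helper76.SI.hM14 a3 a4 a5 m0 m6 m7 m9 m10 m11 m12 m13
  have t1 : StT1 := Helper80.SI.hT1
  have t2 : StT2 := Helper40.SI.hT2 a0
  have t3 : StT3 := Helper72.SI.hT3 a0 t2
  have t4 : StT4 := Helper84.SI.hT4 a0
  have t5 : StT5 := Helper60.SI.hT5 a0 t1 t2 t4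
  have t6 : StT6 := Helper18.SI.hT6 a0 t1 t3
  have t7 : StT7 := Helper79.SI.hT7 t1 t3 t5 t6
  have t8 : StT8 := Helper85.SI.hT8
  have t9 : StT9 := Helper48.SI.hT9 t8
  have e0 : StE0 := Helper69.SI.hE0
  have e1 : StE1 := Helper69.SI.hE1 a1 a2 a3 a8 e0
  have e2 : StE2 := Helper51.SI.hE2 a0 t4
  have e3 : StE3 := Helper24.SI.hE3 a0 t1
  have e4 : StE4 := Helper42.SI.hE4 a0 e0 e2 e3
  exact ⟨f9, d11, b7, Helper80.SI.nearAll a0 a1 a2 a3 a4 a5 a8 k2 k3 k7 k15 k16, m14, t7, t9,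
    e1, e4⟩

end Pool.Agent.Helper99.SI
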