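import Mathlib

set_option autoImplicit false

/-!
# Project SI (MP_181f94_al): definitions

Complex star algebras with a Cuntz family x_1, ..., x_n and a second grading.
-/

namespace Pool.Agent.Helper99.SI

/-- Words in n letters. -/
abbrev W (n : ℕ) : Type := List (Fin n)

/-- A ℤ-grading of a complex star algebra, given by its projections p j. -/
structure ZGr (L : Type) [Ring L] [Algebra ℂ L] [StarRing L] where
  /-- projection onto degree j -/
  p : ℤ → L →ₗ[ℂ] L
  fin : ∀ y, {j : ℤ | p j y ≠ 0}.Finite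
  sum : ∀ y, ∑ᶠ j : ℤ, p j y = y
  pp : ∀ i j y, p i (p j y) = if i = j then p j y else 0
  mul : ∀ i j y z, p (i + j) (p i y * p j z) = p i y * p j z
  one : p 0 1 = 1
  st : ∀ j y, p (-j) (star y) = star (p j y)

namespace ZGr

variable {L : Type} [Ring L] [Algebra ℂ L] [StarRing L] (B : ZGr L)

lemma fin' (c : ℤ → ℂ) (y : L) : (Function.support fun j : ℤ => c j • B.p j y).Finite := by
  refine (B.fin y).subset ?_
  intro j hj h
  apply hj
  change c j • B.p j y = 0
  rw [h, smul_zero]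

/-- y ↦ ∑ c j • y_(j). -/
noncomputable def comb (c : ℤ → ℂ) : L →ₗ[ℂ] L where
  toFun y := ∑ᶠ j : ℤ, c j • B.p j y
  map_add' y z := by
    rw [← finsum_add_distrib (B.fin' c y) (B.fin' c z)]
    simp only [map_add, smul_add]
  map_smul' a y := by
    rw [RingHom.id_apply, smul_finsum' _ (B.fin' c y)]
    refine finsum_congr fun j => ?_
    rw [map_smul, smul_comm]

/-- β_z(y) = ∑ z^j y_(j) (used for z ≠ 0). -/
noncomputable def ev (z : ℂ) : L →ₗ[ℂ] L := B.comb fun j => z ^ j

/-- The derivation D(y) = ∑ j y_(j). -/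
noncomputable def dd : L →ₗ[ℂ] L := B.comb fun j => (j : ℂ)

end ZGr

/-- The product of a word. -/
def wd {n : ℕ} {L : Type} [Ring L] (x : Fin n → L) (μ : W n) : L := (μ.map x).prod

/-- A complex star algebra L with a Cuntz family x (with its gauge grading g) and a second
grading b which is bounded with respect to the words. -/
structure Sys (n : ℕ) (L : Type) [Ring L] [Algebra ℂ L] [StarRing L] where
  /-- the Cuntz family -/
  x : Fin n → L
  orth : ∀ i j, star (x i) * x j = if i = j then 1 else 0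
  comp : ∑ i, x i * star (x i) = 1
  /-- gauge grading of the family x -/
  g : ZGr L
  /-- the second grading -/
  b : ZGr L
  gx : ∀ i, g.p 1 (x i) = x i
  span : ∀ y : L, y ∈ Submodule.span ℂ
    (Set.range fun q : W n × W n => wd x q.1 * star (wd x q.2))
  /-- uniform bound -/
  m0 : ℕ
  UL : ∀ (μ κ : W n) (j : ℤ), m0 ≤ κ.length →
    b.p j (wd x μ) * wd x κ ∈ Submodule.span ℂ (Set.range (wd x))
  G1 : ∀ j : ℤ, ∃ k : ℕ, ∀ μ : W n, k ≤ μ.length → ∀ i < j, b.p i (wd x μ) = 0
  G2 : ∀ j : ℤ, ∃ k : ℕ, ∀ μ : W n, k ≤ μ.length → ∀ i l : ℤ, l < j →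
    g.p l (b.p i (wd x μ)) = 0

namespace Sys

variable {n : ℕ} {L : Type} [Ring L] [Algebra ℂ L] [StarRing L] (D : Sys n L)

/-- The word x_μ. -/
def w (μ : W n) : L := wd D.x μ

/-- The span of the words. -/
def S : Submodule ℂ L := Submodule.span ℂ (Set.range D.w)

/-- The span of the words of length at least k. -/
def Sge (k : ℕ) : Submodule ℂ L := Submodule.span ℂ {y | ∃ μ : W n, k ≤ μ.length ∧ y = D.w μ}

/-- Finitely supported functions on words as elements of L. -/
noncomputable def emb : (W n →₀ ℂ) →ₗ[ℂ] L := Finsupp.linearCombination ℂ D.w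

open Classical in
/-- A linear left inverse of emb (if 1 ≠ 0 in L): the coefficients of the elements of S. -/
noncomputable def cf : L →ₗ[ℂ] (W n →₀ ℂ) :=
  if h : ∃ f : L →ₗ[ℂ] (W n →₀ ℂ), f ∘ₗ D.emb = LinearMap.id then h.choose else 0

/-- Φ_t(y) = ∑ x_i^* y β_t(x_i). -/
noncomputable def Phi (t : ℂ) : L →ₗ[ℂ] L :=
  ∑ i, (LinearMap.mulLeft ℂ (star (D.x i))) ∘ₗ (LinearMap.mulRight ℂ (D.b.ev t (D.x i)))

/-- The inner product of finitely supported functions (linear in the first variable). -/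
noncomputable def ip {ι : Type} (p q : ι →₀ ℂ) : ℂ := p.sum fun i c => c * star (q i)

/-- coefficient sum ∑_{i < |b|} ∑_{|p| = N + i} (coefficient of x_p x_b in y x_p) -/
noncomputable def tauN (N : ℕ) (b : W n) (y : L) : ℂ :=
  ∑ i ∈ Finset.range b.length, ∑ p : Fin (N + i) → Fin n,
    D.cf (y * D.w (List.ofFn p)) (List.ofFn p ++ b)

open Classical in
/-- The trace τ_b on L attached to the word b (for b ≠ []): the eventual value of
tauN N b y. -/
noncomputable def tau (b : W n) (y : L) : ℂ :=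
  if h : ∃ c : ℂ, ∃ N0 : ℕ, ∀ N ≥ N0, D.tauN N b y = c then h.choose else 0

/-- coefficient sum ∑_{i < |b|} ∑_{|p| = N + i} (coefficient of x_p in y x_p x_b) -/
noncomputable def sigN (N : ℕ) (b : W n) (y : L) : ℂ :=
  ∑ i ∈ Finset.range b.length, ∑ p : Fin (N + i) → Fin n,
    D.cf (y * D.w (List.ofFn p ++ b)) (List.ofFn p)

/-- h(u,v) = ∑ u_a conj(v_c) τ_c(x_a) -/
noncomputable def hf (u v : W n →₀ ℂ) : ℂ :=
  u.sum fun a r => v.sum fun c s => r * star s * D.tau c (D.w a)

/-- ∑ u_a conj(v_c) τ_c((x_a)_(j)) -/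
noncomputable def qf (j : ℤ) (u v : W n →₀ ℂ) : ℂ :=
  u.sum fun a r => v.sum fun c s => r * star s * D.tau c (D.b.p j (D.w a))

/-- ∑ u_a conj(v_c) τ_c(D x_a) -/
noncomputable def df (u v : W n →₀ ℂ) : ℂ :=
  u.sum fun a r => v.sum fun c s => r * star s * D.tau c (D.b.dd (D.w a))

end Sys

end Pool.Agent.Helper99.SI
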