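import Pool.Agent.Helper99.SI.Defs2

set_option autoImplicit false

/-!
# Project SI: Laurent polynomials over L, the module Y and the data of the model
-/

namespace Pool.Agent.Helper99.SI

open LaurentPolynomial

/-- The ring of Laurent polynomials over the complex numbers. -/
abbrev AA : Type := LaurentPolynomial ℂ

/-- Laurent polynomials with coefficients in L. -/
abbrev LL (L : Type) [Ring L] : Type := LaurentPolynomial L

section

variable {L : Type} [Ring L] [Algebra ℂ L]

/-- The central embedding of AA. -/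
noncomputable def cen : AA →+* LL L := AddMonoidAlgebra.mapRingHom ℤ (algebraMap ℂ L)

lemma cen_CT (c : ℂ) (j : ℤ) : (cen (C c * T j) : LL L) = C (algebraMap ℂ L c) * T j := by
  rw [cen, ← single_eq_C_mul_T, ← single_eq_C_mul_T]
  ext k
  rw [AddMonoidAlgebra.coeff_mapRingHom, AddMonoidAlgebra.coeff_single,
    AddMonoidAlgebra.coeff_single, Finsupp.single_apply, Finsupp.single_apply]
  split_ifs
  · rfl
  · exact map_zero _

lemma cen_comm (a : AA) (y : LL L) : cen a * y = y * cen a := by
  induction a using LaurentPolynomial.induction_on' with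
  | add p q hp hq => rw [map_add, add_mul, mul_add, hp, hq]
  | C_mul_T j c =>
    rw [cen_CT]
    induction y using LaurentPolynomial.induction_on' with
    | add p q hp hq => rw [mul_add, add_mul, hp, hq]
    | C_mul_T k d =>
      rw [← single_eq_C_mul_T, ← single_eq_C_mul_T, AddMonoidAlgebra.single_mul_single,
        AddMonoidAlgebra.single_mul_single, add_comm, Algebra.commutes]

/-- LL L as an algebra over AA. -/
noncomputable instance instAlgLL : Algebra AA (LL L) := (cen (L := L)).toAlgebra' cen_comm

lemma smul_def' (a : AA) (y : LL L) : a • y = cen a * y := rfl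

/-- Evaluation of a Laurent polynomial over L at t. -/
noncomputable def evl (t : ℂ) (y : LL L) : L := y.coeff.sum fun j c => t ^ j • c

/-- Evaluation of a complex Laurent polynomial at t. -/
noncomputable def evA (t : ℂ) (a : AA) : ℂ := a.coeff.sum fun j c => c * t ^ j

variable [StarRing L]

/-- bt(y) = sum of t^j y_(j). -/
noncomputable def ZGr.bt (B : ZGr L) (y : L) : LL L :=
  AddMonoidAlgebra.ofCoeff (Finsupp.ofSupportFinite (fun j => B.p j y) (B.fin y))

lemma ZGr.bt_coeff (B : ZGr L) (y : L) (j : ℤ) : (B.bt y).coeff j = B.p j y := rfl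

variable {n : ℕ} (D : Sys n L)

/-- PhiL y = sum of x_i^* y bt(x_i), as an AA-linear map. -/
noncomputable def Sys.PhiL : LL L →ₗ[AA] LL L :=
  ∑ i, (LinearMap.mulLeft AA (C (star (D.x i)) : LL L)) ∘ₗ
    (LinearMap.mulRight AA (D.b.bt (D.x i)))

/-- CL(sum t^j y_j) = sum t^j bt(y_j^*). -/
noncomputable def Sys.CL (y : LL L) : LL L := y.coeff.sum fun j c => T j * D.b.bt (star c)

/-- The module Y. -/
noncomputable def Sys.YY (X0 : Set L) : Submodule AA (LL L) :=
  Submodule.span AA {y | ∃ x ∈ X0, ∃ γ q : W n,
    y = C (star (D.w γ)) * C x * D.b.bt (D.w q)}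

/-- The module P + N. -/
noncomputable def Sys.PN (M : ℕ) : Submodule AA (LL L) :=
  Submodule.span AA ({y | ∃ ν : W n, M ≤ ν.length ∧ y = D.b.bt (D.w ν)} ∪
    {y | ∃ ν : W n, M ≤ ν.length ∧ y = C (star (D.w ν))})

/-- Nondummy indices. -/
abbrev Id' (n M r : ℕ) : Type :=
  ({ν : W n // M ≤ ν.length} ⊕ {ν : W n // M ≤ ν.length}) ⊕ Fin r

/-- The embedding of the nondummy indices. -/
def emI {n M r : ℕ} : Id' n M r → Idx n r := Sum.map (Sum.map Subtype.val Subtype.val) id

/-- The standard family bt(w ν), C(star (w ν)), b. -/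
noncomputable def Sys.fam (M : ℕ) {r : ℕ} (b : Fin r → LL L) : Id' n M r → LL L :=
  Sum.elim (Sum.elim (fun ν => D.b.bt (D.w ν.1)) (fun ν => C (star (D.w ν.1)))) b

/-- A basis of Y of the standard form. -/
structure YBas (X0 : Set L) (M r : ℕ) where
  /-- the further basis vectors -/
  b : Fin r → LL L
  /-- the basis -/
  B : Module.Basis (Id' n M r) AA (D.YY X0)
  hB : ∀ i, ((B i : D.YY X0) : LL L) = D.fam M b i

open Classical in
/-- Coordinates of an element of Y (0 if the element is not in Y), coefficient of t^j. -/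
noncomputable def YBas.co {D : Sys n L} {X0 : Set L} {M r : ℕ} (B : YBas D X0 M r) (j : ℤ)
    (y : LL L) : Idx n r →₀ ℂ :=
  if h : y ∈ D.YY X0 then
    ((B.B.repr ⟨y, h⟩).mapRange (fun a : AA => a.coeff j) (by simp)).mapDomain emI
  else 0

open Classical in
/-- The model data attached to a basis of Y. -/
noncomputable def YBas.mk' {D : Sys n L} {X0 : Set L} {M r : ℕ} (B : YBas D X0 M r) (M2 : ℕ)
    (Z : Finset ℤ) : MData n L where
  M := M
  M2 := M2
  r := r
  Z := Z
  bb j a := (B.b a).coeff j
  F j i := if h : ∃ i' : Id' n M r, emI i' = i then B.co j (D.PhiL (D.fam M B.b h.choose)) else 0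
  Cm j a := B.co j (D.CL (B.b a))

end

end Pool.Agent.Helper99.SI
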