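import Pool.Agent.Helper92.LV.Main

set_option autoImplicit false

/-!
# Project SI: the center of a Leavitt path algebra (statement with complete proof)
-/

namespace Pool.Agent.Helper99.SI

open Pool.Agent.Helper92 Pool.Agent.Helper92.LV

universe u

/-- CEN. The center of L_k(G).  PROOF. Write L for LPA k G, f = canon k G, and call f.pe p paths; they are independent (canon_indep) and span f.O; a product of two paths is a path or 0; for every y in L there is l with y * f.pe p in f.O for all
p.len ≥ l (L is spanned by products path * ghost path, canon_gens and ck1).  Let y be central, l as above.  (1) Let a be a vertex and p a path of length ≥ l with range a (strong connectivity).  s = y * p = p * y is in O, s = ∑ c_q q.  Claim: c_q ≠ 0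
implies that q starts with p.  Otherwise choose q0 with c_(q0) ≠ 0 not starting with p.  If q0 is not an initial part of p take any long path κ starting at range q0; if q0 is a (proper) initial part of p let κ be a long path whose first edge is
different from the edge of p after q0 (TwoOut).  Then q0 κ has length ≥ p.len and does not start with p, but s * κ = p * (y * κ) with y * κ in O (κ long) is a combination of paths starting with p, and the coefficient of q0 κ in s * κ = ∑ c_q (q κ) is
c_(q0) (q κ = q0 κ implies q = q0).  Contradiction with independence.  So s = p * s' with s' in O and y * v a = y * (ghost p * p) = ghost p * s = s' (up to v a) is in O.  Sum over a: y in O.  (2) y = ∑ c_q q.  Let q0 be of maximal length d with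
c_(q0) ≠ 0 and suppose d ≥ 1.  Let x be an edge with source range q0, different from the first edge of q0 (TwoOut).  y * x = x * y: the path q0 x (length d + 1) has coefficient c_(q0) on the left and 0 on the right (it does not start with x).
Contradiction.  So y = ∑ c_a v a.  (3) y * x = x * y for an edge x gives c_(s x) = c_(r x); strong connectivity: all c_a are equal; ∑ v a = 1. -/
def StCen : Prop :=
  ∀ (k : Type u) [Field k] (V E : Type) [Fintype V] [Fintype E] [DecidableEq V] [DecidableEq E]
    (G : LV.Graph V E), G.StronglyConnected → G.TwoOut →
    ∀ y : LPA k G, (∀ z, y * z = z * y) → ∃ c : k, y = algebraMap k (LPA k G) c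

end Pool.Agent.Helper99.SI
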