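import Pool.Agent.Helper99.SI.BC
import Pool.Agent.Helper99.SI.StCen

set_option autoImplicit false

/-!
# Project SI: no isomorphism of rings with involution
-/

namespace Pool.Agent.Helper99.SI

open Pool.Agent.Helper92 Pool.Agent.Helper92.LV

universe u

section

variable {k : Type u} [Field k] {V E V' E' : Type} [Fintype V] [Fintype E] [DecidableEq V]
  [DecidableEq E] [Fintype V'] [Fintype E'] [DecidableEq V'] [DecidableEq E']
  {G : LV.Graph V E} {G' : LV.Graph V' E'}

/-- A ring isomorphism between Leavitt path algebras with center k restricts to k. -/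
theorem scalar_aut (hcen : StCen.{u}) (hG : G.StronglyConnected) (hG2 : G.TwoOut)
    (hG' : G'.StronglyConnected) (hG2' : G'.TwoOut) [Nontrivial (LPA k G)]
    [Nontrivial (LPA k G')] (φ : LPA k G ≃+* LPA k G') :
    ∃ α : k ≃+* k, ∀ c : k, φ (algebraMap k (LPA k G) c) = algebraMap k (LPA k G') (α c) := by
  have h1 : ∀ c : k, ∃ d : k, φ (algebraMap k (LPA k G) c) = algebraMap k (LPA k G') d :=
    fun c => hcen k V' E' G' hG' hG2' _ fun z => by
      obtain ⟨w, rfl⟩ := φ.surjective z
      rw [← map_mul, ← map_mul, Algebra.commutes]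
  have h2 : ∀ d : k, ∃ c : k, φ.symm (algebraMap k (LPA k G') d) = algebraMap k (LPA k G) c :=
    fun d => hcen k V E G hG hG2 _ fun z => by
      obtain ⟨w, rfl⟩ := φ.symm.surjective z
      rw [← map_mul, ← map_mul, Algebra.commutes]
  choose a ha using h1
  choose b hb using h2
  have inj : Function.Injective (algebraMap k (LPA k G)) := (algebraMap k (LPA k G)).injective
  have inj' : Function.Injective (algebraMap k (LPA k G')) := (algebraMap k (LPA k G')).injective
  refine ⟨{ toFun := a, invFun := b, left_inv := fun c => ?_, right_inv := fun d => ?_,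
            map_mul' := fun x y => ?_, map_add' := fun x y => ?_ }, ha⟩
  · apply inj
    rw [← hb, ← ha, RingEquiv.symm_apply_apply]
  · apply inj'
    rw [← ha, ← hb, RingEquiv.apply_symm_apply]
  · apply inj'
    rw [← ha, map_mul, map_mul, ha, ha, map_mul]
  · apply inj'
    rw [← ha, map_add, map_add, ha, ha, map_add]

end

section

variable (V E : Type) [Fintype V] [Fintype E] [DecidableEq V] [DecidableEq E]

lemma rose_sc (n : ℕ) : (rose n).StronglyConnected := fun _ _ => Graph.Reach.refl _

lemma rose_two (n : ℕ) (hn : 2 ≤ n) : (rose n).TwoOut := fun _ =>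
  ⟨⟨0, by omega⟩, ⟨1, by omega⟩, by simp, rfl, rfl⟩

end

lemma lpa_nontrivial (k : Type u) [Field k] {V E : Type} [Fintype V] [Fintype E] [DecidableEq V]
    [DecidableEq E] [Nonempty V] (G : LV.Graph V E) (hG : ∀ a : V, ∃ x : E, G.s x = a) :
    Nontrivial (LPA k G) := by
  obtain ⟨a⟩ := ‹Nonempty V›
  exact nontrivial_of_ne _ _ ((canon_indep k G hG).ne_zero (Pa.triv G a))

/-- No isomorphism of rings with involution, for every field with involution embedded in C. -/
theorem no_star_ring_iso (hcen : StCen.{u}) (k : Type u) [Field k] [StarRing k] (ι : k →+* ℂ)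
    (hι : ∀ a, ι (star a) = star (ι a)) (n : ℕ) (V E : Type) [Fintype V] [Fintype E]
    [DecidableEq V] [DecidableEq E] (G : LV.Graph V E) (hn : 2 ≤ n) (hsc : G.StronglyConnected)
    (hto : G.TwoOut) (hdet : (adjm G).det ≠ 0) (hpos : 0 < (1 - adjm G).det) :
    ¬ ∃ φ : LPA k (rose n) ≃+* LPA k G, ∀ y, φ (star y) = star (φ y) := by
  rintro ⟨φ, hφ⟩
  have hne : Nontrivial (LPA k (rose n)) := lpa_nontrivial k (rose n) fun _ =>
    ⟨⟨0, by omega⟩, rfl⟩
  have hne' : Nontrivial (LPA k G) := φ.symm.toEquiv.nontrivial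
  obtain ⟨α, hα⟩ := scalar_aut hcen (rose_sc n) (rose_two n hn) hsc hto φ
  have hαs : ∀ c : k, α (star c) = star (α c) := fun c => by
    apply (algebraMap k (LPA k G)).injective
    rw [← hα, ← star_alg, hφ, hα, star_alg]
  exact no_star_iso allSt n V E G hn hsc hto hdet hpos (base_change ι hι α φ hφ hα hαs)

end Pool.Agent.Helper99.SI
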