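import Pool.Agent.Helper99.SI.Chain

set_option autoImplicit false

/-!
# Project SI: the theorem

A star isomorphism between the complex Leavitt path algebra of a rose with n ≥ 2 petals and that
of a graph G (strongly connected, two edges out of every vertex, det A ≠ 0) forces
det (1 - A) ≤ 0.
-/

namespace Pool.Agent.Helper99.SI

open Pool.Agent.Helper92 Pool.Agent.Helper92.LV

/-- What the modules prove. -/
def AllSt : Prop :=
  StF9 ∧ StD11 ∧ StB7 ∧ Helper80.SI.StNEAR ∧ StM14 ∧ StT7 ∧ StT9 ∧ StE1 ∧ StE4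

/-- The sign theorem for two families. -/
theorem sign_two (H : AllSt) (n : ℕ) (V E : Type) [Fintype V] [Fintype E] [DecidableEq V]
    [DecidableEq E] (G : LV.Graph V E) (L : Type) [Ring L] [Algebra ℂ L] [StarRing L]
    [StarModule ℂ L] [Nontrivial L] (T : Two n G L) (hn : 2 ≤ n) (hsc : G.StronglyConnected)
    (hto : G.TwoOut) (hdet : (adjm G).det ≠ 0) : (1 - adjm G).det ≤ 0 := by
  obtain ⟨f9, d11, b7, near, m14, t7, -, e1, e4⟩ := H
  have hout : ∀ a : V, ∃ x : E, G.s x = a := fun a => by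
    obtain ⟨x, y, -, hx, -⟩ := hto a
    exact ⟨x, hx⟩
  obtain ⟨D, hDx, -, hDb⟩ := t7 n V E G L T hn hsc hto
  have hfin : (insert (1 : L) (Set.range T.f.v)).Finite := (Set.finite_range _).insert _
  have hX : ∀ x ∈ insert (1 : L) (Set.range T.f.v), D.b.p 0 x = x ∧ star x = x := by
    rintro x (rfl | ⟨a, rfl⟩)
    · exact ⟨D.b.one, star_one L⟩
    · exact ⟨by rw [hDb]; exact T.bv a, T.fv a⟩
  obtain ⟨m, hm⟩ := m14 n L D (insert (1 : L) (Set.range T.f.v)) hfin hX (Set.mem_insert _ _)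
  have hP : ∀ J0 : Finset (Idx n m.r), Nonempty (OpPack D m J0) := d11 n L D _ m hm
  obtain ⟨P0⟩ := hP ∅
  have hK : NoKer' m := near n L D _ m hm hn (Helper80.SI.c1_of_pack D m ∅ P0)
  have hB : Base' m := b7 n L D _ m hm
  have hE : EEdge D := e1 n L D
  have hG : GEdge D (insert (1 : L) (Set.range T.f.v)) (adjm G) :=
    e4 n V E G L T D _ (le_trans (by norm_num) hn) hout hdet hDx hDb
      fun a => Set.mem_insert_of_mem _ ⟨a, rfl⟩
  exact f9 n L D _ m hn hm (Set.mem_insert _ _) hP hK hB hE V (adjm G) hG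

/-- No star isomorphism. -/
theorem no_star_iso (H : AllSt) (n : ℕ) (V E : Type) [Fintype V] [Fintype E] [DecidableEq V]
    [DecidableEq E] (G : LV.Graph V E) (hn : 2 ≤ n) (hsc : G.StronglyConnected)
    (hto : G.TwoOut) (hdet : (adjm G).det ≠ 0) (hpos : 0 < (1 - adjm G).det) :
    ¬ ∃ φ : LPA ℂ (rose n) ≃ₐ[ℂ] LPA ℂ G, ∀ y, φ (star y) = star (φ y) := by
  rintro ⟨φ, hφ⟩
  have hout : ∀ a : V, ∃ x : E, G.s x = a := fun a => by
    obtain ⟨x, y, -, hx, -⟩ := hto a
    exact ⟨x, hx⟩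
  obtain ⟨hnt, ⟨T⟩⟩ := H.2.2.2.2.2.2.1 n V E G (le_trans (by norm_num) hn) hout φ hφ
  exact absurd (sign_two H n V E G _ T hn hsc hto hdet) (not_le.mpr hpos)


/-- All modules are proved. -/
theorem allSt : AllSt := chain

end Pool.Agent.Helper99.SI
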