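import Pool.Agent.Helper99.SI.Defs

set_option autoImplicit false

/-!
# Project SI: basic algebra (statements with complete proofs)
-/

namespace Pool.Agent.Helper99.SI

/-- A0. Facts about gradings.  PROOF. Work with finite supports.  Product: (y z)_(k) = sum_i y_(i) z_(k-i),
from y = sum y_(i), z = sum z_(j), the field mul (y_(i) z_(j) is homogeneous of degree i + j) and pp.  ev z is
multiplicative (z^i z^j = z^(i+j), z ≠ 0), ev z 1 = 1, p j (ev z y) = z^j y_(j), hence the composition rule;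
ev 1 y = y.  star (ev z y) = sum conj(z)^j star(y_(j)) = sum conj(z)^j (star y)_(-j).  dd: derivation from
i + j; p j (dd y) = j y_(j); star (dd y) = - dd (star y) by the field st. -/
def StA0 : Prop :=
  ∀ (L : Type) [Ring L] [Algebra ℂ L] [StarRing L] [StarModule ℂ L] (B : ZGr L),
    (∀ (k : ℤ) (y z : L), B.p k (y * z) = ∑ᶠ i : ℤ, B.p i y * B.p (k - i) z) ∧
    (∀ (t : ℂ) (y z : L), t ≠ 0 → B.ev t (y * z) = B.ev t y * B.ev t z) ∧
    (∀ t : ℂ, B.ev t 1 = 1) ∧
    (∀ (s t : ℂ) (y : L), s ≠ 0 → t ≠ 0 → B.ev s (B.ev t y) = B.ev (s * t) y) ∧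
    (∀ y : L, B.ev 1 y = y) ∧
    (∀ (t : ℂ) (y : L), t ≠ 0 → star (B.ev t y) = B.ev (star t)⁻¹ (star y)) ∧
    (∀ (t : ℂ) (j : ℤ) (y : L), B.p j (B.ev t y) = t ^ j • B.p j y) ∧
    (∀ y z : L, B.dd (y * z) = B.dd y * z + y * B.dd z) ∧
    (∀ (j : ℤ) (y : L), B.p j (B.dd y) = (j : ℂ) • B.p j y) ∧
    (∀ y : L, star (B.dd y) = - B.dd (star y))

/-- A1. Products of words.  PROOF. Induction on the words from star (x i) * x j = δ and sum x_i star(x_i) = 1.
The last part: induction on k (List.ofFn_succ', Fin.snocEquiv or Fin.consEquiv). -/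
def StA1 : Prop :=
  ∀ (n : ℕ) (L : Type) [Ring L] [Algebra ℂ L] [StarRing L] [StarModule ℂ L] (D : Sys n L),
    (∀ μ ν : W n, D.w (μ ++ ν) = D.w μ * D.w ν) ∧
    (∀ μ ν : W n, star (D.w μ) * D.w (μ ++ ν) = D.w ν) ∧
    (∀ μ ν : W n, star (D.w (μ ++ ν)) * D.w μ = star (D.w ν)) ∧
    (∀ μ ν : W n, ¬ μ <+: ν → ¬ ν <+: μ → star (D.w μ) * D.w ν = 0) ∧
    (∀ k : ℕ, ∑ κ : Fin k → Fin n, D.w (List.ofFn κ) * star (D.w (List.ofFn κ)) = 1)

/-- A2. Gauge degrees.  PROOF. D.gx, the field st of the grading g, products (field mul with the homogeneous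
elements), induction on the words. -/
def StA2 : Prop :=
  ∀ (n : ℕ) (L : Type) [Ring L] [Algebra ℂ L] [StarRing L] [StarModule ℂ L] (D : Sys n L) (l : ℤ)
    (μ ν : W n),
    D.g.p l (D.w μ * star (D.w ν)) =
      if l = (μ.length : ℤ) - ν.length then D.w μ * star (D.w ν) else 0

/-- A3. Coefficients.  PROOF. Linear independence of the words: if a finite sum ∑ a_μ w_μ = 0, apply g.p k (A2):
∑_{|μ|=k} a_μ w_μ = 0, multiply by star (w μ) on the left (A1): a_μ • 1 = 0, so a_μ = 0.  Hence emb is injective,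
has a linear left inverse, and cf is one (Classical.choose_spec).  For y ∈ S = range of emb: emb (cf y) = y. -/
def StA3 : Prop :=
  ∀ (n : ℕ) (L : Type) [Ring L] [Algebra ℂ L] [StarRing L] [StarModule ℂ L] [Nontrivial L]
    (D : Sys n L),
    LinearIndependent ℂ D.w ∧ (∀ p, D.cf (D.emb p) = p) ∧ (∀ y ∈ D.S, D.emb (D.cf y) = y) ∧
    (∀ p, D.emb p ∈ D.S)

/-- A4. Levels.  PROOF. By linearity and D.span it is enough to treat y = w α * star (w β): take l = |β|,
c = |α| + |β|.  For |κ| ≥ |β|: if κ = β κ' then y * w κ = w (α κ'), otherwise 0 (A1; a word of length ≥ |β|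
that does not start with β is not comparable with β).  The coefficients of y * w κ: A3. -/
def StA4 : Prop :=
  ∀ (n : ℕ) (L : Type) [Ring L] [Algebra ℂ L] [StarRing L] [StarModule ℂ L] [Nontrivial L]
    (D : Sys n L) (y : L), ∃ l c : ℕ, ∀ κ : W n, l ≤ κ.length →
      y * D.w κ ∈ D.S ∧
      ∀ μ : W n, D.cf (y * D.w κ) μ ≠ 0 → κ.length ≤ μ.length + c ∧ μ.length ≤ κ.length + c

/-- A5. Closure properties.  PROOF. Products of words are words.  b.p j s * w κ ∈ S for |κ| ≥ m0 by the field UL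
and linearity; then multiply by S on the right: an element of Sge m0 is a combination of w κ * w κ'.
Gauge components of elements of S: A2 with ν = []. If y ∈ S and all its gauge components of degree < k vanish
then y ∈ Sge k. -/
def StA5 : Prop :=
  ∀ (n : ℕ) (L : Type) [Ring L] [Algebra ℂ L] [StarRing L] [StarModule ℂ L] [Nontrivial L]
    (D : Sys n L),
    (∀ y ∈ D.S, ∀ z ∈ D.S, y * z ∈ D.S) ∧
    (∀ k : ℕ, ∀ y ∈ D.Sge k, ∀ z ∈ D.S, y * z ∈ D.Sge k) ∧
    (∀ s ∈ D.S, ∀ y ∈ D.Sge D.m0, ∀ j : ℤ, D.b.p j s * y ∈ D.S) ∧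
    (∀ y ∈ D.S, ∀ l : ℤ, D.g.p l y ∈ D.S ∧
      ∀ μ : W n, D.cf (D.g.p l y) μ = if (μ.length : ℤ) = l then D.cf y μ else 0) ∧
    (∀ y ∈ D.S, ∀ k : ℕ, (∀ l : ℤ, l < k → D.g.p l y = 0) → y ∈ D.Sge k) ∧
    (∀ y ∈ D.S, ∀ k : ℕ, y ∈ D.Sge k ↔ ∀ μ : W n, D.cf y μ ≠ 0 → k ≤ μ.length)

/-- A6. The Fock product.  PROOF. Let ε be the linear functional on L given by the coefficient of 1 on
S + star S; concretely, ip (cf u) q for u ∈ S and q a word κ is the coefficient of w κ in u.  Claim: for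
u, v ∈ S: the element star v * u lies in S + star S and ip (cf u) (cf v) is its coefficient at 1, where the coefficient at
1 of an element z of S + star S is well defined: z = s + star s', put c(z) = cf(g.p 0 z) [] (g.p 0 z ∈ ℂ 1 by A2).  For
words: star (w ν) * w μ = δ_{μν} + words or ghost words of positive length (A1).  So ip (cf u) (cf v) =
cf (g.p 0 (star v * u)) [].  Now with u = y * emb p, v = emb q: star v * u = star (emb q) * y * emb p, and with
u' = emb p, v' = star y * emb q: star v' * u' = star (emb q) * y * emb p, the same element. -/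
def StA6 : Prop :=
  ∀ (n : ℕ) (L : Type) [Ring L] [Algebra ℂ L] [StarRing L] [StarModule ℂ L] [Nontrivial L]
    (D : Sys n L) (y : L) (p q : W n →₀ ℂ),
    y * D.emb p ∈ D.S → star y * D.emb q ∈ D.S →
    Sys.ip (D.cf (y * D.emb p)) q = Sys.ip p (D.cf (star y * D.emb q))

/-- A7. Growth of the second grading.  PROOF. Let n1 = max 1 k, k from G1 for j = 1: words of length ≥ n1
have only components of degree ≥ 1.  Let c0 be such that all components of the words of length < n1 have degree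
≥ -c0 (finitely many words).  A word μ with |μ| = q n1 + r, r < n1 is a product of q words of length n1 and one of
length r, so its components have degree ≥ q - c0 (product rule A0).  If b.p i (w μ) ≠ 0 then q ≤ i + c0 and
|μ| < (q + 1) n1 ≤ n1 i + (c0 + 1) n1. -/
def StA7 : Prop :=
  ∀ (n : ℕ) (L : Type) [Ring L] [Algebra ℂ L] [StarRing L] [StarModule ℂ L] (D : Sys n L),
    ∃ n1 C : ℕ, 1 ≤ n1 ∧
      (∀ μ : W n, n1 ≤ μ.length → ∀ i < (1 : ℤ), D.b.p i (D.w μ) = 0) ∧
      (∀ (μ : W n) (i : ℤ), D.b.p i (D.w μ) ≠ 0 → (μ.length : ℤ) ≤ n1 * i + C)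

/-- A8. The operators Phi.  PROOF. Phi t is the sum over i of star (x i) * y * β_t(x i).  By induction on k:
(Phi t)^k y = ∑_{|κ| = k} star (w κ) * y * β_t(w κ) (A0 multiplicativity of β_t, A1; the word κ x_i or x_i κ: the sum
over all words of length k + 1). -/
def StA8 : Prop :=
  ∀ (n : ℕ) (L : Type) [Ring L] [Algebra ℂ L] [StarRing L] [StarModule ℂ L] (D : Sys n L)
    (t : ℂ) (k : ℕ) (y : L), t ≠ 0 →
    (∀ y, D.Phi t y = ∑ i, star (D.x i) * y * D.b.ev t (D.x i)) ∧
    (D.Phi t ^ k) y = ∑ κ : Fin k → Fin n,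
      star (D.w (List.ofFn κ)) * y * D.b.ev t (D.w (List.ofFn κ))

end Pool.Agent.Helper99.SI
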