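import Pool.Agent.Helper99.SI.StA
import Pool.Agent.Helper99.SI.Defs2

set_option autoImplicit false

/-!
# Project SI: base positivity, section 4 (statements with complete proofs)
-/

namespace Pool.Agent.Helper99.SI

/-- An algebra norm on L (no completeness). -/
structure ANorm (L : Type) [Ring L] [Algebra ℂ L] where
  /-- the norm -/
  N : L → ℝ
  nn : ∀ y, 0 ≤ N y
  add : ∀ y z, N (y + z) ≤ N y + N z
  smul : ∀ (c : ℂ) y, N (c • y) ≤ ‖c‖ * N y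
  mul : ∀ y z, N (y * z) ≤ N y * N z
  zero : ∀ y, N y = 0 → y = 0

/-- The degree j component of the image of z (a finite sum for a model). -/
noncomputable def MData.Yj {n : ℕ} {L : Type} [Ring L] [Algebra ℂ L] [StarRing L]
    (m : MData n L) (D : Sys n L) (t : ℝ) (z : Idx n m.r → ℂ) (j : ℤ) : L :=
  ∑ᶠ i : Idx n m.r, z i • D.b.p j (m.piT D t i)

/-- B1. Existence of an algebra norm.  PROOF. For y ∈ L let l be a level (A4) and N y = max over |κ| = l of the sum of the absolute values of the coefficients of y * w κ ∈ S.  For l' ≥ l the value is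
the same: y * w (κ κ') = (y * w κ) * w κ' and right multiplication by a word permutes words injectively.  So N is well defined, N (y + z) ≤ N y + N z (common level).  N y = 0: y * w κ = 0 for all
|κ| = l, so y = ∑ y w κ star(w κ) = 0.  Product: take k large; y z w κ = ∑_μ c_μ y w μ, where z w κ = ∑ c_μ w μ, all |μ| ≥ level of y (lengths drop by a bounded amount), ‖y w μ‖_1 ≤ N y (for |μ| ≥ l:
μ = μ' μ'', |μ'| = l), so ‖y z w κ‖_1 ≤ N y ∑ |c_μ| ≤ N y N z.  (n ≥ 1 because of comp and Nontrivial, so there are words of every length.) -/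
def StB1 : Prop :=
  ∀ (n : ℕ) (L : Type) [Ring L] [Algebra ℂ L] [StarRing L] [StarModule ℂ L] [Nontrivial L]
    (_D : Sys n L), Nonempty (ANorm L)

/-- B2. Growth of the norms.  PROOF. Let c = ∑_l ∑_i (N (p_l (x i)) + N (p_l (star (x i)))) (finite), C = max 1 c, max N 1.  Induction on the word: p_j (x i * w μ) = ∑_l p_l (x i) p_(j-l) (w μ), so
N ≤ C * C^(|μ|+1).  Ghosts: star (w (iμ)) = star (w μ) * star (x i). -/
def StB2 : Prop :=
  ∀ (n : ℕ) (L : Type) [Ring L] [Algebra ℂ L] [StarRing L] [StarModule ℂ L] [Nontrivial L]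
    (D : Sys n L) (A : ANorm L), ∃ C : ℝ, 1 ≤ C ∧ ∀ (μ : W n) (j : ℤ),
      A.N (D.b.p j (D.w μ)) ≤ C ^ (μ.length + 1) ∧ A.N (D.b.p j (star (D.w μ))) ≤ C ^ (μ.length + 1)

/-- B3. The sums Yj are finite and their norms grow at most exponentially with a rate independent of t.  PROOF. First kind ν, |ν| ≥ M: p_j (ev t (w ν)) = t^j p_j (w ν) ≠ 0 implies j ≥ 1 (m.pos) and |ν| ≤ n1 j + C
(A7).  Second kind: p_j (star (w ν)) = star (p_(-j) (w ν)) ≠ 0 implies -j ≥ 1, |ν| ≤ n1 (-j) + C.  Third kind: finitely many i.  Norm: at most (n+1)^(m'+1) words of length ≤ m' = n1 |j| + C, each term ≤ C2^(m'+1)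
(B2, t^j ≤ 1 for j ≥ 1, 0 < t ≤ 1), and the third kind contributes at most B(t) (finitely many j). -/
def StB3 : Prop :=
  ∀ (n : ℕ) (L : Type) [Ring L] [Algebra ℂ L] [StarRing L] [StarModule ℂ L] [Nontrivial L]
    (D : Sys n L) (X0 : Set L) (m : MData n L) (A : ANorm L), IsModel D X0 m →
    (∀ j : ℤ, {i : Idx n m.r | ∃ t : ℝ, 0 < t ∧ D.b.p j (m.piT D t i) ≠ 0}.Finite) ∧
    ∃ E : ℝ, 1 ≤ E ∧ ∀ t : ℝ, 0 < t → t ≤ 1 → ∃ Bt : ℝ, ∀ z : Idx n m.r → ℂ, (∀ i, ‖z i‖ ≤ 1) →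
      ∀ j : ℤ, A.N (m.Yj D t z j) ≤ Bt * E ^ j.natAbs

/-- B4. The equation for the components.  PROOF. k = 0: star 1 * Y_j * 1.  One step: Y_j = ∑_i z_i p_j (π i) = s ∑_i ∑_i' Fc t i' i z_i' p_j(π i) = s ∑_i' z_i' p_j (∑_i Fc t i' i π i) = s ∑_i' z_i' p_j (Phi_t (π i')) (fpi for the
vector single i' 1; all sums finite: for fixed j only finitely many i with p_j(π i) ≠ 0 (B3), and each row of Fc is finite (m.band)).  p_j (Phi_t y) = ∑_x ∑_a ∑_l t^l p_a (star x) p_(j-a-l)(y) p_l(x) over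
x = x_1..x_n (A0 product rule, p_l (ev t x) = t^l p_l x).  k steps: induction, using p_a(star (w (κ x))) = ∑ p_(a')(star x) p_(a-a')(star (w κ)) and p_l (w (κ x)) = ∑ p_(l')(w κ) p_(l-l')(x). -/
def StB4 : Prop :=
  ∀ (n : ℕ) (L : Type) [Ring L] [Algebra ℂ L] [StarRing L] [StarModule ℂ L] [Nontrivial L]
    (D : Sys n L) (X0 : Set L) (m : MData n L), IsModel D X0 m → ∀ (s t : ℝ), 0 < t →
    ∀ z : Idx n m.r → ℂ, m.IsKer s t z → ∀ (k : ℕ) (j : ℤ),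
      m.Yj D t z j = (s : ℂ) ^ k • ∑ κ : Fin k → Fin n, ∑ᶠ a : ℤ, ∑ᶠ l : ℤ,
        (t : ℂ) ^ l • (D.b.p a (star (D.w (List.ofFn κ))) * m.Yj D t z (j - a - l) *
          D.b.p l (D.w (List.ofFn κ)))

/-- B5. The components vanish for small t.  PROOF. k = n1 (A7): in B4 only l ≥ 1 occurs, t^l ≤ t for 0 < t ≤ 1.  Let E be as in B3, z bounded by 1 (scale), Q = sup_j E^(-|j|) N(Y_j) < ∞.  N(Y_j) ≤ t ∑_κ ∑_a ∑_l
N(p_a(star (w κ))) N(p_l (w κ)) E^(|j|+|a|+|l|) Q =: t C' E^|j| Q with C' independent of t, j, z (finite sums over a, l).  So Q ≤ t C' Q, and Q = 0 for t < 1/C'. -/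
def StB5 : Prop :=
  ∀ (n : ℕ) (L : Type) [Ring L] [Algebra ℂ L] [StarRing L] [StarModule ℂ L] [Nontrivial L]
    (D : Sys n L) (X0 : Set L) (m : MData n L), IsModel D X0 m →
    ∃ t1 : ℝ, 0 < t1 ∧ ∀ t : ℝ, 0 < t → t ≤ t1 → ∀ s : ℝ, 0 ≤ s → s ≤ 1 → ∀ z : Idx n m.r → ℂ,
      (∃ c : ℝ, ∀ i, ‖z i‖ ≤ c) → m.IsKer s t z → ∀ j : ℤ, m.Yj D t z j = 0

/-- B6. Injectivity.  PROOF. For each j only finitely many ν with a ν ≠ 0 have p_j (w ν) ≠ 0 (A7).  Let y = ∑_{j < J0} ∑_ν a ν • p_j (w ν): a finite sum (components of degree < 1 of words of length ≥ M vanish, so 1 ≤ j < J0).  Fix a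
gauge degree g ≥ 1.  By G2 there is k with: gauge components of degree ≤ g of p_j (w ν) vanish for |ν| ≥ k, all j.  So g.p g y = ∑_{j<J0} ∑_{|ν|<k} a ν • g.p g (p_j (w ν)) = ∑_{j ∈ ℤ} ∑_{|ν|<k} a ν • g.p g (p_j (w ν))
(for j ≥ J0: ∑_{|ν|<k} a ν g.p g (p_j (w ν)) = g.p g (∑_ν a ν p_j (w ν)) = 0) = ∑_{|ν|<k} a ν • g.p g (w ν) = ∑_{|ν|=g} a ν • w ν (A2; enlarge k to k > g).  As y has only finitely many gauge degrees this is 0
for all large g, so a ν = 0 for |ν| large (A3). -/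
def StB6 : Prop :=
  ∀ (n : ℕ) (L : Type) [Ring L] [Algebra ℂ L] [StarRing L] [StarModule ℂ L] [Nontrivial L]
    (D : Sys n L) (M : ℕ), (∀ μ : W n, M ≤ μ.length → ∀ i < (1 : ℤ), D.b.p i (D.w μ) = 0) →
    ∀ (a : W n → ℂ) (J0 : ℤ), (∀ ν : W n, ν.length < M → a ν = 0) →
    (∀ j : ℤ, J0 ≤ j → ∑ᶠ ν : W n, a ν • D.b.p j (D.w ν) = 0) →
    ∃ g0 : ℕ, ∀ ν : W n, g0 ≤ ν.length → a ν = 0

/-- B7. Base positivity.  PROOF. t1 from B5; z is bounded (square summable).  Y_j = 0 for all j.  Dummies: z i = s ∑ Fc t i' i z i' = 0 (dum2).  Let J0 ≥ 1 be larger than the degrees of all piT t (inr a).  For j ≥ J0: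
0 = Y_j = ∑_{|ν| ≥ M} z(inl inl ν) t^j p_j (w ν) (ghosts have only negative degrees), so B6 applies to a ν = z(inl inl ν) (0 for |ν| < M).  For j ≤ -J0: 0 = Y_j = ∑ z(inl inr ν) star (p_(-j)(w ν)); apply star: B6 for the conjugate
of z(inl inr ν).  So z is finitely supported: z = coordinates of z' ∈ Idx →₀ ℂ, piV t z' = ∑_j Y_j = 0, so (Fl t)^k z' = 0 for some k (nil), and z' = s • Fl t z' (IsKer), z' = s^k • (Fl t)^k z' = 0. -/
def StB7 : Prop :=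
  ∀ (n : ℕ) (L : Type) [Ring L] [Algebra ℂ L] [StarRing L] [StarModule ℂ L] [Nontrivial L]
    (D : Sys n L) (X0 : Set L) (m : MData n L), IsModel D X0 m →
    ∃ t1 : ℝ, 0 < t1 ∧ ∀ t : ℝ, 0 < t → t ≤ t1 → ∀ s : ℝ, 0 ≤ s → s ≤ 1 → ∀ z : Idx n m.r → ℂ,
      (Summable fun i => ‖z i‖ ^ 2) → m.IsKer s t z → z = 0

end Pool.Agent.Helper99.SI
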