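import Pool.Agent.Helper99.SI.StA
import Pool.Agent.Helper99.SI.Defs4

set_option autoImplicit false

/-!
# Project SI: the operators (statements with complete proofs)
-/

namespace Pool.Agent.Helper99.SI

/-- D1. Band operators.  PROOF. (T z) k := ∑_{i : a i k ≠ 0} a i k z i, at most K terms, so |(T z) k|^2 ≤ K C^2 ∑_{i : a i k ≠ 0} |z i|^2;
sum over k, each i occurs for at most K indices k: ‖T z‖^2 ≤ K^2 C^2 ‖z‖^2.  Linear, continuous. -/
def StD1 : Prop :=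
  ∀ (ι ι' : Type) (a : ι → (ι' →₀ ℂ)) (K : ℕ) (C : ℝ), 0 ≤ C →
    (∀ i, (a i).support.card ≤ K) → (∀ k, {i | a i k ≠ 0}.Finite ∧ {i | a i k ≠ 0}.ncard ≤ K) →
    (∀ i k, ‖a i k‖ ≤ C) → ∃ T : L2 ι →L[ℂ] L2 ι', IsOp T a ∧ ‖T‖ ≤ K * C

/-- D2. Rows and columns of left multiplications.  PROOF. y = ∑_f c_f w α_f * star (w β_f) (finitely many f, D.span); for |ν| ≥ all |β_f|:
y * w ν = ∑_f c_f [ν = β_f ν'] w (α_f ν') (A1), so the column has at most K = #f entries, of size ≤ ∑|c_f|; the entry at μ is nonzero only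
if for some f μ = α_f ν', ν = β_f ν', which determines ν. -/
def StD2 : Prop :=
  ∀ (n : ℕ) (L : Type) [Ring L] [Algebra ℂ L] [StarRing L] [StarModule ℂ L] [Nontrivial L]
    (D : Sys n L) (y : L), ∃ (l K : ℕ) (C : ℝ), 0 ≤ C ∧
      (∀ ν : W n, l ≤ ν.length → y * D.w ν ∈ D.S ∧ (D.cf (y * D.w ν)).support.card ≤ K ∧
        ∀ μ, ‖D.cf (y * D.w ν) μ‖ ≤ C) ∧
      (∀ μ : W n, {ν : W n | l ≤ ν.length ∧ D.cf (y * D.w ν) μ ≠ 0}.Finite ∧
        {ν : W n | l ≤ ν.length ∧ D.cf (y * D.w ν) μ ≠ 0}.ncard ≤ K)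

/-- D3. The operator Phi^flat.  PROOF. For each j ∈ Z the columns m.F j satisfy the hypotheses of D1: long columns by D2 for the elements
star (p_j (x i)) (cf (y * w ν * x i) is the shift of cf (y * w ν) by the letter i on the right), the other columns are finitely many; the rows:
long columns give boundedly many entries (D2), the others finitely many.  Let T_j be the operators and Ph t = ∑_{j ∈ Z} t^j T_j for t > 0. -/
def StD3 : Prop :=
  ∀ (n : ℕ) (L : Type) [Ring L] [Algebra ℂ L] [StarRing L] [StarModule ℂ L] [Nontrivial L]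
    (D : Sys n L) (X0 : Set L) (m : MData n L), IsModel D X0 m →
    ∃ Ph : ℝ → (L2 (Idx n m.r) →L[ℂ] L2 (Idx n m.r)), ContinuousOn Ph (Set.Ioi 0) ∧
      (∀ t : ℝ, 0 < t → IsOp (Ph t) (m.Fc t)) ∧
      ∀ c : ℝ, 0 < c → ∃ C : ℝ, ∀ t : ℝ, c ≤ t → t ≤ 1 → ‖Ph t - Ph 1‖ ≤ C * (1 - t)

/-- D4. The operators K_κ(t).  PROOF. star (ev t (w κ)) = ∑_j t^j star (p_j (w κ)) for real t; D2 for the elements star (p_j (w κ)) and D1 (if the level l
of D2 is larger than M4 the finitely many columns with M4 ≤ |ν| < l are treated separately: finite support).  The ghost copy has the conjugate entries. -/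
def StD4 : Prop :=
  ∀ (n : ℕ) (L : Type) [Ring L] [Algebra ℂ L] [StarRing L] [StarModule ℂ L] [Nontrivial L]
    (D : Sys n L) (r n1 M4 : ℕ), Lev4 D n1 M4 →
    ∃ K : W n → ℝ → (L2 (Idx n r) →L[ℂ] L2 (Idx n r)), ∀ κ : W n, κ.length ≤ n1 →
      ContinuousOn (K κ) (Set.Ioi 0) ∧ (∀ t : ℝ, 0 < t → IsOp (K κ t) (D.kcol r M4 t κ)) ∧
      ∀ c : ℝ, 0 < c → ∃ C : ℝ, ∀ t : ℝ, c ≤ t → t ≤ 1 → ‖K κ t - K κ 1‖ ≤ C * (1 - t)

/-- D5. Maximum modulus.  PROOF. Put F_κ(z) = ∑_j z^j cf(star (p_j (w κ)) * emb p), z ∈ ℂ, κ : Fin n1 → Fin n (finite sum, only j ≥ 1 occurs by Lev4.deg; the elements lie in S by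
l1).  For |z| = 1: F_κ(z) = cf (star (ev (conj z) (w κ)) * emb p), and with y_κ = ev (conj z) (w κ): ∑_κ ‖F_κ(z)‖^2 = ∑_κ ip (F_κ z) (F_κ z) = ∑_κ ip (cf (y_κ star y_κ emb p)) p (A6, l1, l2;
y_κ star(y_κ) emb p ∈ S) = ip (cf ((∑_κ y_κ star y_κ) emb p)) p = ip p p, because y_κ star(y_κ) = ev (conj z) (w κ * star (w κ)) (A0: star (ev v y) = ev v (star y) for |v| = 1) and
∑ w κ star (w κ) = 1 (A1).  Let 0 < t ≤ 1, R = (∑_κ ‖F_κ(t)‖^2)^(1/2), assume R > 0, φ(z) = (1/R) ∑_κ ip (F_κ(z)) (F_κ(t)): a Laurent polynomial with exponents ≥ 1, so ψ(z) = φ(z)/z is a polynomial,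
|ψ| ≤ nsq(p)^(1/2) on |z| = 1 (Cauchy-Schwarz), so by the maximum principle |ψ(t)| ≤ nsq(p)^(1/2); φ(t) = R gives R ≤ t nsq(p)^(1/2). -/
def StD5 : Prop :=
  ∀ (n : ℕ) (L : Type) [Ring L] [Algebra ℂ L] [StarRing L] [StarModule ℂ L] [Nontrivial L]
    (D : Sys n L) (n1 M4 : ℕ), Lev4 D n1 M4 → ∀ (t : ℝ), 0 < t → t ≤ 1 →
    ∀ p : W n →₀ ℂ, (∀ ν, p ν ≠ 0 → M4 ≤ ν.length) →
      ∑ κ : Fin n1 → Fin n, nsq (D.cf (star (D.b.ev (t : ℂ) (D.w (List.ofFn κ))) * D.emb p)) ≤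
        t ^ 2 * nsq p

/-- D6. Contraction.  PROOF. t = u^n1.  y_κ = star (ev t (w κ)).  A_t p has emb (At t p) = ∑_i star (ev t (x i)) emb p x i (in S, l1 with |κ| = 1).  For |κ| = j < n1:
y_κ * emb (At p) = ∑_i y_κ star (ev t (x i)) emb p x i = ∑_i y_(iκ) emb p x i, where iκ is the word i followed by κ (star reverses products, ev t multiplicative).  Right multiplication by x i
is the shift ν ↦ ν ++ [i], and the images for different i are orthogonal: nsq (cf (∑_i s_i x i)) = ∑_i nsq (cf s_i) for s_i ∈ S.  So Nu(At p) = ∑_{j<n1} u^(-2j) ∑_{|κ'|=j+1} nsq (cf (y_κ' emb p)) =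
u^2 ∑_{1≤j≤n1} u^(-2j) ∑_{|κ|=j} ... , and the term j = n1 is u^2 u^(-2 n1) ∑_{|κ|=n1} ≤ u^2 u^(-2 n1) t^2 nsq p = u^2 nsq p (D5), nsq p = the term j = 0 of Nu(p). -/
def StD6 : Prop :=
  ∀ (n : ℕ) (L : Type) [Ring L] [Algebra ℂ L] [StarRing L] [StarModule ℂ L] [Nontrivial L]
    (D : Sys n L) (n1 M4 : ℕ), Lev4 D n1 M4 → ∀ (u : ℝ), 0 < u → u ≤ 1 →
    ∀ p : W n →₀ ℂ, (∀ ν, p ν ≠ 0 → M4 ≤ ν.length) →
      (∀ ν, D.At (u ^ n1) p ν ≠ 0 → M4 ≤ ν.length) →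
      D.Nu n1 u (D.At (u ^ n1) p) ≤ u ^ 2 * D.Nu n1 u p

/-- D7. Coercivity.  PROOF. Let G = Gop n1 K.  Choose M3 ≥ max(M4, M2) such that the columns F j (words of length ≥ M3) only have entries of length ≥ M4 (m.band).  For finitely supported
z on indices of length ≥ M3 in the two word copies write z = z+ + z- (p the coefficients on the first copy, q the conjugates of the coefficients on the second copy).  By D4 (IsOp, kcol)
⟨G z, z⟩ = Nu(p) + Nu(q), where ‖K_κ z+‖^2 = nsq (cf (star (ev t (w κ)) emb p)), κ = [] contributes nsq p; Ph t z = At p on the first copy and conj(At q) on the second (long1, long2,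
acol: ∑_j t^j acol j ν = At t (single ν 1)), supported in lengths ≥ M4, so ⟨G Ph z, Ph z⟩ = Nu(At p) + Nu(At q) ≤ u^2 ⟨G z, z⟩ (D6).  Cauchy-Schwarz for the positive form ⟨G ·,·⟩:
re ⟨z, G(z - s Ph z)⟩ ≥ (1 - s u) ⟨G z, z⟩ ≥ (1 - s u) ‖z‖^2.  By density (finitely supported vectors vanishing on J are dense in those vanishing on J, both sides continuous)
it holds for all z vanishing on J, J = {indices of length < M3} and the Fin r (a finite set). -/
def StD7 : Prop :=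
  ∀ (n : ℕ) (L : Type) [Ring L] [Algebra ℂ L] [StarRing L] [StarModule ℂ L] [Nontrivial L]
    (D : Sys n L) (X0 : Set L) (m : MData n L) (n1 M4 : ℕ), IsModel D X0 m → Lev4 D n1 M4 →
    m.M2 ≤ M4 → ∀ (K : W n → ℝ → (L2 (Idx n m.r) →L[ℂ] L2 (Idx n m.r)))
      (Ph : ℝ → (L2 (Idx n m.r) →L[ℂ] L2 (Idx n m.r))),
    (∀ κ : W n, κ.length ≤ n1 → ∀ t : ℝ, 0 < t → IsOp (K κ t) (D.kcol m.r M4 t κ)) →
    (∀ t : ℝ, 0 < t → IsOp (Ph t) (m.Fc t)) →
    ∃ M3 : ℕ, M4 ≤ M3 ∧ ∀ u : ℝ, 0 < u → u ≤ 1 → ∀ s : ℝ, 0 ≤ s → s ≤ 1 →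
      ∀ z : L2 (Idx n m.r), (∀ i : Idx n m.r, ilen i < M3 → z i = 0) →
      (1 - s * u) * ‖z‖ ^ 2 ≤ (inner ℂ z (Gop n1 K u (z - (s : ℂ) • Ph (u ^ n1) z))).re

/-- D8. Off-diagonal estimate.  PROOF. At u = 1 (t = 1): K_κ(1) e_ν = star (w κ) w ν (|ν| ≥ M4 ≥ |κ|) = e_ν' if ν = κ ν', 0 otherwise; adjoint(K) K e_ν = e_ν or 0 accordingly, so
G(1) e_i = n1 e_i for word indices of length ≥ M4 (for each j < n1 exactly one κ), and e_i otherwise: G(1) is diagonal.  Ph(1): a column F_c 1 (word of length ≥ M2) is the rotation ν = iν' ↦ ν'i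
(∑_j p_j (x i) = x i), same length; the other columns are finitely many, finite support: choose M3 larger than the lengths of their entries.  So for M3 large, J3 = {length < M3}: vectors supported on
J3 are mapped by Ph 1 and G 1 to such vectors, so the inner product with y (vanishing on J3) is 0 at u = 1.  Then ‖G(u)(1 - s Ph(u^n1)) - G(1)(1 - s Ph 1)‖ ≤ C (1 - u) for 1/2 ≤ u ≤ 1 by the Lipschitz bounds
of K and Ph (u^n1 ≥ 2^(-n1), 1 - u^n1 ≤ n1 (1 - u)). -/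
def StD8 : Prop :=
  ∀ (n : ℕ) (L : Type) [Ring L] [Algebra ℂ L] [StarRing L] [StarModule ℂ L] [Nontrivial L]
    (D : Sys n L) (X0 : Set L) (m : MData n L) (n1 M4 : ℕ), IsModel D X0 m → Lev4 D n1 M4 →
    m.M2 ≤ M4 → ∀ (K : W n → ℝ → (L2 (Idx n m.r) →L[ℂ] L2 (Idx n m.r)))
      (Ph : ℝ → (L2 (Idx n m.r) →L[ℂ] L2 (Idx n m.r))),
    (∀ κ : W n, κ.length ≤ n1 → ∀ t : ℝ, 0 < t → IsOp (K κ t) (D.kcol m.r M4 t κ)) →
    (∀ t : ℝ, 0 < t → IsOp (Ph t) (m.Fc t)) →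
    (∀ κ : W n, κ.length ≤ n1 → ∀ c : ℝ, 0 < c → ∃ C : ℝ, ∀ t : ℝ, c ≤ t → t ≤ 1 →
      ‖K κ t - K κ 1‖ ≤ C * (1 - t)) →
    (∀ c : ℝ, 0 < c → ∃ C : ℝ, ∀ t : ℝ, c ≤ t → t ≤ 1 → ‖Ph t - Ph 1‖ ≤ C * (1 - t)) →
    ∃ M30 : ℕ, ∀ M3 ≥ M30, ∃ C : ℝ, ∀ u : ℝ, 1 / 2 ≤ u → u ≤ 1 → ∀ s : ℝ, 0 ≤ s → s ≤ 1 →
      ∀ y z : L2 (Idx n m.r), (∀ i : Idx n m.r, ilen i < M3 → y i = 0) →
      (∀ i : Idx n m.r, M3 ≤ ilen i → z i = 0) →
      ‖inner ℂ y (Gop n1 K u (z - (s : ℂ) • Ph (u ^ n1) z))‖ ≤ C * (1 - u) * ‖y‖ * ‖z‖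

/-- D9. The conjugation operator.  PROOF. m.Cf t z differs from the swapped conjugate of z only by finitely many finitely supported terms (Cc t (inr a)), so it is square summable.
Each coordinate of Cf t (Cf t z), of Cf t (Ph t z) and of Ph t (Cf t z) depends conj-linearly resp. linearly on finitely many coordinates of z (Ph is row finite: m.band, IsOp), and for finitely
supported z Cf t z = Cl t z; so the identities Cinv, Ccomm for finitely supported vectors imply them for all z (truncate z to the finitely many relevant coordinates). -/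
def StD9 : Prop :=
  ∀ (n : ℕ) (L : Type) [Ring L] [Algebra ℂ L] [StarRing L] [StarModule ℂ L] [Nontrivial L]
    (D : Sys n L) (X0 : Set L) (m : MData n L), IsModel D X0 m →
    ∀ (Ph : ℝ → (L2 (Idx n m.r) →L[ℂ] L2 (Idx n m.r))),
    (∀ t : ℝ, 0 < t → IsOp (Ph t) (m.Fc t)) →
    ∃ Cop : ℝ → L2 (Idx n m.r) → L2 (Idx n m.r),
      (∀ t : ℝ, 0 < t → ∀ z i, Cop t z i = m.Cf t (fun k => z k) i) ∧
      (∀ t : ℝ, 0 < t → ∀ z, Cop t (Cop t z) = z) ∧
      (∀ t : ℝ, 0 < t → ∀ z, Cop t (Ph t z) = Ph t (Cop t z))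

/-- D10. The Gram operator commutes with C.  PROOF. Let K = K_κ(u'), u' = u^n1.  K kills the basis vectors of length < M4 and the Fin r ones, and C maps e_(inr a) to vectors of length < M2 ≤ M4
(Csupp), so K* K C e_(inr a) = 0 = C K* K e_(inr a).  On the span of the words C is the conjugate swap J (antiunitary) and K J = J K by the definition of kcol, so K* J = J K* there (K* has values in the words),
so K* K J = J K* K.  Coordinatewise: (K* y)(i) = ∑_k conj(kcol i k) y k.  G = 1 + real combination of the K* K. -/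
def StD10 : Prop :=
  ∀ (n : ℕ) (L : Type) [Ring L] [Algebra ℂ L] [StarRing L] [StarModule ℂ L] [Nontrivial L]
    (D : Sys n L) (X0 : Set L) (m : MData n L) (n1 M4 : ℕ), IsModel D X0 m → Lev4 D n1 M4 →
    m.M2 ≤ M4 → ∀ (K : W n → ℝ → (L2 (Idx n m.r) →L[ℂ] L2 (Idx n m.r)))
      (Cop : ℝ → L2 (Idx n m.r) → L2 (Idx n m.r)),
    (∀ κ : W n, κ.length ≤ n1 → ∀ t : ℝ, 0 < t → IsOp (K κ t) (D.kcol m.r M4 t κ)) →
    (∀ t : ℝ, 0 < t → ∀ z i, Cop t z i = m.Cf t (fun k => z k) i) →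
    ∀ t u : ℝ, 0 < t → 0 < u → ∀ z, Cop t (Gop n1 K u z) = Gop n1 K u (Cop t z)

/-- D11. Existence of the package.  PROOF. n1 from A7 (n1 ≥ 1, words of length ≥ n1 have degrees ≥ 1); M4 ≥ n1, m.M2 with l1, l2 (A4 for the finitely many elements star (p_j (w κ)) and
p_i (w κ) * star (p_j (w κ)), |κ| ≤ n1; only finitely many are nonzero).  K from D4, Ph from D3, G = Gop n1 K.  M3 from D7 and D8 (D7 remains true for larger M3: vectors vanishing on a larger set) and larger than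
the lengths of the indices in J0; J = {i : ilen i < M3} (finite; contains all inr a since ilen = 0 < M3).  Gsa, Gge: G = 1 + sum of positive multiples (u^(-2j) > 0) of adjoint(K) K.  Gsh: K e_i = 0 for ilen i < M4.
Continuity: adjoint is continuous.  Cop: D9, D10. -/
def StD11 : Prop :=
  ∀ (n : ℕ) (L : Type) [Ring L] [Algebra ℂ L] [StarRing L] [StarModule ℂ L] [Nontrivial L]
    (D : Sys n L) (X0 : Set L) (m : MData n L), IsModel D X0 m →
    ∀ J0 : Finset (Idx n m.r), Nonempty (OpPack D m J0)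

end Pool.Agent.Helper99.SI
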