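import Pool.Agent.Helper99.SI.StS
import Pool.Agent.Helper99.SI.StA
import Pool.Agent.Helper99.SI.Defs4

set_option autoImplicit false

/-!
# Project SI: edges and final assembly (statements with complete proofs)
-/

namespace Pool.Agent.Helper99.SI

open Filter Topology

section

variable {n : ℕ} {L : Type} [Ring L] [Algebra ℂ L] [StarRing L]

/-- The edge t = 1 on the level of L. -/
def EEdge (D : Sys n L) : Prop :=
  ∃ τ : L →ₗ[ℂ] ℂ, τ 1 = 1 ∧ (∀ ν : W n, ν ≠ [] → τ (D.w ν) = 0 ∧ τ (star (D.w ν)) = 0) ∧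
    ∀ s : ℝ, 0 ≤ s → s < 1 → Function.Bijective
      (fun y : L => y - (s : ℂ) • D.Phi 1 y + ((s : ℂ) * n * τ y) • (1 : L))

/-- The edge s = 1 on the level of L; A is the adjacency matrix of the second graph. -/
def GEdge (D : Sys n L) (X0 : Set L) {V : Type} [Fintype V] (A : Matrix V V ℝ) : Prop :=
  ∃ (v : V → L) (lam : ℝ → V → (L →ₗ[ℂ] ℂ)), (∀ a, v a ∈ X0) ∧
    (∀ t : ℝ, 0 < t → t < 1 → Function.Bijective
      (fun y : L => y - D.Phi (t : ℂ) y + ∑ a, lam t a y • v a)) ∧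
    (∀ t : ℝ, 0 < t → t < 1 → ∀ (b : V) (y : L),
      y - D.Phi (t : ℂ) y + ∑ a, lam t a y • v a = v b → ∀ a, lam t a y = (t : ℂ) * (A b a : ℂ)) ∧
    (∀ (a : V) (y : L), ContinuousOn (fun t : ℝ => lam t a y) (Set.Ioo 0 1)) ∧
    ∃ l : ℕ, ∀ t : ℝ, 0 < t → t < 1 → ∀ (a : V) (ν : W n), l ≤ ν.length →
      lam t a (D.b.ev (t : ℂ) (D.w ν)) = 0 ∧ lam t a (star (D.w ν)) = 0

/-- The orthonormal family of the package. -/
noncomputable def eJ {r : ℕ} (J : Finset (Idx n r)) (j : {i // i ∈ J}) : L2 (Idx n r) := eb j.1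

/-- T(s,u) = G_u (1 - s Phi^flat_(u^n1)). -/
noncomputable def OpPack.TT {D : Sys n L} {m : MData n L} {J0 : Finset (Idx n m.r)}
    (P : OpPack D m J0) (s u : ℝ) : L2 (Idx n m.r) →L[ℂ] L2 (Idx n m.r) :=
  (P.G u) ∘L (1 - (s : ℂ) • P.Ph (u ^ P.n1))

/-- The domain. -/
def Dom : Set (ℝ × ℝ) := {x | 0 ≤ x.1 ∧ x.1 ≤ 1 ∧ 0 < x.2 ∧ x.2 ≤ 1 ∧ ¬ (x.1 = 1 ∧ x.2 = 1)}

end

/-- F0. Coercivity of T(s,u) on the complement of J.  PROOF. inner (eb j) z = z j; P.coer with c = 1 - s u > 0 on Dom; orthonormality of the eb j. -/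
def StF0 : Prop :=
  ∀ (n : ℕ) (L : Type) [Ring L] [Algebra ℂ L] [StarRing L] [StarModule ℂ L] [Nontrivial L]
    (D : Sys n L) (m : MData n L) (J0 : Finset (Idx n m.r)) (P : OpPack D m J0),
    Orthonormal ℂ (eJ P.J) ∧ (∀ (j : {i // i ∈ P.J}) (z : L2 (Idx n m.r)), inner ℂ (eJ P.J j) z = z j.1) ∧
    ∀ s u : ℝ, (s, u) ∈ Dom → Coer (eJ P.J) (P.TT s u)

/-- F1. Bijectivity on the model.  PROOF. Let T0 y = y - s Φ y + ∑ lam a y • v a on L, T1 z = z - s Fl z + ∑ lam a (π z) • k a, π T1 = T0 π (fpi).  Injective: T1 z = 0 ⟹ T0 (π z) = 0 ⟹ π z = 0 ⟹ z = s Fl z and Fl^k z = 0 (nil), so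
z = s^k Fl^k z = 0.  Surjective: given z, let y = T0⁻¹ (π z): y = s Φ y + π(z1), z1 = z - ∑ lam a y • k a.  Iterate: y = s^k Φ^k y + ∑_{i<k} s^i Φ^i π(z1) ∈ range π for k as in cok.  So y = π z2, and e = z - T1 z2 has π e = 0,
Fl^k e = 0 for some k; e' = ∑_{i<k} s^i Fl^i e has π e' = 0 and T1 e' = e' - s Fl e' = e.  So T1 (z2 + e') = z. -/
def StF1 : Prop :=
  ∀ (n : ℕ) (L : Type) [Ring L] [Algebra ℂ L] [StarRing L] [StarModule ℂ L] [Nontrivial L]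
    (D : Sys n L) (X0 : Set L) (m : MData n L), IsModel D X0 m →
    ∀ (s t : ℝ), 0 < t → ∀ (A : Type) [Fintype A] (v : A → L) (lam : A → (L →ₗ[ℂ] ℂ))
      (k : A → (Idx n m.r →₀ ℂ)), (∀ a, m.piV D t (k a) = v a) →
    Function.Bijective (fun y : L => y - (s : ℂ) • D.Phi (t : ℂ) y + ∑ a, lam a y • v a) →
    Function.Bijective (fun z : Idx n m.r →₀ ℂ =>
      z - (s : ℂ) • m.Fl t z + ∑ a, lam a (m.piV D t z) • k a)

/-- F2. Kernel vectors.  PROOF. G u is injective (Gge), so TT s u z = 0 iff z = s Ph z iff IsKer s (u^n1) z coordinatewise (Phs).  A square summable function is the coordinate function of an element of L2 (Idx)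
(memℓp for p = 2). -/
def StF2 : Prop :=
  ∀ (n : ℕ) (L : Type) [Ring L] [Algebra ℂ L] [StarRing L] [StarModule ℂ L] [Nontrivial L]
    (D : Sys n L) (m : MData n L) (J0 : Finset (Idx n m.r)) (P : OpPack D m J0) (s u : ℝ), 0 < u →
    ((∀ z, P.TT s u z = 0 → z = 0) ↔
      ∀ z : Idx n m.r → ℂ, (Summable fun i => ‖z i‖ ^ 2) → m.IsKer s (u ^ P.n1) z → z = 0) ∧
    (∀ z : Idx n m.r → ℂ, (Summable fun i => ‖z i‖ ^ 2) → m.IsKer s (u ^ P.n1) z →
      ∃ z' : L2 (Idx n m.r), (∀ i, z' i = z i) ∧ P.TT s u z' = 0)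

/-- F3. The estimate (C1).  PROOF. C from P.off; let ε be so small that t > 1 - ε, t ≤ 1 implies u = t^(1/n1) ≥ 1/2.  Let z be a kernel vector (F2), z = y + x, y its part off J, x its part on J.
0 = ⟨y, T z⟩ so (1 - s u) ‖y‖^2 ≤ re ⟨y, T y⟩ = - re ⟨y, T x⟩ ≤ C (1 - u) ‖y‖ ‖x‖ and 1 - s u ≥ 1 - u.  If u < 1: ‖y‖ ≤ C ‖x‖ (C ≥ 0 may be assumed).  If u = 1 then s < 1 and y = 0.
‖z‖^2 = ‖y‖^2 + ‖x‖^2 ≤ (C^2 + 1) ‖x‖^2. -/
def StF3 : Prop :=
  ∀ (n : ℕ) (L : Type) [Ring L] [Algebra ℂ L] [StarRing L] [StarModule ℂ L] [Nontrivial L]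
    (D : Sys n L) (m : MData n L) (J0 : Finset (Idx n m.r)) (_P : OpPack D m J0),
    ∃ (C ε : ℝ) (J : Finset (Idx n m.r)), 0 < ε ∧ ∀ s t : ℝ, 1 - ε < s → s ≤ 1 → 1 - ε < t → t ≤ 1 →
    (s, t) ≠ (1, 1) → ∀ z : Idx n m.r → ℂ, (Summable fun i => ‖z i‖ ^ 2) → m.IsKer s t z →
    ∑' i, ‖z i‖ ^ 2 ≤ C * ∑ i ∈ J, ‖z i‖ ^ 2

/-- F4. The function P.  PROOF. S from S1 (F0).  Continuity: S2 (TT is continuous in (s,u): Phc, Gc, composition of continuous linear maps is continuous).  Reality: S5 with C = Cop (u^n1): additive, conj-homogeneous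
(Cs and the formula for Cf), injective (CC), commutes with TT (CPh, CG, conj s = s), maps eb j, j ∈ J to the span: the swapped basis vector (Jsym) or a combination of indices of length < M2 (Csupp, JM2; inr ∈ J), and
vectors vanishing on J to such vectors (their inr coordinates are 0).  s = 0: TT 0 u = G u is hermitian ≥ 1: S6.  Nonvanishing: S3 and F2. -/
def StF4 : Prop :=
  ∀ (n : ℕ) (L : Type) [Ring L] [Algebra ℂ L] [StarRing L] [StarModule ℂ L] [Nontrivial L]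
    (D : Sys n L) (X0 : Set L) (m : MData n L), IsModel D X0 m →
    ∀ (J0 : Finset (Idx n m.r)) (P : OpPack D m J0),
    ∃ S : ℝ × ℝ → Matrix {i // i ∈ P.J} {i // i ∈ P.J} ℂ, ContinuousOn S Dom ∧
      (∀ x ∈ Dom, SchurRel (eJ P.J) (P.TT x.1 x.2) (S x)) ∧ (∀ x ∈ Dom, (S x).det.im = 0) ∧
      (∀ u : ℝ, 0 < u → u ≤ 1 → 0 < (S (0, u)).det.re) ∧
      (∀ x ∈ Dom, ((S x).det ≠ 0 ↔ ∀ z : Idx n m.r → ℂ, (Summable fun i => ‖z i‖ ^ 2) →
        m.IsKer x.1 (x.2 ^ P.n1) z → z = 0))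

/-- F5. Edges on the level of operators.  PROOF. Fix x ∈ U, s = sx x, u = ux x, t = u^n1, kk a = ∑_i k x a i eb i ∈ span of the eb i, ilen i < M2 (so in span of J by JM2, and G u kk a = kk a by Gsh), la a i = lam x a (piT t i), zero off J0 ⊆ J.
T0 = TT s u + ∑_a |kk a⟩⟨la a| = G u ∘ (1 - s Ph t + ∑_a |kk a⟩⟨la a|).  By F1 the operator in brackets maps the finitely supported vectors onto themselves (on them it is T1, as lam a (π z) = ∑_i z i la a i), so it has dense range and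
T0 has dense range (G u is invertible: hermitian ≥ 1).  T0 = TT on the complement of J, so T0 is coercive; S0 x = its Schur matrix (S1), det ≠ 0 (S4); continuity of S0: S2 (T0 depends continuously on x: finitely many continuous coordinates:
the k x a i for the finitely many i with ilen i < M2 and la a i for i ∈ J0).  z b ∈ Idx →₀ ℂ with T1 (z b) = k x b (F1): T0 z b = G u kk b = kk b; applying π: y = π(z b) satisfies the equation in (4), so la a (z b) = lam x a y = mm x a b.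
S7 gives det S = det S0 det (1 - mm x). -/
def StF5 : Prop :=
  ∀ (n : ℕ) (L : Type) [Ring L] [Algebra ℂ L] [StarRing L] [StarModule ℂ L] [Nontrivial L]
    (D : Sys n L) (X0 : Set L) (m : MData n L), IsModel D X0 m →
    ∀ (J0 : Finset (Idx n m.r)) (P : OpPack D m J0) (U : Set ℝ) (sx ux : ℝ → ℝ),
    ContinuousOn sx U → ContinuousOn ux U → (∀ x ∈ U, (sx x, ux x) ∈ Dom) →
    ∀ (A : Type) [Fintype A] [DecidableEq A] (v : A → L) (lam : ℝ → A → (L →ₗ[ℂ] ℂ))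
      (k : ℝ → A → (Idx n m.r →₀ ℂ)) (mm : ℝ → Matrix A A ℂ),
    (∀ x ∈ U, ∀ a, m.piV D (ux x ^ P.n1) (k x a) = v a ∧ ∀ i, k x a i ≠ 0 → ilen i < m.M2) →
    (∀ a i, ContinuousOn (fun x => k x a i) U) →
    (∀ x ∈ U, ∀ a, ∀ i ∉ J0, lam x a (m.piT D (ux x ^ P.n1) i) = 0) →
    (∀ a i, ContinuousOn (fun x => lam x a (m.piT D (ux x ^ P.n1) i)) U) →
    (∀ x ∈ U, Function.Bijective (fun y : L =>
      y - (sx x : ℂ) • D.Phi ((ux x ^ P.n1 : ℝ) : ℂ) y + ∑ a, lam x a y • v a)) →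
    (∀ x ∈ U, ∀ (b : A) (y : L), y - (sx x : ℂ) • D.Phi ((ux x ^ P.n1 : ℝ) : ℂ) y +
      ∑ a, lam x a y • v a = v b → ∀ a, lam x a y = mm x a b) →
    ∃ S0 : ℝ → Matrix {i // i ∈ P.J} {i // i ∈ P.J} ℂ, ContinuousOn S0 U ∧ ∀ x ∈ U,
      (S0 x).det ≠ 0 ∧ ∀ S, SchurRel (eJ P.J) (P.TT (sx x) (ux x)) S →
        S.det = (S0 x).det * (1 - mm x).det

/-- F6. Real and complex factors.  PROOF. Where h x ≠ 0: g x = f x / h x is real.  The set {x ∈ U : h x ≠ 0} is dense in U (U is an interval without isolated points, the complement is finite), g is continuous on U, so g is real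
on U.  Then g x = (g x).re ≠ 0. -/
def StF6 : Prop :=
  ∀ (a b : ℝ) (U : Set ℝ), a < b → (U = Set.Ico a b ∨ U = Set.Ioo a b) →
    ∀ (f g : ℝ → ℂ) (h : ℝ → ℝ), ContinuousOn g U → (∀ x ∈ U, g x ≠ 0) →
    (∀ x ∈ U, (f x).im = 0) → (∀ x ∈ U, f x = g x * (h x : ℂ)) → {x ∈ U | h x = 0}.Finite →
    (∀ x ∈ U, (g x).re ≠ 0) ∧ (∀ x ∈ U, (f x).re = (g x).re * h x)

/-- F7. The E-edge.  PROOF. F5 with U = [0,1), sx = id, ux = 1, A = Unit, v = 1, lam s () y = s n τ(y), k = lift of 1 at t = 1 (constant), mm = s n.  J0 contains all inr a; for words ν of length ≥ M ≥ 1: τ(ev 1 (w ν)) = τ(w ν) = 0,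
τ(star (w ν)) = 0, dummies: piT = 0.  (4): D.Phi 1 1 = ∑ star(x i) x i = n, so y = 1 solves the equation; by injectivity it is the only solution, lam = s n τ(1) = s n. -/
def StF7 : Prop :=
  ∀ (n : ℕ) (L : Type) [Ring L] [Algebra ℂ L] [StarRing L] [StarModule ℂ L] [Nontrivial L]
    (D : Sys n L) (X0 : Set L) (m : MData n L), IsModel D X0 m → (1 : L) ∈ X0 → EEdge D →
    ∀ (J0 : Finset (Idx n m.r)) (P : OpPack D m J0), (∀ a, (Sum.inr a : Idx n m.r) ∈ J0) →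
    ∃ S0 : ℝ → Matrix {i // i ∈ P.J} {i // i ∈ P.J} ℂ, ContinuousOn S0 (Set.Ico 0 1) ∧
      ∀ s ∈ Set.Ico (0 : ℝ) 1, (S0 s).det ≠ 0 ∧ ∀ S, SchurRel (eJ P.J) (P.TT s 1) S →
        S.det = (S0 s).det * (1 - (s : ℂ) * n)

/-- F8. The G-edge.  PROOF. F5 with U = (0,1), sx = 1, ux = id, t = u^n1 ∈ (0,1), A = V, lam u a = lam' (u^n1) a from GEdge, k u a = ∑_{j ∈ Z} t^j k_j(a) from the field lift for v a ∈ X0 (the k_j have lengths < M2),
mm u a b = t A_{ba}.  Continuity of lam (piT t i): piT t i is ev t (w ν) = ∑_j t^j p_j(w ν), a constant, or ∑_{j∈Z} t^j bb j a: finite sums of continuous functions times fixed elements.  Support: GEdge (l) with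
J0 ⊇ {ilen < l} and the inr a.  det (1 - t A^T) = det (1 - t A). -/
def StF8 : Prop :=
  ∀ (n : ℕ) (L : Type) [Ring L] [Algebra ℂ L] [StarRing L] [StarModule ℂ L] [Nontrivial L]
    (D : Sys n L) (X0 : Set L) (m : MData n L), IsModel D X0 m →
    ∀ (V : Type) [Fintype V] [DecidableEq V] (A : Matrix V V ℝ), GEdge D X0 A →
    ∃ J1 : Finset (Idx n m.r), ∀ (J0 : Finset (Idx n m.r)) (P : OpPack D m J0), J1 ⊆ J0 →
    ∃ S0 : ℝ → Matrix {i // i ∈ P.J} {i // i ∈ P.J} ℂ, ContinuousOn S0 (Set.Ioo 0 1) ∧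
      ∀ u ∈ Set.Ioo (0 : ℝ) 1, (S0 u).det ≠ 0 ∧ ∀ S, SchurRel (eJ P.J) (P.TT 1 u) S →
        S.det = (S0 u).det * (((1 - (u ^ P.n1) • A).det : ℝ) : ℂ)

/-- No kernel vectors near the corner (same as NoKer of helper80). -/
def NoKer' {n : ℕ} {L : Type} [Ring L] [Algebra ℂ L] [StarRing L] (m : MData n L) : Prop :=
  ∃ ε : ℝ, 0 < ε ∧ ∀ s t : ℝ, 1 - ε < s → s ≤ 1 → 1 - ε < t → t ≤ 1 →
    (s, t) ≠ (1, 1) → ∀ z : Idx n m.r → ℂ, (Summable fun i => ‖z i‖ ^ 2) → m.IsKer s t z → z = 0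

/-- No kernel vectors for small t. -/
def Base' {n : ℕ} {L : Type} [Ring L] [Algebra ℂ L] [StarRing L] (m : MData n L) : Prop :=
  ∃ t1 : ℝ, 0 < t1 ∧ ∀ t : ℝ, 0 < t → t ≤ t1 → ∀ s : ℝ, 0 ≤ s → s ≤ 1 → ∀ z : Idx n m.r → ℂ,
    (Summable fun i => ‖z i‖ ^ 2) → m.IsKer s t z → z = 0

/-- F9. THE SIGN.  PROOF. J1 from F8, J0 = J1 ∪ {inr a}, P an operator package for J0.  S from F4, P(s,u) = (det S(s,u)).re.  F7, F8, F6 give P00, P0 (h s = 1 - n s has one zero; h u = det(1 - u^n1 A) is a polynomial in u with value 1 at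
u = 0, so finitely many zeros).  Apply S8 with t replaced by u: q u = det (1 - u^n1 A), continuous, q 0 = 1 (n1 ≥ 1), q 1 = det (1 - A); nonvanishing for u small (Base', u^n1 ≤ u for u ≤ 1: u ≤ min(t1,1)) and near the corner (NoKer':
u > 1 - ε/n1 implies u^n1 > 1 - ε by Bernoulli); det S ≠ 0 means P ≠ 0 because det S is real. -/
def StF9 : Prop :=
  ∀ (n : ℕ) (L : Type) [Ring L] [Algebra ℂ L] [StarRing L] [StarModule ℂ L] [Nontrivial L]
    (D : Sys n L) (X0 : Set L) (m : MData n L), 2 ≤ n → IsModel D X0 m → (1 : L) ∈ X0 →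
    (∀ J0 : Finset (Idx n m.r), Nonempty (OpPack D m J0)) → NoKer' m → Base' m → EEdge D →
    ∀ (V : Type) [Fintype V] [DecidableEq V] (A : Matrix V V ℝ), GEdge D X0 A → (1 - A).det ≤ 0

end Pool.Agent.Helper99.SI
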