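import Pool.Agent.Helper99.SI.StA

set_option autoImplicit false

/-!
# Project SI: cyclic words (statements with complete proofs)
-/

namespace Pool.Agent.Helper99.SI

open Filter Topology

/-- Number of rotations taking a to b (if the lengths agree). -/
def rotc {n : ℕ} (a b : W n) : ℕ :=
  if a.length = b.length then ((Finset.range b.length).filter fun i => a.rotate i = b).card else 0

/-- K1. tauN on monomials.  PROOF. For |p| = N + i ≥ |β|: w α * star (w β) * w p = w (α p') if p = β p' and 0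
otherwise (A1).  The coefficient at p b = β p' b is 1 if α p' = β p' b.  This forces |α| = |β| + |b|, then β is an
initial segment of α, α = β c, |c| = |b| = k and c p' = p' b.  With m = |p'| = N + i - |β| the equation c p' = p' b
has exactly one solution p' (the first m letters of c c c ...) if c.rotate m = b, and none otherwise.  So tauN =
#{i < k : c.rotate (N + i - |β|) = b} = #{i < k : c.rotate i = b} (the rotation is periodic mod k). -/
def StK1 : Prop :=
  ∀ (n : ℕ) (L : Type) [Ring L] [Algebra ℂ L] [StarRing L] [StarModule ℂ L] [Nontrivial L]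
    (D : Sys n L) (b α β : W n) (N : ℕ), b ≠ [] → β.length ≤ N →
    (α.length = β.length + b.length → β = α.take β.length →
      D.tauN N b (D.w α * star (D.w β)) = (rotc (α.drop β.length) b : ℂ)) ∧
    (¬ (α.length = β.length + b.length ∧ β = α.take β.length) →
      D.tauN N b (D.w α * star (D.w β)) = 0)

/-- K2. The functional tau.  PROOF. tauN is additive and homogeneous in y (cf is linear); by D.span and K1 it is
eventually constant in N; tau is the eventual value.  The values: K1 with β = [] or α = [] (for α = []: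
|α| = |β| + |b| is impossible as b ≠ []). -/
def StK2 : Prop :=
  ∀ (n : ℕ) (L : Type) [Ring L] [Algebra ℂ L] [StarRing L] [StarModule ℂ L] [Nontrivial L]
    (D : Sys n L) (b : W n), b ≠ [] →
    (∀ y : L, ∃ N0 : ℕ, ∀ N ≥ N0, D.tauN N b y = D.tau b y) ∧
    (∀ y z : L, D.tau b (y + z) = D.tau b y + D.tau b z) ∧
    (∀ (c : ℂ) (y : L), D.tau b (c • y) = c * D.tau b y) ∧
    (∀ a : W n, D.tau b (D.w a) = (rotc a b : ℂ)) ∧
    (∀ a : W n, D.tau b (star (D.w a)) = 0) ∧
    (∀ α β : W n, α.length = β.length + b.length → β = α.take β.length →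
      D.tau b (D.w α * star (D.w β)) = (rotc (α.drop β.length) b : ℂ)) ∧
    (∀ α β : W n, ¬ (α.length = β.length + b.length ∧ β = α.take β.length) →
      D.tau b (D.w α * star (D.w β)) = 0)

/-- K3. tau is a trace.  PROOF. (1) tau b (x_i y) = tau b (y x_i) for y = w α * star (w β): if β = [] both are values
at the words iα and αi, which are rotations of each other (rotc is invariant).  If β = j β': y x_i = δ_ij w α *
star (w β'); and for iα = β c = j β' c one needs i = j, α = β' c; the two values agree by K2.  (2) tau b (x_i^* y) =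
tau b (y x_i^*): y x_i^* = w α * star (w (iβ)); if α = i α' then x_i^* y = w α' * star (w β) and iβ is initial in α iff
β is initial in α', same remainder; if α starts with another letter both are 0; if α = [] both are 0 (x_i^* star (w β) =
star (w (β i))).  (3) so tau b (u y) = tau b (y u) for u = x_i, x_i^* and all y; by induction for u a monomial
w α * star (w β), by linearity for all u.  The gauge statement: A2 and K2 on monomials. -/
def StK3 : Prop :=
  ∀ (n : ℕ) (L : Type) [Ring L] [Algebra ℂ L] [StarRing L] [StarModule ℂ L] [Nontrivial L]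
    (D : Sys n L) (b : W n), b ≠ [] →
    (∀ y z : L, D.tau b (y * z) = D.tau b (z * y)) ∧
    (∀ (l : ℤ) (y : L), D.tau b (D.g.p l y) = if l = b.length then D.tau b y else 0)

/-- K4. The commutator identity.  PROOF. With matrix entries A_ik = coefficient of e_i in A e_k: from A B = B A:
∑_{i ∈ J} ∑_k A_ik B_ki = ∑_{i ∈ J} ∑_k B_ik A_ki (finite sums, all k), and the parts k ∈ J are equal
(exchange i and k).  Here ∑_k A_ik B_ki over k ∉ J is the e_i coefficient of A applied to the part of B e_i outside J. -/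
def StK4 : Prop :=
  ∀ (X : Type) [AddCommGroup X] [Module ℂ X] (ι : Type) [DecidableEq ι] (e : Module.Basis ι ℂ X)
    (A B : X →ₗ[ℂ] X), A ∘ₗ B = B ∘ₗ A → ∀ J : Finset ι,
    ∑ i ∈ J, ∑ k ∈ (e.repr (B (e i))).support \ J, (e.repr (A (e k))) i * (e.repr (B (e i))) k =
    ∑ i ∈ J, ∑ k ∈ (e.repr (A (e i))).support \ J, (e.repr (B (e k))) i * (e.repr (A (e i))) k

/-- K5. sigN and tauN.  PROOF. Take N0 ≥ the levels (A4) of y and star y.  For |p| ≥ N0:
cf (y * w (p b)) p = ip (cf (y * emb (single (p b) 1))) (single p 1) = ip (single (p b) 1) (cf (star y * w p)) =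
star (cf (star y * w p) (p b)) (A6). -/
def StK5 : Prop :=
  ∀ (n : ℕ) (L : Type) [Ring L] [Algebra ℂ L] [StarRing L] [StarModule ℂ L] [Nontrivial L]
    (D : Sys n L) (b : W n) (y : L),
    ∃ N0 : ℕ, ∀ N ≥ N0, D.sigN N b y = star (D.tauN N b (star y))

/-- K6. PROOF. Let β = D.b.ev z.  U = {s ∈ S : β(w μ) * s ∈ S for all words μ} is a subspace of S containing Sge m0
(fields UL, A5); it is stable under right multiplication by words and under left multiplication by β(w a)
(β(w μ) β(w a) = β(w (μ a))).  For s ∈ U the part of length ≥ m0 is in Sge m0, so U = (U ∩ words of length < m0) + Sge m0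
and U has the basis: w ν, |ν| ≥ m0, and a finite basis f_1..f_r of U ∩ span(words of length < m0); for |ν| ≥ m0 the
coordinate at w ν is cf · ν.  Apply K4 with A = left multiplication by β(w a), B = right multiplication by w b,
J = {ν : m0 ≤ |ν| < N + |b|} and the f_i, N ≥ m0.  Right side: for k ∉ J, k = ν with |ν| ≥ N + |b|, B e_k = e_{ν b}, so
B_ik = 0 for i ∈ J.  Left side: the part of B e_i outside J is 0 for i = f_l (lengths < m0 + |b|) and for |ν| < N, and it is
e_{ν b} for N ≤ |ν| < N + |b|: the sum is ∑_{N ≤ |ν| < N+|b|} cf (β(w a) * w (ν b)) ν = sigN N b (β(w a)). -/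
def StK6 : Prop :=
  ∀ (n : ℕ) (L : Type) [Ring L] [Algebra ℂ L] [StarRing L] [StarModule ℂ L] [Nontrivial L]
    (D : Sys n L) (a b : W n) (z : ℂ), b ≠ [] → z ≠ 0 →
    ∃ N0 : ℕ, ∀ N ≥ N0, D.sigN N b (D.b.ev z (D.w a)) = 0

/-- K7. PROOF. For z ≠ 0: star (β_z (star (w a))) = β_{1/conj z} (w a) (A0), so by K5 and K6
tau b (β_z (star (w a))) = star (sigN N b (β_{1/conj z} (w a))) = 0 (N large, K2).  The left side is the Laurent polynomial
∑_j z^j tau b ((star (w a))_(j)) (finite sum, K2 linearity); it vanishes for all z ≠ 0, so all coefficients are 0. -/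
def StK7 : Prop :=
  ∀ (n : ℕ) (L : Type) [Ring L] [Algebra ℂ L] [StarRing L] [StarModule ℂ L] [Nontrivial L]
    (D : Sys n L) (a b : W n) (j : ℤ), b ≠ [] → D.tau b (D.b.p j (star (D.w a))) = 0

/-- Claim 1 at a fixed parameter (proved in the model part). -/
def StC1 : Prop :=
  ∀ (n : ℕ) (L : Type) [Ring L] [Algebra ℂ L] [StarRing L] [StarModule ℂ L] [Nontrivial L]
    (D : Sys n L) (t : ℂ), t ≠ 0 → ∀ M : ℕ, ∃ Fs : Finset L, ∀ γ q : W n,
      star (D.w γ) * D.b.ev t (D.w q) ∈ Submodule.span ℂ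
        ({y | ∃ ν : W n, M ≤ ν.length ∧ y = D.b.ev t (D.w ν)} ∪
          {y | ∃ ν : W n, M ≤ ν.length ∧ y = star (D.w ν)} ∪ (Fs : Set L))

/-- K8. The space X.  PROOF. Put β = D.b.ev z, t = z⁻¹.  β(star (w γ)) * w q = β(star (w γ) * β_t(w q)), so by StC1 (apply the
linear map β, β β_t = 1) X lies in the span of the words of length ≥ M, of the β(star (w ν)), |ν| ≥ M, and of a finite set.
Let M ≥ M0 where all words of length ≥ M0 have second degrees ≥ 1 (G1), M0 ≥ 1.  The families w ν and β(star (w ν)),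
|ν| ≥ M, lie in X, and together they are linearly independent: the span of the first has only components of b-degree ≥ 1,
the span of the second only of b-degree ≤ -1 (field st), and each is independent (A3; β is injective, star is injective).
X / (their span) is finite dimensional: choose e_1..e_r in X forming a basis of it.  Coordinates: clear. -/
def StK8 : Prop :=
  ∀ (n : ℕ) (L : Type) [Ring L] [Algebra ℂ L] [StarRing L] [StarModule ℂ L] [Nontrivial L]
    (D : Sys n L) (z : ℂ), z ≠ 0 → ∃ (M r : ℕ) (e : Fin r → L),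
      LinearIndependent ℂ (Sum.elim (Sum.elim (fun ν : {ν : W n // M ≤ ν.length} => D.w ν.1)
        (fun ν : {ν : W n // M ≤ ν.length} => D.b.ev z (star (D.w ν.1)))) e) ∧
      Submodule.span ℂ (Set.range (Sum.elim (Sum.elim
        (fun ν : {ν : W n // M ≤ ν.length} => D.w ν.1)
        (fun ν : {ν : W n // M ≤ ν.length} => D.b.ev z (star (D.w ν.1)))) e)) =
      Submodule.span ℂ (Set.range fun c : W n × W n => D.b.ev z (star (D.w c.1)) * D.w c.2)

/-- K9. Symmetry.  PROOF. Fix z ≠ 0, β = D.b.ev z, X and its basis from K8 (words ν, ghosts G_ν = β(star (w ν)), |ν| ≥ M, and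
e_1..e_r).  A = left multiplication by β(star (w a)) (A G_ν = G_{ν a}) and B = right multiplication by w b (B w_ν = w_{ν b})
map X to X and commute.  Apply K4 with J = {words M ≤ |ν| < N + |b|} + {ghosts M ≤ |ν| < N' + |a|} + {e_i}, N large and then
N' large.  Left side (k ∉ J in the support of B e_i, coefficient i of A e_k): k = ghost of length ≥ N' + |a|: A G_k is a longer ghost,
contributes 0.  k = word κ, |κ| ≥ N + |b|: N is so large that β(star (w a)) * w κ ∈ S with all lengths ≥ M (A4), so i is a word ν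
and B w_ν = w_{ν b}, κ = ν b, N ≤ |ν| < N + |b|: total ∑ cf (β(star (w a)) * w (ν b)) ν = sigN N b (β(star (w a))).  Right side:
k = long word: B w_k is longer, 0.  k = ghost κ, |κ| ≥ N' + |a|, in the support of A e_i: if i is a word of length < N + |b| or an
e_l, A e_i is one of finitely many elements, so it has no such components for N' large; i = ghost ν: κ = ν a, N' ≤ |ν| < N' + |a|, and
the coefficient of G_ν in G_{ν a} * w b = β(star (w (ν a)) * β_{1/z}(w b)) = β(star (star (β_{1/z}(w b)) * w (ν a))) is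
star (cf (star (β_{1/z}(w b)) * w (ν a)) ν): total star (sigN N' a (star (β_{1/z} (w b)))).  By K5, A0, K2:
star (tau b (β_{1/conj z} (w a))) = tau a (β_{1/z} (w b)), i.e. ∑_j z^(-j) (star (tau b ((w a)_(j))) - tau a ((w b)_(j))) = 0 for
all z ≠ 0; so all coefficients vanish. -/
def StK9 : Prop :=
  ∀ (n : ℕ) (L : Type) [Ring L] [Algebra ℂ L] [StarRing L] [StarModule ℂ L] [Nontrivial L]
    (D : Sys n L) (a b : W n) (j : ℤ), a ≠ [] → b ≠ [] →
    D.tau b (D.b.p j (D.w a)) = star (D.tau a (D.b.p j (D.w b)))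

/-- K10. Dual basis.  PROOF. β = D.b.ev z, U as in K6 (right ideal of S containing Sge m0, β(S) U ⊂ U).  S/U is spanned by the
classes of the words of length < m0; let e_1..e_c ∈ S be words whose classes form a basis, c ≤ (number of words of
length < m0).  e_i x_l = ∑_k A^l_ik e_k + u_il, 1 = ∑ α_i e_i + u_0, u_il, u_0 ∈ U.  Write A^ν = A^(ν_1) A^(ν_2) ...; then
e_i w_ν ≡ ∑ (A^ν)_ik e_k mod U, so A^ν = 0 for |ν| ≥ m0 (e_i Sge m0 ⊂ Sge m0 ⊂ U).  Put h_(j,l) = ∑_{|ν| < m0} (α A^ν)_j star (w (ν l)),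
g_(j,l) = u_jl, h_0 = 1, g_0 = u_0.  ∑_(j,l) g h = ∑_ν ∑_l [(α A^ν e) x_l star(w (ν l)) - (α A^(ν l) e) star (w (ν l))], where
αA^νe = ∑ (α A^ν)_j e_j; star (w (ν l)) = star (x_l) star (w ν), ∑_l x_l star (x_l) = 1; telescoping: = α e = 1 - u_0.  So ∑ g h = 1.
h U ⊂ S: for u = ∑ c_μ w_μ ∈ U: ∑ c_μ α A^μ = 0 (class of u).  star (w (ν l)) w_μ is a word (if ν l is initial in μ), 0, or, if μ is a proper
initial segment of ν l, μ ν' = ν: star (w (ν' l)).  The coefficient of star (w (ν' l)) in h_(j,l) u is ∑_μ c_μ (α A^μ A^ν')_j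
= 0 (terms with |μ| + |ν'| ≥ m0 vanish by nilpotency, so the restriction |ν| < m0 is harmless).  Hence h_p β(w μ) g_q ∈ h_p U ⊂ S. -/
def StK10 : Prop :=
  ∀ (n : ℕ) (L : Type) [Ring L] [Algebra ℂ L] [StarRing L] [StarModule ℂ L] [Nontrivial L]
    (D : Sys n L), ∃ D0 : ℕ, ∀ z : ℂ, z ≠ 0 → ∃ d ≤ D0, ∃ g h : Fin d → L,
      ∑ p, g p * h p = 1 ∧ ∀ (μ : W n) (p q : Fin d), h p * D.b.ev z (D.w μ) * g q ∈ D.S

/-- K11. Traces of powers.  PROOF. Let λ_i(k), i < d k ≤ D0, be the eigenvalues of R k with multiplicity; tr (R k)^m = ∑ λ_i^m.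
Suppose Λ_k = max |λ_i(k)| does not tend to 0: along a subsequence Λ_k ≥ ε, d k = d constant, λ_i(k)/Λ_k → μ_i, max |μ_i| = 1,
and ∑ μ_i^m = lim tr (R k)^m / Λ_k^m = 0 for all m ≥ m1.  Grouping equal nonzero μ's: ∑_v c_v v^m = 0 for m ≥ m1 with distinct
v ≠ 0 and positive integers c_v; Vandermonde: c_v = 0, contradiction.  So Λ_k → 0 and |tr R k| ≤ D0 Λ_k → 0. -/
def StK11 : Prop :=
  ∀ (D0 m1 : ℕ) (d : ℕ → ℕ) (R : ∀ k, Matrix (Fin (d k)) (Fin (d k)) ℂ), (∀ k, d k ≤ D0) →
    (∀ m ≥ m1, Tendsto (fun k => ((R k) ^ m).trace) atTop (𝓝 0)) →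
    Tendsto (fun k => (R k).trace) atTop (𝓝 0)

/-- K12. Traces separate cyclic words.  PROOF. c = c_0 ... c_(k-1), k ≥ 1, T ∈ ℂ, t_0 = T, t_l = 1 for l ≠ 0.  On ℂ^k (indices mod k) let
X_i = ∑_{l : c_l = i} t_l E_(l, l+1).  For a word μ of length m, X_μ has (l, l') entry ∏_{s<m} t_(l+s) if l' = l + m and
μ_s = c_(l+s) for all s < m, otherwise 0.  So tr X_μ = 0 unless k divides m, and for m = q k it is T^q #{l < k : μ_s = c_(l+s) ∀ s}.
So the hypothesis gives a polynomial in T vanishing for all T; the coefficient of T is ∑_{|μ| = k} f_μ #{l < k : c.rotate l = μ}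
= ∑_{|μ|=k} f_μ rotc μ c. -/
def StK12 : Prop :=
  ∀ (n : ℕ) (f : W n →₀ ℂ),
    (∀ (d : ℕ) (X : Fin n → Matrix (Fin d) (Fin d) ℂ),
      f.sum (fun μ r => r * ((μ.map X).prod).trace) = 0) →
    ∀ c : W n, c ≠ [] → f.sum (fun μ r => r * (rotc μ c : ℂ)) = 0

/-- K13. PROOF. Let a ≠ [] (for a = []: w [] = 1 has only the component j = 0 and tau b 1 = 0), z_k = 1/(k+1), and d, g, h from K10 for z = z_k.
For y = β_z(w μ) put M(μ) = (h_p y g_q)_(p,q), a matrix over S, M(μ) M(ν) = M(μ ν) (∑ g h = 1).  Fix matrices X_i of size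
d' and evaluate (w_ν ↦ X_ν, via cf): ρ(μ), a matrix of size d d' (blocks), ρ(a)^m = ρ(a^m) for m ≥ 1.  Let s_m = ∑_p h_p β_z(w (a^m)) g_p ∈ S:
tau c (s_m) = tau c (β_z (w (a^m))) for c ≠ [] (trace, ∑ g h = 1).  Constant term of s_m is 0: take X = 0, d' = 1: the matrix of constant
terms of M(a) has m-th power = constant terms of M(a^m) = 0 for m large (gauge degrees: by G2 β_z(w(a^m)) has gauge degrees ≥ any
given number, h, g are fixed), so it is nilpotent, trace 0; same for a^m.  For s ∈ S with constant term 0: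
tr X(s) := ∑_ν cf s ν tr X_ν = ∑_{c ≠ []} (1/|c|) tau c (s) tr X_c (finite sum; tau c (w_ν) = rotc ν c and tr X_ν is rotation invariant).  So
tr ρ(a)^m = ∑_c (1/|c|) tau c (β_z (w (a^m))) tr X_c = ∑_j z^j χ_j(m), χ_j(m) = ∑_c (1/|c|) tau c ((w (a^m))_(j)) tr X_c (the sum runs
over finitely many c, those with |c| a gauge degree of some component of w (a^m), independent of z: K3).  By G1 there is m1 ≥ 1 such that
for m ≥ m1 only j ≥ 1 occur: tr ρ_k(a)^m → 0 as k → ∞.  By K11 (sizes ≤ D0 d') tr ρ_k(a) = ∑_j z_k^j χ_j(1) → 0, which forces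
χ_j(1) = 0 for j ≤ 0 (Laurent polynomial at z_k → 0).  So for f := ∑_c (1/|c|) tau c ((w a)_(j)) single c (j ≤ 0) the hypothesis of K12 holds for all
X, and K12 gives ∑_c (1/|c|) tau c ((w a)_(j)) rotc c b = 0; since tau c is constant on rotations of c this is tau b ((w a)_(j)) (|b| rotations
counted by rotc, for each i < |b| one c). -/
def StK13 : Prop :=
  ∀ (n : ℕ) (L : Type) [Ring L] [Algebra ℂ L] [StarRing L] [StarModule ℂ L] [Nontrivial L]
    (D : Sys n L) (a b : W n) (j : ℤ), b ≠ [] → j ≤ 0 → D.tau b (D.b.p j (D.w a)) = 0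

/-- K14. Replacing an element of L by an element of S.  PROOF. By linearity y = w α * star (w β).  y is star (w β) * w α plus a
commutator.  star (w β) * w α is a word, a ghost word or 0 (A1).  b.p i maps a commutator [u,v] to ∑_l [u_(l), v_(i-l)] (A0), which is
killed by tau c (K3).  For a ghost word: K7.  So if star (w β) w α is a word w_μ take w = single μ, otherwise w = 0. -/
def StK14 : Prop :=
  ∀ (n : ℕ) (L : Type) [Ring L] [Algebra ℂ L] [StarRing L] [StarModule ℂ L] [Nontrivial L]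
    (D : Sys n L) (y : L), ∃ w : W n →₀ ℂ, ∀ (c : W n) (i : ℤ), c ≠ [] →
      D.tau c (D.b.p i y) = D.tau c (D.b.p i (D.emb w))

/-- K15. The form h.  PROOF. tau c (w a) = rotc a c (K2).  hf u v = ∑_k ∑_{i<k} ∑_{|a|=k} u a * star (v (a.rotate i)) (k ≥ 1).  For u = v the
k-part is (1/k) ∑_{|c|=k} |∑_{i<k} u (c.rotate i)|^2 ≥ 0 (rotations form the group ℤ/k).  The second formula: if v is rotation
invariant then the sum over i gives |a| times the same value. -/
def StK15 : Prop :=
  ∀ (n : ℕ) (L : Type) [Ring L] [Algebra ℂ L] [StarRing L] [StarModule ℂ L] [Nontrivial L]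
    (D : Sys n L) (u v : W n →₀ ℂ), u [] = 0 → v [] = 0 →
    (0 ≤ (D.hf u u).re ∧ (D.hf u u).im = 0) ∧
    ((∀ (c : W n) (i : ℕ), v (c.rotate i) = v c) →
      D.hf u v = u.sum fun a r => (a.length : ℂ) * (r * star (v a)))

/-- K16. Positivity of the second grading.  PROOF. For j ∈ ℤ let q_j = qf j; df = ∑_j j q_j, hf = ∑_j q_j (finite sums over the degrees of the
finitely many words involved; K2 linearity).  q_j(u,v) = ∑_c star (v c) tau c (p_j (emb u)).  q_j hermitian: K9.  q_j(u,u) ≥ 0: by K14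
applied to y = p_j (emb u) there is w (we may take w [] = 0 since tau c 1 = 0, p i 1 is 1 or 0) with tau c (p_i (p_j (emb u))) = tau c (p_i (emb w)) for all i, c ≠ [].  Hence
tau c (p_j (emb w)) = tau c (p_j (emb u)) and, summing over i, tau c (emb w) = tau c (p_j (emb u)).  So q_j(u,u) = ∑ star (u c) tau c (p_j (emb w))
= q_j(w,u) = star (q_j(u,w)) = star (∑ star (w c) tau c (p_j (emb u))) = star (∑ star (w c) tau c (emb w)) = star (hf w w) ≥ 0 (K15).
q_j = 0 for j ≤ 0 (K13).  So re df(u,u) = ∑_{j≥1} j q_j(u,u) ≥ ∑_{j≥1} q_j(u,u) = hf(u,u). -/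
def StK16 : Prop :=
  ∀ (n : ℕ) (L : Type) [Ring L] [Algebra ℂ L] [StarRing L] [StarModule ℂ L] [Nontrivial L]
    (D : Sys n L) (u : W n →₀ ℂ), u [] = 0 → (D.hf u u).re ≤ (D.df u u).re

end Pool.Agent.Helper99.SI
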