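import Pool.Agent.Helper99.SI.StK
import Pool.Agent.Helper99.SI.Defs3

set_option autoImplicit false

/-!
# Project SI: the model (statements with complete proofs)

LL L = L[t,1/t], AA = C[t,1/t], bt(y) = sum t^j y_(j).
-/

namespace Pool.Agent.Helper99.SI

open LaurentPolynomial

/-- M0. Basic facts on LL.  PROOF. Coefficients.  bt is multiplicative by the product rule (A0), C(y) = ∑ C(y_(j)) =
∑ T^(-j) bt(y_(j)) since bt(y_(j)) = T^j C(y_(j)).  evl t is multiplicative for t ≠ 0 and evl t (a • y) = evA t a • evl t y.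
Twist: θ(y) = ∑ T^j bt(y_j) is AA-linear, its inverse is ∑ T^j (∑_i T^(-i) (y_j)_(i)).  If evl t y = 0 then T 1 - C t divides y:
polynomial division by T - t in each degree (multiply by a power of T first). -/
def StM0 : Prop :=
  ∀ (L : Type) [Ring L] [Algebra ℂ L] [StarRing L] [StarModule ℂ L] (B : ZGr L),
    (∀ y z : L, B.bt (y * z) = B.bt y * B.bt z) ∧ B.bt 1 = 1 ∧
    (∀ y z : L, B.bt (y + z) = B.bt y + B.bt z) ∧
    (∀ (c : ℂ) (y : L), B.bt (c • y) = (C c : AA) • B.bt y) ∧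
    (∀ y : L, (C y : LL L) = ∑ᶠ j : ℤ, (T (-j) : AA) • B.bt (B.p j y)) ∧
    (∀ (t : ℂ) (y z : LL L), t ≠ 0 → evl t (y * z) = evl t y * evl t z) ∧
    (∀ (t : ℂ) (y z : LL L), evl t (y + z) = evl t y + evl t z) ∧
    (∀ (t : ℂ) (a : AA) (y : LL L), t ≠ 0 → evl t (a • y) = evA t a • evl t y) ∧
    (∀ (t : ℂ) (y : L), evl t (B.bt y) = B.ev t y) ∧
    (∀ (t : ℂ) (y : L), evl t (C y) = y) ∧
    (∃ θ : LL L ≃ₗ[AA] LL L, ∀ y : L, θ (C y) = B.bt y) ∧
    (∀ (t : ℂ) (y : LL L), t ≠ 0 → evl t y = 0 → ∃ w : LL L, y = (T 1 - C t : AA) • w)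

/-- M1. Subspaces.  PROOF. (i) y = ∑ T^j C(y_j).  (ii) If a ≠ 0 and all coefficients of a • y lie in V: let m be the lowest exponent
of a, suppose some coefficient of y is not in V, k the lowest such index; the coefficient of a • y at m + k is a_m y_k + ∑_{i>m} a_i
y_(m+k-i), the sum is in V, so a_m y_k ∈ V, contradiction. -/
def StM1 : Prop :=
  ∀ (L : Type) [Ring L] [Algebra ℂ L] (V : Submodule ℂ L),
    (∀ y : LL L, y ∈ Submodule.span AA ((fun v : L => (C v : LL L)) '' (V : Set L)) ↔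
      ∀ j, y.coeff j ∈ V) ∧
    (∀ (a : AA) (y : LL L), a ≠ 0 → (∀ j, (a • y).coeff j ∈ V) → ∀ j, y.coeff j ∈ V)

/-- M2. The ring AA.  PROOF. AA is the localization of the principal ideal domain ℂ[X] at the powers of X
(LaurentPolynomial.isLocalization): an ideal of AA is extended from ℂ[X] (IsLocalization.map_comap), so it is principal. -/
def StM2 : Prop := IsDomain AA ∧ IsPrincipalIdealRing AA

/-- M3. CLAIM 1.  PROOF.  Write S_A for the set of y ∈ LL with all coefficients in S = span of words, and COMBINATION for AA-linear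
combination.  (T) For a fixed y ∈ LL there is a finite set F_y such that C(star (w γ)) * y ∈ span(ghosts C(star (w ν)), |ν| ≥ M, and F_y) for
all γ.  Indeed choose l with y_j w κ ∈ S for |κ| = l and all coefficients y_j (A4); y = ∑_{|κ|=l} y C(w κ) C(star (w κ)) is a finite
combination of C(w σ * star (w κ)), |κ| = l, σ in a finite set; star (w γ) * w σ is 0, a word shorter than σ (finitely many results), or a ghost
word star (w γ') with γ = σ γ', and star (w γ') * star (w κ) = star (w (κ γ')): in the ghosts if |κ γ'| ≥ M, finitely many otherwise.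
(1) elements with |q| < m: finitely many y = C x * bt (w q), use (T).  (2) Let l0 be such that x * w q0 ∈ S for all x ∈ X0, |q0| ≥ l0.  For
|q| ≥ l0, q = q0 q', |q0| = l0: C x * bt (w q) = bt(x * w q) (x has degree 0) is a combination of bt (w (ρ q')).  So it is enough to treat
x = 1 and |q| ≥ m' := m2 + m0 (take m = m' + l0).  (3) m2: such that p_j (star (w κ)) * w q2 ∈ S for all |κ| = m0, |q2| = m2, all j (A4,
finitely many).  q = q1 q2 q3, |q2| = m2, |q3| = m0.  C(star (w κ)) * bt (w q2) = ∑_j T^(-j) bt(p_j(star (w κ)) * w q2) (M0) is a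
combination of bt (w ρ), so C(star (w κ)) * bt (w (q2 q3)) is a combination of bt (w (ρ q3)).  (4) bt (w q1) = ∑_{|κ|=m0} bt (w q1) C(w κ)
C(star (w κ)), bt (w q1) C (w κ) ∈ S_A by UL, a combination of words C (w σ).  So C(star (w γ)) bt (w q) is a combination of
C(star (w γ) w σ) * C(star (w κ)) bt (w (q2 q3)).  If star (w γ) w σ = w τ: C(w τ) * bt (w (ρ q3)) = ∑_j T^(-j) bt(p_j(w τ) * w (ρ q3)) and
p_j(w τ) * w (ρ q3) ∈ S by UL (|ρ q3| ≥ m0), so it is a combination of bt (w ν), those with |ν| < M are finitely many.  If it is star (w γ'):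
C(star (w (κ γ'))) * bt (w (q2 q3)) with |q2 q3| = m' fixed: finitely many y = bt (w q''), use (T). -/
def StM3 : Prop :=
  ∀ (n : ℕ) (L : Type) [Ring L] [Algebra ℂ L] [StarRing L] [StarModule ℂ L] [Nontrivial L]
    (D : Sys n L) (X0 : Set L), X0.Finite → (∀ x ∈ X0, D.b.p 0 x = x) → ∀ M : ℕ,
    ∃ Fs : Finset (LL L), D.YY X0 ≤ D.PN M ⊔ Submodule.span AA (Fs : Set (LL L))

/-- M4. Claim 1 at a fixed parameter.  PROOF. M3 with X0 = {1}: apply evl t (additive, multiplicative, evl t (a • y) = evA t a • evl t y) to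
C(star (w γ)) * bt (w q) ∈ YY; Fs is replaced by its image under evl t. -/
def StM4 : Prop := StC1

/-- M5. CLAIM 2.  PROOF. Use the projections of LL onto the coefficientwise b-degrees ≥ 1 and ≤ -1 (AA-linear).  bt (w ν), |ν| ≥ M, has
coefficients of degree ≥ 1 and C(star (w ν)) of degree ≤ -1 (field st).  (a) Independence: the P-part: apply θ⁻¹ (M0) to ∑ a_ν bt (w ν) = 0:
∑ a_ν C (w ν) = 0, so all coefficients vanish by A3; the N-part: star is injective and antilinear, coefficients, A3.  (b) Saturation: let a • w ∈ PN M,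
w = w_+ + w_0 + w_-; a • w_0 = 0 so w_0 = 0 (M1 with V = 0); a • w_+ is in the P-part: θ⁻¹ gives a • θ⁻¹(w_+) with all coefficients in Sge M, M1(ii)
gives θ⁻¹(w_+) with coefficients in Sge M, so w_+ in the P-part; similarly w_-. -/
def StM5 : Prop :=
  ∀ (n : ℕ) (L : Type) [Ring L] [Algebra ℂ L] [StarRing L] [StarModule ℂ L] [Nontrivial L]
    (D : Sys n L) (M : ℕ), (∀ μ : W n, M ≤ μ.length → ∀ i < (1 : ℤ), D.b.p i (D.w μ) = 0) →
    LinearIndependent AA (Sum.elim (fun ν : {ν : W n // M ≤ ν.length} => D.b.bt (D.w ν.1))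
      (fun ν : {ν : W n // M ≤ ν.length} => (C (star (D.w ν.1)) : LL L))) ∧
    ∀ (a : AA) (w : LL L), a ≠ 0 → a • w ∈ D.PN M → w ∈ D.PN M

/-- M6. The basis of Y.  PROOF. 1 ∈ X0 so PN M ⊂ YY.  Q = YY / PN M (as AA-modules) is contained in (PN ⊔ span Fs)/PN, finitely generated over
the Noetherian ring AA, so Q is finitely generated; torsion free by M5; hence free of finite rank r (Module.free_of_finite_type_torsion_free',
M2).  Lift a basis of Q to b_1..b_r ∈ YY; together with the independent family of M5, a basis of PN M, this is a basis of YY. -/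
def StM6 : Prop :=
  ∀ (n : ℕ) (L : Type) [Ring L] [Algebra ℂ L] [StarRing L] [StarModule ℂ L] [Nontrivial L]
    (D : Sys n L) (X0 : Set L) (M : ℕ), X0.Finite → (∀ x ∈ X0, D.b.p 0 x = x) → (1 : L) ∈ X0 →
    (∀ μ : W n, M ≤ μ.length → ∀ i < (1 : ℤ), D.b.p i (D.w μ) = 0) →
    ∃ r : ℕ, Nonempty (YBas D X0 M r)

/-- M7. Phi and C on Y.  PROOF. PhiL(C(star (w γ)) C x bt (w q)) = ∑_i C(star (w (γ i))) C x bt (w (q i)).  CL is additive, CL(a • y) = conj(a) • CL y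
(conjugate coefficients), CL(T^j C y) = T^j bt(star y), CL(bt y) = ∑_j T^j bt(star(p_j y)) = ∑_j T^j T^(-j) C(star (p_j y)) = C(star y) (star (p_j y) has
degree -j), CL(y z) = CL z * CL y, so CL(C(star (w γ)) C x bt (w q)) = C(star (w q)) C x bt (w γ) (star x = x, bt x = C x).  CL (CL y) = y on the
elements T^j C y: CL(T^j bt(star y)) = T^j C(star (star y)).  CL commutes with PhiL: CL(C(star x_i) y bt(x_i)) = C(star x_i) CL(y) bt(x_i).
Formulas: C(star (x i)) = ∑_j T^(-j) bt(p_j(star (x i))) = ∑_j T^j bt(star (p_j (x i))).  evl t (CL y) = ev t (star (evl t y)) for real t ≠ 0. -/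
def StM7 : Prop :=
  ∀ (n : ℕ) (L : Type) [Ring L] [Algebra ℂ L] [StarRing L] [StarModule ℂ L] [Nontrivial L]
    (D : Sys n L) (X0 : Set L), (∀ x ∈ X0, D.b.p 0 x = x ∧ star x = x) →
    (∀ y ∈ D.YY X0, D.PhiL y ∈ D.YY X0) ∧ (∀ y ∈ D.YY X0, D.CL y ∈ D.YY X0) ∧
    (∀ y z, D.CL (y + z) = D.CL y + D.CL z) ∧
    (∀ (c : ℂ) (j : ℤ) (y : LL L), D.CL ((C c * T j : AA) • y) = (C (star c) * T j : AA) • D.CL y) ∧
    (∀ y, D.CL (D.CL y) = y) ∧ (∀ y, D.CL (D.PhiL y) = D.PhiL (D.CL y)) ∧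
    (∀ y : L, D.CL (D.b.bt y) = C (star y)) ∧ (∀ y : L, D.CL (C y) = D.b.bt (star y)) ∧
    (∀ (t : ℝ) (y : LL L), t ≠ 0 → evl (t : ℂ) (D.CL y) = D.b.ev (t : ℂ) (star (evl (t : ℂ) y))) ∧
    (∀ (t : ℂ) (y : LL L), t ≠ 0 → evl t (D.PhiL y) = D.Phi t (evl t y)) ∧
    (∀ ν : W n, D.PhiL (D.b.bt (D.w ν)) = ∑ i, ∑ᶠ j : ℤ,
      (T j : AA) • D.b.bt (star (D.b.p j (D.x i)) * D.w ν * D.x i)) ∧
    (∀ ν : W n, D.PhiL (C (star (D.w ν))) = ∑ i, ∑ᶠ j : ℤ,
      (T j : AA) • (C (star (star (D.b.p j (D.x i)) * D.w ν * D.x i)) : LL L))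

/-- M8. Powers of Phi map everything to Y.  PROOF. By AA-linearity y = C y0 (finitely many coefficients, and YY is Phi-stable, M7).
PhiL^k (C y0) = ∑_{|μ|=k} C(star (w μ)) C(y0) bt(w μ) (induction), C(y0) bt (w μ) = ∑_i T^(-i) bt(p_i y0 * w μ), and for k ≥ the levels of
the p_i y0 (A4) p_i y0 * w μ ∈ S, so this is a combination of C(star (w μ)) bt (w ν) ∈ YY (1 ∈ X0). -/
def StM8 : Prop :=
  ∀ (n : ℕ) (L : Type) [Ring L] [Algebra ℂ L] [StarRing L] [StarModule ℂ L] [Nontrivial L]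
    (D : Sys n L) (X0 : Set L), (∀ x ∈ X0, D.b.p 0 x = x ∧ star x = x) → (1 : L) ∈ X0 →
    ∀ y : LL L, ∃ k : ℕ, ∀ k' ≥ k, (D.PhiL ^ k') y ∈ D.YY X0

/-- Standing assumptions for the fields of the model. -/
def ModHyp {n : ℕ} {L : Type} [Ring L] [Algebra ℂ L] [StarRing L] (D : Sys n L) (X0 : Set L)
    (M M2 : ℕ) : Prop :=
  X0.Finite ∧ (∀ x ∈ X0, D.b.p 0 x = x ∧ star x = x) ∧ (1 : L) ∈ X0 ∧ 1 ≤ M ∧ M ≤ M2 ∧
  (∀ μ : W n, M ≤ μ.length → ∀ i < (1 : ℤ), D.b.p i (D.w μ) = 0) ∧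
  (∀ ν : W n, M2 ≤ ν.length → ∀ (j : ℤ) (i : Fin n), star (D.b.p j (D.x i)) * D.w ν ∈ D.Sge M)

/-- M9. The exponents.  PROOF. Let B be the basis.  For |ν| ≥ M2: PhiL(bt (w ν)) = ∑_j T^j bt(emb (acol j ν)) (M7, lev) is the combination with
coordinates T^j (acol j ν) at the long words: exponents in the finite set {j : p_j (x i) ≠ 0 for some i}; same for the ghosts
(coordinates conj(acol)).  The remaining basis vectors are finitely many (words of length in [M, M2) and b), each column has finitely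
many entries, each entry finitely many exponents.  Same for CL (b a), b a and (T(0) coefficient) the coordinates of C x, x ∈ X0. -/
def StM9 : Prop :=
  ∀ (n : ℕ) (L : Type) [Ring L] [Algebra ℂ L] [StarRing L] [StarModule ℂ L] [Nontrivial L]
    (D : Sys n L) (X0 : Set L) (M M2 r : ℕ) (B : YBas D X0 M r), ModHyp D X0 M M2 →
    ∃ Z : Finset ℤ, (∀ j ∉ Z, ∀ i, D.b.p j (D.x i) = 0) ∧
      (∀ j ∉ Z, ∀ i, (B.mk' M2 Z).F j i = 0) ∧ (∀ j ∉ Z, ∀ a, (B.mk' M2 Z).Cm j a = 0) ∧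
      (∀ j ∉ Z, ∀ a, (B.mk' M2 Z).bb j a = 0) ∧ (∀ j ∉ Z, ∀ x ∈ X0, B.co j (C x) = 0)

/-- M10. Long columns and dummies.  PROOF. The formulas of M7 and M9; the coordinates of PhiL(bt (w ν)) with respect to the basis are read off from
PhiL(bt (w ν)) = ∑_j T^j bt(emb (acol j ν)), where emb (acol j ν) = ∑_i star (p_j (x i)) w ν x i ∈ Sge M (lev, A3).  emI has image the
nondummy indices.  dum: definition of mk'.  band: for long columns: A4 for the finitely many elements star (p_j (x i)), for the other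
columns (finitely many, finite support) take c large. -/
def StM10 : Prop :=
  ∀ (n : ℕ) (L : Type) [Ring L] [Algebra ℂ L] [StarRing L] [StarModule ℂ L] [Nontrivial L]
    (D : Sys n L) (X0 : Set L) (M M2 r : ℕ) (B : YBas D X0 M r) (Z : Finset ℤ), ModHyp D X0 M M2 →
    (∀ j ∉ Z, ∀ i, (B.mk' M2 Z).F j i = 0) →
    (∀ j, ∀ ν : W n, M2 ≤ ν.length →
      (B.mk' M2 Z).F j (Sum.inl (Sum.inl ν)) = (D.acol j ν).mapDomain (fun μ => Sum.inl (Sum.inl μ)) ∧
      (B.mk' M2 Z).F j (Sum.inl (Sum.inr ν)) =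
        ((D.acol j ν).mapRange star (star_zero ℂ)).mapDomain fun μ => Sum.inl (Sum.inr μ)) ∧
    (∀ j, ∀ ν : W n, ν.length < M →
      (B.mk' M2 Z).F j (Sum.inl (Sum.inl ν)) = 0 ∧ (B.mk' M2 Z).F j (Sum.inl (Sum.inr ν)) = 0 ∧
      ∀ i, (B.mk' M2 Z).F j i (Sum.inl (Sum.inl ν)) = 0 ∧
        (B.mk' M2 Z).F j i (Sum.inl (Sum.inr ν)) = 0) ∧
    (∃ c : ℕ, ∀ j i i', (B.mk' M2 Z).F j i i' ≠ 0 → ilen i' ≤ ilen i + c ∧ ilen i ≤ ilen i' + c)

/-- M11. Evaluation.  PROOF. Let m = mk'.  For y ∈ YY with all coordinate exponents in Z, put v_t = ∑_{j ∈ Z} t^j co j y: piV t v_t = evl t y, because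
y = ∑_i a_i e_i, evl t y = ∑ evA t (a_i) evl t (e_i), evA t a = ∑_{j ∈ Z} a_j t^j and evl t (e_i) = piT t (emI i) (bt (w ν) ↦ ev t (w ν), ghosts,
b).  Apply this to y = PhiL e_i: piV t (Fc t i) = evl t (PhiL e_i) = Phi t (piT t i) (M7), for dummies both sides are 0.  fpi by linearity. -/
def StM11 : Prop :=
  ∀ (n : ℕ) (L : Type) [Ring L] [Algebra ℂ L] [StarRing L] [StarModule ℂ L] [Nontrivial L]
    (D : Sys n L) (X0 : Set L) (M M2 r : ℕ) (B : YBas D X0 M r) (Z : Finset ℤ), ModHyp D X0 M M2 →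
    (∀ j ∉ Z, ∀ i, (B.mk' M2 Z).F j i = 0) → (∀ j ∉ Z, ∀ a, (B.mk' M2 Z).bb j a = 0) →
    (∀ (t : ℝ) (y : LL L), 0 < t → y ∈ D.YY X0 → (∀ j ∉ Z, B.co j y = 0) →
      (B.mk' M2 Z).piV D t (∑ j ∈ Z, (t : ℂ) ^ j • B.co j y) = evl (t : ℂ) y) ∧
    (∀ t : ℝ, 0 < t → ∀ z, (B.mk' M2 Z).piV D t ((B.mk' M2 Z).Fl t z) =
      D.Phi t ((B.mk' M2 Z).piV D t z))

/-- M12. Claims 3 and 4.  PROOF. For a finitely supported z let z' be its nondummy part and Y(z) = ∑ z_i e_i ∈ YY (constant coefficients): evl t Y(z) = piV t z.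
More generally for y ∈ YY let v(y) ∈ (Idx →₀ ℂ) be the evaluation at t of its coordinates (evA t of each coordinate, indices via emI).  v(PhiL y) = Fl t (v y)
(both are linear over evaluation; check on the basis; here Fc t i = ∑_{j∈Z} t^j F j i is the evaluation of the coordinates of PhiL e_i as F j i = 0 for
j ∉ Z).  NIL: let piV t z = 0; then Fl t z = Fl t z' = v(PhiL Y(z)) and evl t Y(z) = 0 so Y(z) = (T - t) w, w ∈ LL (M0); by M8 PhiL^k w ∈ YY for some k ≥ 1;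
(Fl t)^k z = v(PhiL^k Y(z)) = v((T - t) PhiL^k w) = evA t (T - t) v(..) = 0.  COK: y ∈ L: PhiL^k (C y) ∈ YY for some k, evl t of it is Phi^k y
(M7) and equals piV t (v(PhiL^k (C y))). -/
def StM12 : Prop :=
  ∀ (n : ℕ) (L : Type) [Ring L] [Algebra ℂ L] [StarRing L] [StarModule ℂ L] [Nontrivial L]
    (D : Sys n L) (X0 : Set L) (M M2 r : ℕ) (B : YBas D X0 M r) (Z : Finset ℤ), ModHyp D X0 M M2 →
    (∀ j ∉ Z, ∀ i, (B.mk' M2 Z).F j i = 0) → (∀ j ∉ Z, ∀ a, (B.mk' M2 Z).bb j a = 0) →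
    (∀ t : ℝ, 0 < t → ∀ z, (B.mk' M2 Z).piV D t z = 0 →
      ∃ k : ℕ, ((B.mk' M2 Z).Fl t ^ k) z = 0) ∧
    (∀ t : ℝ, 0 < t → ∀ y : L, ∃ (k : ℕ) (z : Idx n r →₀ ℂ),
      (D.Phi t ^ k) y = (B.mk' M2 Z).piV D t z)

/-- M13. The involution.  PROOF. Cl t corresponds to CL: for y ∈ YY with coordinate evaluation v(y) (see M12) one has v(CL y) = Cl t (v y) (t real; check on the basis:
CL(bt (w ν)) = C(star (w ν)), CL(C (star (w ν))) = bt (w ν), CL(b a) has coordinates Cm j a; CL is conjugate linear over AA and evA t (conj a) =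
conj (evA t a)).  Dummies: Cl t exchanges the two dummy copies, Fl t kills them and has no dummy coordinates.  Cinv, Ccomm, Cpi from M7. -/
def StM13 : Prop :=
  ∀ (n : ℕ) (L : Type) [Ring L] [Algebra ℂ L] [StarRing L] [StarModule ℂ L] [Nontrivial L]
    (D : Sys n L) (X0 : Set L) (M M2 r : ℕ) (B : YBas D X0 M r) (Z : Finset ℤ), ModHyp D X0 M M2 →
    (∀ j ∉ Z, ∀ i, (B.mk' M2 Z).F j i = 0) → (∀ j ∉ Z, ∀ a, (B.mk' M2 Z).bb j a = 0) →
    (∀ j ∉ Z, ∀ a, (B.mk' M2 Z).Cm j a = 0) →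
    ∀ t : ℝ, 0 < t → ∀ z : Idx n r →₀ ℂ,
      (B.mk' M2 Z).Cl t ((B.mk' M2 Z).Cl t z) = z ∧
      (B.mk' M2 Z).Cl t ((B.mk' M2 Z).Fl t z) = (B.mk' M2 Z).Fl t ((B.mk' M2 Z).Cl t z) ∧
      (B.mk' M2 Z).piV D t ((B.mk' M2 Z).Cl t z) =
        D.b.ev (t : ℂ) (star ((B.mk' M2 Z).piV D t z))

/-- M14. EXISTENCE OF THE MODEL.  PROOF. M ≥ 1 from G1 with j = 1.  Basis B from M6.  M2 ≥ M so large that lev holds (A4 for the finitely many
elements star (p_j (x i)), lengths drop by a bounded amount), and larger than all word lengths in the supports of the coordinates of CL (b a) and of C x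
(x ∈ X0; C x = C(star (w [])) C x bt (w []) ∈ YY); these supports do not depend on M2.  Z from M9.  Then all fields: M10, M11, M12, M13; lift:
k j = co j (C x) and M11. -/
def StM14 : Prop :=
  ∀ (n : ℕ) (L : Type) [Ring L] [Algebra ℂ L] [StarRing L] [StarModule ℂ L] [Nontrivial L]
    (D : Sys n L) (X0 : Set L), X0.Finite → (∀ x ∈ X0, D.b.p 0 x = x ∧ star x = x) →
    (1 : L) ∈ X0 → ∃ m : MData n L, IsModel D X0 m

end Pool.Agent.Helper99.SI
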