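import Pool.Agent.Helper99.SI.Defs

set_option autoImplicit false

/-!
# Project SI: abstract Schur complements (statements with complete proofs)

H complex Hilbert space, e : ι → H finite orthonormal family, V its span, H1 the orthogonal
complement of V.
-/

namespace Pool.Agent.Helper99.SI

open Filter Topology

/-- S is the Schur complement of T: there are w j ∈ H1 with T (e j + w j) = ∑ S i j • e i. -/
def SchurRel {H : Type} [NormedAddCommGroup H] [InnerProductSpace ℂ H] {ι : Type} [Fintype ι]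
    (e : ι → H) (T : H →L[ℂ] H) (S : Matrix ι ι ℂ) : Prop :=
  ∃ w : ι → H, (∀ i j, inner ℂ (e i) (w j) = 0) ∧ ∀ j, T (e j + w j) = ∑ i, S i j • e i

/-- T is coercive on H1. -/
def Coer {H : Type} [NormedAddCommGroup H] [InnerProductSpace ℂ H] {ι : Type}
    (e : ι → H) (T : H →L[ℂ] H) : Prop :=
  ∃ c : ℝ, 0 < c ∧ ∀ z : H, (∀ i, inner ℂ (e i) z = 0) → c * ‖z‖ ^ 2 ≤ (inner ℂ z (T z)).re

/-- S1. Existence and uniqueness of the Schur complement.  PROOF. H1 is a closed subspace, complete.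
T11 := P1 T|H1 is coercive (re ⟨z, T11 z⟩ ≥ c ‖z‖^2), hence bijective on H1 (Lax-Milgram:
IsCoercive in Mathlib for real spaces, or: bounded below by c, so injective with closed range; a
vector orthogonal to the range satisfies re ⟨z, T11 z⟩ = 0, so it is 0).  w j is the solution of
T11 w = - P1 T e_j.  Uniqueness: two solutions differ by v ∈ H1 with P1 T v = 0, so
re ⟨v, T v⟩ = 0, v = 0. -/
def StS1 : Prop :=
  ∀ (H : Type) [NormedAddCommGroup H] [InnerProductSpace ℂ H] [CompleteSpace H]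
    (ι : Type) [Fintype ι] [DecidableEq ι] (e : ι → H) (_he : Orthonormal ℂ e) (T : H →L[ℂ] H),
    Coer e T → ∃! S : Matrix ι ι ℂ, SchurRel e T S

/-- S2. Continuity.  PROOF. Fix x0 ∈ U, c the coercivity constant of T x0; for x ∈ U near x0
‖T x - T x0‖ ≤ c/2, so T x is coercive with c/2.  Let w x j be the vectors of SchurRel.  For
d = w x j - w x0 j ∈ H1: ⟨d, T x (e j + w x j)⟩ = 0 = ⟨d, T x0 (e j + w x0 j)⟩ (right sides in V),
so ⟨d, T x d⟩ = ⟨d, T x (e j + w x j)⟩ - ⟨d, T x (e j + w x0 j)⟩ = -⟨d, (T x - T x0)(e j + w x0 j)⟩, so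
(c/2) ‖d‖ ≤ ‖T x - T x0‖ ‖e j + w x0 j‖ → 0.  S x i j = ⟨e i, T x (e j + w x j)⟩ converges. -/
def StS2 : Prop :=
  ∀ (H : Type) [NormedAddCommGroup H] [InnerProductSpace ℂ H] [CompleteSpace H]
    (ι : Type) [Fintype ι] [DecidableEq ι] (e : ι → H) (_he : Orthonormal ℂ e)
    (X : Type) [TopologicalSpace X] (U : Set X) (T : X → (H →L[ℂ] H)) (S : X → Matrix ι ι ℂ),
    ContinuousOn T U → (∀ x ∈ U, Coer e (T x)) → (∀ x ∈ U, SchurRel e (T x) (S x)) →
    ContinuousOn S U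

/-- S3. Invertibility.  PROOF. If T z = 0, write z = ∑ a j • e j + v, v ∈ H1, a j = ⟨e j, z⟩; then
d = v - ∑ a j • w j ∈ H1 satisfies T d = T z - ∑ a j • T (e j + w j) ∈ V, so ⟨d, T d⟩ = 0, d = 0 and
0 = T z = ∑_i (S a)_i • e i, so S a = 0.  If det S ≠ 0 then a = 0, v = 0.  If det S = 0 take
a ≠ 0 with S a = 0 and z = ∑ a j • (e j + w j) ≠ 0. -/
def StS3 : Prop :=
  ∀ (H : Type) [NormedAddCommGroup H] [InnerProductSpace ℂ H] [CompleteSpace H]
    (ι : Type) [Fintype ι] [DecidableEq ι] (e : ι → H) (_he : Orthonormal ℂ e) (T : H →L[ℂ] H)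
    (S : Matrix ι ι ℂ), Coer e T → SchurRel e T S → (S.det ≠ 0 ↔ ∀ z, T z = 0 → z = 0)

/-- S4. Dense range.  PROOF. Suppose det S = 0: there is b ≠ 0 with bᵀ S = 0.  For y ∈ H let u(y) in
H1 be the solution of P1 T u = P1 y (unique, depends linearly and continuously on y, S1) and
ℓ(y) = ∑ b_i ⟨e i, y - T u(y)⟩, a continuous linear functional.  If y = T z, z = ∑ a_j e_j + v, then with
d = v - ∑ a_j w_j: T d = y - ∑ (S a)_i e_i, so P1 T d = P1 y, u(y) = d, y - T u(y) = ∑ (S a)_i e_i,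
ℓ(y) = bᵀ S a = 0.  So ℓ = 0 on the dense range, ℓ = 0.  But for y = e i: P1 y = 0, u(y) = 0,
ℓ(e i) = b_i.  Contradiction. -/
def StS4 : Prop :=
  ∀ (H : Type) [NormedAddCommGroup H] [InnerProductSpace ℂ H] [CompleteSpace H]
    (ι : Type) [Fintype ι] [DecidableEq ι] (e : ι → H) (_he : Orthonormal ℂ e) (T : H →L[ℂ] H)
    (S : Matrix ι ι ℂ), Coer e T → SchurRel e T S → DenseRange T → S.det ≠ 0

/-- S5. Reality.  PROOF. C maps V onto V and H1 into H1: let C (e j) = ∑ K i j • e i and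
C (w j) ∈ H1.  T (C (e j + w j)) = C (T (e j + w j)) = C (∑ S i j • e i) = ∑_i conj(S i j) C (e i) =
∑_l (K conj(S))_{l j} e_l.  Also C (e j + w j) = ∑_i K i j (e_i + w_i) + d, d = C w j - ∑ K i j w_i ∈ H1,
T d ∈ V, so d = 0 (coercive), hence T (C (e j + w j)) = ∑_l (S K)_{l j} e_l.  So S K = K conj(S); K is
invertible since C is injective on V (if K a = 0 then C(∑ conj(a j) e j) = ∑ a j C(e j) = 0).  So
det S = conj(det S). -/
def StS5 : Prop :=
  ∀ (H : Type) [NormedAddCommGroup H] [InnerProductSpace ℂ H] [CompleteSpace H]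
    (ι : Type) [Fintype ι] [DecidableEq ι] (e : ι → H) (_he : Orthonormal ℂ e) (T : H →L[ℂ] H)
    (S : Matrix ι ι ℂ) (C : H → H), Coer e T → SchurRel e T S →
    (∀ x y, C (x + y) = C x + C y) → (∀ (a : ℂ) (x : H), C (a • x) = star a • C x) →
    Function.Injective C → (∀ z, T (C z) = C (T z)) →
    (∀ j, C (e j) ∈ Submodule.span ℂ (Set.range e)) →
    (∀ z, (∀ i, inner ℂ (e i) z = 0) → ∀ i, inner ℂ (e i) (C z) = 0) →
    S.det.im = 0

/-- S6. Positive definite operators.  PROOF. T is hermitian with c ‖z‖^2 ≤ re ⟨z, T z⟩.  For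
z = ∑ a j (e j + w j): ⟨z, T z⟩ = ⟨∑ a j e j, ∑ (S a)_i e i⟩ = a^* S a (as w ⟂ e).  So a^* S a is real and
≥ c ‖z‖^2 ≥ c ‖a‖^2, S is positive definite (hermitian because a^* S a is real for all a), so
det S > 0 (Matrix.PosDef.det_pos). -/
def StS6 : Prop :=
  ∀ (H : Type) [NormedAddCommGroup H] [InnerProductSpace ℂ H] [CompleteSpace H]
    (ι : Type) [Fintype ι] [DecidableEq ι] (e : ι → H) (_he : Orthonormal ℂ e) (T : H →L[ℂ] H)
    (S : Matrix ι ι ℂ) (c : ℝ), 0 < c → (∀ y z, inner ℂ (T y) z = inner ℂ y (T z)) →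
    (∀ z, c * ‖z‖ ^ 2 ≤ (inner ℂ z (T z)).re) → SchurRel e T S →
    0 < S.det.re ∧ S.det.im = 0

/-- S7. Finite rank perturbation supported on V.  PROOF. T0 = T + ∑_a |k_a⟩⟨l_a| coincides with T on
H1, so it is coercive as well, and with the same w j: T0 (e j + w j) = ∑ S i j e_i + ∑_a λ a j k_a, so
S0 = S + ∑_a κ a · λ a ·, i.e. S0 i j = S i j + ∑_a κ a i * λ a j.  T0 z_b = k_b ∈ V, so z_b = ∑_j ζ_b j (e j + w j),
ζ_b j = ⟨e j, z_b⟩ (difference d ∈ H1 with T0 d ∈ V, so d = 0), and S0 ζ_b = κ_b.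
l_a(z_b) = ∑_j λ a j ζ_b j = m a b.  With K = (κ a i)_{i a}, Λ = (λ a j)_{a j}, Z = (ζ_b j)_{j b}: S = S0 - K Λ,
S0 Z = K, Λ Z = m.  S = S0 (1 - Z Λ), det S = det S0 det (1 - Z Λ) = det S0 det (1 - Λ Z)
(Matrix.det_one_sub_mul_comm). -/
def StS7 : Prop :=
  ∀ (H : Type) [NormedAddCommGroup H] [InnerProductSpace ℂ H] [CompleteSpace H]
    (ι : Type) [Fintype ι] [DecidableEq ι] (e : ι → H) (_he : Orthonormal ℂ e)
    (A : Type) [Fintype A] [DecidableEq A] (T T0 : H →L[ℂ] H) (S S0 : Matrix ι ι ℂ)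
    (ka la : A → ι → ℂ) (z : A → H) (m : Matrix A A ℂ),
    Coer e T → SchurRel e T S → SchurRel e T0 S0 →
    (∀ y, T0 y = T y + ∑ a, (∑ j, la a j * inner ℂ (e j) y) • (∑ i, ka a i • e i)) →
    (∀ b, T0 (z b) = ∑ i, ka b i • e i) →
    (∀ a b, ∑ j, la a j * inner ℂ (e j) (z b) = m a b) →
    S.det = S0.det * (1 - m).det

/-- S8. The final sign argument.  PROOF. (a) On the segment {(s,1)}, 0 ≤ s < 1: P00 is continuous and
nonvanishing and P00 0 = P 0 1 > 0, so P00 > 0 and P s 1 < 0 for 1/N < s < 1.  (b) P 0 t > 0 for all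
t ∈ (0,1]; for t ≤ t1: s ↦ P s t is continuous and nonvanishing on [0,1], so P 1 t > 0.  q is continuous with
q 0 = 1, so for small t, q t > 0 and P0 t = P 1 t / q t > 0; P0 is continuous nonvanishing on (0,1), so
P0 > 0.  (c) Suppose q 1 > 0; then q t > 0 for t near 1 and P 1 t > 0 for t < 1 near 1.  The set
K = {(s,t) : 1 - ε < s ≤ 1, 1 - ε < t ≤ 1} \ {(1,1)} is path connected (from (s,1) go to (s,s'), then to (1,s'),
straight segments avoiding (1,1)), P is continuous and nonvanishing on it, so it has constant sign there: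
contradiction between (a) and (c).  So q 1 ≤ 0. -/
def StS8 : Prop :=
  ∀ (P : ℝ → ℝ → ℝ) (P00 P0 q : ℝ → ℝ) (N : ℝ), 1 < N →
    ContinuousOn (fun x : ℝ × ℝ => P x.1 x.2)
      {x | 0 ≤ x.1 ∧ x.1 ≤ 1 ∧ 0 < x.2 ∧ x.2 ≤ 1 ∧ ¬ (x.1 = 1 ∧ x.2 = 1)} →
    (∀ t, 0 < t → t ≤ 1 → 0 < P 0 t) →
    ContinuousOn P00 (Set.Ico 0 1) → (∀ s ∈ Set.Ico (0 : ℝ) 1, P00 s ≠ 0) →
    (∀ s ∈ Set.Ico (0 : ℝ) 1, P s 1 = P00 s * (1 - N * s)) →
    ContinuousOn P0 (Set.Ioo 0 1) → (∀ t ∈ Set.Ioo (0 : ℝ) 1, P0 t ≠ 0) →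
    Continuous q → q 0 = 1 → (∀ t ∈ Set.Ioo (0 : ℝ) 1, P 1 t = P0 t * q t) →
    (∃ t1 > 0, ∀ t, 0 < t → t ≤ t1 → t ≤ 1 → ∀ s, 0 ≤ s → s ≤ 1 → P s t ≠ 0) →
    (∃ ε > 0, ∀ s t, 1 - ε < s → s ≤ 1 → 1 - ε < t → t ≤ 1 → ¬ (s = 1 ∧ t = 1) → P s t ≠ 0) →
    q 1 ≤ 0

end Pool.Agent.Helper99.SI
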